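import Mathlib

/-! The numerical estimates. -/

namespace Pool.Agent.Lib.MP_802a39_co

open Filter Real Asymptotics

theorem numeric {ε : ℝ} (h0 : 0 < ε) (h1 : ε ≤ 1) : ∀ᶠ L : ℝ in atTop, ∀ k m : ℕ,
    2 * L - 2 * logb 2 L - 5 ≤ k → (k : ℝ) ≤ 2 * L - 2 * logb 2 L - 3 - ε →
    (k : ℝ) * m ≤ 2 ^ L → (2 : ℝ) ^ L < k * (m + 1) →
    0 < k ∧ 0 < m ∧ ∃ y : ℝ, 0 ≤ y ∧ y ^ 8 = 2 ^ k ∧
      k * ((2 : ℝ) ^ L) ^ 2 * (k * y / m) ^ 3 ≤ 1 ∧ 2 * k ^ 2 * m ≤ y ^ 5 ∧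
      2 ^ k.choose 2 * ((2 : ℝ) ^ L) ^ 2 ≤ (m : ℝ) ^ k := by
  set c : ℝ := 2 ^ (-(ε / 4)) with hc
  have hc0 : 0 < c := by positivity
  have hc1 : c < 1 := rpow_lt_one_of_one_lt_of_neg (by norm_num) (by linarith)
  have e2 := (isLittleO_logb_id_atTop (b := 2)).bound (c := ε / 16) (by positivity)
  have e3 := (isLittleO_pow_exp_pos_mul_atTop 7 (b := log 2 / 4)
    (by have := log_pos (x := 2) (by norm_num); positivity)).bound (c := (1 - c) / 1024)
    (by linarith)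
  filter_upwards [e2, e3, eventually_ge_atTop (40 / ε), eventually_ge_atTop 1] with L e2 e3 e4 e1
  intro k m hk1 hk2 hm1 hm2
  have hl0 : 0 ≤ logb 2 L := logb_nonneg (by norm_num) e1
  rw [id, norm_of_nonneg hl0, norm_of_nonneg (by linarith)] at e2
  rw [div_le_iff₀ h0] at e4
  set u : ℝ := 2 ^ (L / 4) with hu
  have hu' : exp (log 2 / 4 * L) = u := by
    rw [hu, rpow_def_of_pos (by norm_num)]
    congr 1
    ring
  have hu1 : 1 ≤ u := one_le_rpow (by norm_num) (by linarith)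
  rw [hu', norm_of_nonneg (by positivity), norm_of_nonneg (by positivity)] at e3
  have hn : (2 : ℝ) ^ L = u ^ 4 := by
    rw [hu, ← rpow_natCast, ← rpow_mul (by norm_num)]
    congr 1
    push_cast
    ring
  have hεL : ε * L ≤ L := by nlinarith
  have hkL : L ≤ k := by linarith
  have hk2L : (k : ℝ) ≤ 2 * L := by linarith
  have hkk : 2 * L ≤ k * (1 + ε / 4) := by nlinarith
  have hL7 : L ≤ L ^ 7 := le_self_pow₀ e1 (by norm_num)
  have hu4 : u ≤ u ^ 4 := le_self_pow₀ hu1 (by norm_num)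
  have hLu : 1024 * L ^ 7 ≤ u := by nlinarith
  have hk0 : (0 : ℝ) < k := by linarith
  have hm3 : c * u ^ 4 ≤ 2 * L * m := by
    have h2 : k * ((m : ℝ) + 1) ≤ 2 * L * (m + 1) := by gcongr
    have h3 : (1 - c) * u ≤ (1 - c) * u ^ 4 := by gcongr
    nlinarith
  have hm0 : (0 : ℝ) < m := by
    have : 0 < c * u ^ 4 := by positivity
    by_contra h
    have : (m : ℝ) = 0 := le_antisymm (not_lt.1 h) (Nat.cast_nonneg m)
    simp_all
    linarith
  have hm0' : 0 < m := by exact_mod_cast hm0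
  have hm4 : (1 : ℝ) ≤ m := by exact_mod_cast hm0'
  have hlog : (2 : ℝ) ^ logb 2 L = L := rpow_logb (by norm_num) (by norm_num) (by linarith)
  refine ⟨by exact_mod_cast hk0, hm0', 2 ^ ((k : ℝ) / 8), by positivity, ?_, ?_, ?_, ?_⟩
  · rw [← rpow_natCast, ← rpow_mul (by norm_num), ← rpow_natCast]
    congr 1
    push_cast
    ring
  · have hy : (2 : ℝ) ^ ((k : ℝ) / 8) ≤ u := rpow_le_rpow_of_exponent_le (by norm_num) (by linarith)
    have h2 : k * (2 : ℝ) ^ ((k : ℝ) / 8) / m ≤ 8 * L ^ 2 / u ^ 3 := by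
      rw [div_le_div_iff₀ hm0 (by positivity)]
      have h3 : u ^ 4 ≤ 4 * L * m := by nlinarith
      calc k * (2 : ℝ) ^ ((k : ℝ) / 8) * u ^ 3 ≤ 2 * L * u * u ^ 3 := by gcongr
        _ = 2 * L * u ^ 4 := by ring
        _ ≤ 2 * L * (4 * L * m) := by gcongr
        _ = _ := by ring
    rw [hn]
    calc _ ≤ 2 * L * (u ^ 4) ^ 2 * (8 * L ^ 2 / u ^ 3) ^ 3 := by gcongr
      _ = 1024 * L ^ 7 / u := by field_simp; ring
      _ ≤ 1 := (div_le_one (by positivity)).2 hLu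
  · have hy : u / (2 * L) ≤ (2 : ℝ) ^ ((k : ℝ) / 8) := by
      have h2 : u / (2 * L) = 2 ^ (L / 4 - (1 + logb 2 L)) := by
        rw [rpow_sub (by norm_num), rpow_add (by norm_num), hlog, rpow_one]
      rw [h2]
      exact rpow_le_rpow_of_exponent_le (by norm_num) (by linarith)
    have h3 : (m : ℝ) ≤ u ^ 4 := by nlinarith
    calc 2 * (k : ℝ) ^ 2 * m ≤ 2 * (2 * L) ^ 2 * u ^ 4 := by gcongr
      _ = (256 * L ^ 7) * u ^ 4 / (2 * L) ^ 5 := by field_simp; ring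
      _ ≤ u * u ^ 4 / (2 * L) ^ 5 := by gcongr; nlinarith
      _ = (u / (2 * L)) ^ 5 := by rw [div_pow]; ring
      _ ≤ _ := by gcongr
  · have h2 : (2 : ℝ) ^ (L - (1 + logb 2 L) + -(ε / 4)) ≤ m := by
      rw [rpow_add (by norm_num), rpow_sub (by norm_num), rpow_add (by norm_num), hlog, rpow_one,
        hn, ← hc, div_mul_eq_mul_div, div_le_iff₀ (by positivity)]
      linarith
    calc 2 ^ k.choose 2 * ((2 : ℝ) ^ L) ^ 2 = 2 ^ ((k : ℝ) * (k - 1) / 2 + L * 2) := by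
          rw [rpow_add (by norm_num), ← Nat.cast_choose_two, rpow_natCast, rpow_mul (by norm_num),
            rpow_two]
      _ ≤ 2 ^ ((L - (1 + logb 2 L) + -(ε / 4)) * k) := by
          refine rpow_le_rpow_of_exponent_le (by norm_num) ?_
          nlinarith
      _ = (2 ^ (L - (1 + logb 2 L) + -(ε / 4))) ^ k := by
          rw [rpow_mul (by norm_num), rpow_natCast]
      _ ≤ _ := by gcongr

end Pool.Agent.Lib.MP_802a39_co
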