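import Mathlib

/-! The Maker-Breaker tournament game. -/

namespace Pool.Agent.Lib.MP_802a39_co

/-- `T` is a tournament: no loops, and exactly one direction between distinct vertices. -/
def IsTournament {k : ℕ} (T : Fin k → Fin k → Prop) : Prop :=
  (∀ i, ¬ T i i) ∧ ∀ i j, i ≠ j → (T i j ↔ ¬ T j i)

/-- The digraph with arc set `M` contains a copy of `T`. -/
def HasCopy {k n : ℕ} (T : Fin k → Fin k → Prop) (M : Finset (Fin n × Fin n)) : Prop :=
  ∃ φ : Fin k → Fin n, Function.Injective φ ∧ ∀ i j, T i j → (φ i, φ j) ∈ M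

/-- `MakerWins T M U b`: Maker owns the arcs `M`, the edges in `U` are still free, Maker is to move
if `b = true` and Breaker if `b = false`, and Maker can force a copy of `T` among her arcs at the
end of play. -/
inductive MakerWins {k n : ℕ} (T : Fin k → Fin k → Prop) :
    Finset (Fin n × Fin n) → Finset (Sym2 (Fin n)) → Bool → Prop
  | over (M : Finset (Fin n × Fin n)) (b : Bool) : HasCopy T M → MakerWins T M ∅ b
  | maker (M : Finset (Fin n × Fin n)) (U : Finset (Sym2 (Fin n))) (u v : Fin n) :
      s(u, v) ∈ U → MakerWins T (insert (u, v) M) (U.erase s(u, v)) false → MakerWins T M U true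
  | breaker (M : Finset (Fin n × Fin n)) (U : Finset (Sym2 (Fin n))) :
      U.Nonempty → (∀ e ∈ U, MakerWins T M (U.erase e) true) → MakerWins T M U false

/-- Maker wins the `k`-tournament game on `K_n`, whatever tournament Breaker fixes. -/
def MakerWinsGame (k n : ℕ) : Prop :=
  ∀ T : Fin k → Fin k → Prop, IsTournament T →
    MakerWins T (∅ : Finset (Fin n × Fin n)) (⊤ : SimpleGraph (Fin n)).edgeFinset true

end Pool.Agent.Lib.MP_802a39_co
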