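import Pool.Agent.Lib.MP_802a39_co.Num
import Pool.Agent.Lib.MP_802a39_co.Defs

/-! The total weight of the embeddings born through one arc. -/

set_option autoImplicit false

namespace Pool.Agent.Lib.MP_802a39_co

open Finset

variable {k n w p : ℕ}

/-- A tournament in which every block of base roles separates the ordinary roles. -/
structure Tour (w : ℕ) (T : Fin k → Fin k → Prop) (blk : Fin k → ℕ) (I0 : Finset (Fin k)) :
    Prop where
  tour : IsTournament T
  cardI : I0.card ≤ w ^ 22
  cardB : ∀ c, (I0.filter fun j => blk j = c).card ≤ w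
  uniq : ∀ c < w ^ 21, ∀ i i', i ∉ I0 → i' ∉ I0 →
    (∀ j ∈ I0.filter fun j => blk j = c, (T i j ↔ T i' j)) → i = i'

theorem card_pi3 (J B : Finset (Fin k)) (V' : Finset (Fin n)) (u : Fin n) :
    (Fintype.piFinset fun i => if i ∈ J then V' else if i ∈ B then univ else {u}).card =
      V'.card ^ J.card * n ^ (B \ J).card := by
  rw [Fintype.card_piFinset, ← prod_mul_prod_compl J]
  congr 1
  · rw [prod_congr rfl fun i hi => by rw [if_pos hi], prod_const]
  · rw [prod_congr rfl (g := fun i => if i ∈ B then n else 1) fun i hi => by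
      rw [if_neg (mem_compl.1 hi)]
      split_ifs <;> simp]
    rw [prod_ite, prod_const_one, mul_one, prod_const]
    congr 2
    ext i
    simp only [mem_filter, mem_compl, mem_sdiff]
    tauto

theorem exists_block {T : Fin k → Fin k → Prop} {blk : Fin k → ℕ} {I0 : Finset (Fin k)}
    (hT : Tour w T blk I0) (hw : 0 < w) {D : Finset (Fin n × Fin n)} {φ : Fin k → Fin n}
    (hinj : Function.Injective φ) (hc : compat T D φ) (hm : (eE φ \ und D).card ≤ 2 * w ^ 43) :
    ∃ c < w ^ 21, ∃ I : Finset (Fin k), I.card ≤ 2 * w ^ 22 ∧ ∀ i, i ∉ I0 ∪ I →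
      ∀ j ∈ I0.filter fun j => blk j = c, ((φ i, φ j) ∈ D ↔ T i j) := by
  set Pairs := (I0ᶜ ×ˢ I0).filter fun a => s(φ a.1, φ a.2) ∉ und D with hP
  have h1 : Pairs.card ≤ (eE φ \ und D).card := by
    refine card_le_card_of_injOn (fun a => s(φ a.1, φ a.2)) (fun a ha => ?_) fun a ha b hb hab => ?_
    · obtain ⟨h1, h2⟩ := mem_filter.1 (mem_coe.1 ha)
      obtain ⟨h3, h4⟩ := mem_product.1 h1
      exact mem_coe.2 (mem_sdiff.2 ⟨mk_mem_eE hinj
        (ne_of_mem_of_not_mem h4 (mem_compl.1 h3)).symm, h2⟩)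
    · obtain ⟨h3, h4⟩ := mem_product.1 (mem_filter.1 (mem_coe.1 ha)).1
      obtain ⟨h5, h6⟩ := mem_product.1 (mem_filter.1 (mem_coe.1 hb)).1
      rcases Sym2.eq_iff.1 hab with ⟨h7, h8⟩ | ⟨h7, _⟩
      · exact Prod.ext (hinj h7) (hinj h8)
      · exact absurd (hinj h7 ▸ h6) (mem_compl.1 h3)
  obtain ⟨c, hc1, hc2⟩ := exists_card_fiber_le_of_card_le_mul (s := Pairs) (t := range (w ^ 21))
    (f := fun a => blk a.2) (n := 2 * w ^ 22) ⟨0, mem_range.2 (by positivity)⟩ (by
      rw [card_range]
      refine (h1.trans hm).trans (le_of_eq ?_)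
      ring)
  refine ⟨c, mem_range.1 hc1, (Pairs.filter fun a => blk a.2 = c).image Prod.fst,
    card_image_le.trans hc2, fun i hi j hj => ?_⟩
  rw [mem_union, not_or] at hi
  obtain ⟨hj1, hj2⟩ := mem_filter.1 hj
  have h2 : s(φ i, φ j) ∈ und D := by
    by_contra h3
    exact hi.2 (mem_image.2 ⟨(i, j), mem_filter.2 ⟨mem_filter.2
      ⟨mem_product.2 ⟨mem_compl.2 hi.1, hj1⟩, h3⟩, hj2⟩, rfl⟩)
  have hij : i ≠ j := (ne_of_mem_of_not_mem hj1 hi.1).symm
  constructor
  · intro h3
    by_contra h4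
    exact hc j i ((hT.tour.2 j i hij.symm).2 h4) h3
  · intro h3
    exact (mk_mem_und.1 h2).resolve_right (hc i j h3)

theorem image_filter_mem (φ : Fin k → Fin n) (V' : Finset (Fin n)) :
    (univ.filter fun i => φ i ∈ V').image φ = im φ ∩ V' := by
  ext x
  simp only [mem_image, mem_filter, mem_univ, true_and, mem_inter, mem_im]
  constructor
  · rintro ⟨i, h1, rfl⟩
    exact ⟨⟨i, rfl⟩, h1⟩
  · rintro ⟨⟨i, rfl⟩, h1⟩
    exact ⟨i, h1, rfl⟩

theorem Num.small_card (h : Num k n w p) (m : ℕ) :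
    ((((univ : Finset (Fin k)).powerset.filter fun I => I.card ≤ m).card : ℕ) : ℝ) ≤ ex (m * w) := by
  have h1 := card_small_subsets (univ : Finset (Fin k)) m
  rw [card_fin] at h1
  refine le_trans ?_ (pow_le_ex (a := (k : ℝ) + 1) (by positivity) (by linarith [h.k2']) m)
  exact_mod_cast h1

theorem Num.kk (h : Num k n w p) : (k : ℝ) * k + 2 ≤ ex (2 * w) := by
  rw [two_mul]
  refine le_trans ?_ (mul_le_ex h.k2' h.k2' (by positivity))
  have : (0 : ℝ) ≤ k := by positivity
  nlinarith

theorem Num.gk (h : Num k n w p) : 1000 * (w : ℝ) ^ 23 ≤ k / p := by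
  have hp := h.p2'
  rw [le_div_iff₀ (by linarith)]
  have h1 := mul_le_mul_of_nonneg_right h.wp' (show (0 : ℝ) ≤ (w : ℝ) ^ 23 by positivity)
  have h2 : (w : ℝ) * w ^ 23 = w ^ 24 := by ring
  linarith [h.kl']

open Classical in
theorem birth (h : Num k n w p) {T : Fin k → Fin k → Prop} {blk : Fin k → ℕ}
    {I0 : Finset (Fin k)} (hT : Tour w T blk I0) (D : Finset (Fin n × Fin n))
    (Q : Finset (Sym2 (Fin n))) (hst : Stat k n w p (yOf D Q)) (VU : Finset (Fin n))
    (hVU : VU.card ≤ k * k) {u v : Fin n} (C : Finset (Fin k → Fin n))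
    (hC : ∀ φ ∈ C, Function.Injective φ ∧ compat T D φ ∧ (eE φ \ und D).card = 2 * w ^ 43 ∧
      u ∈ im φ ∧ v ∈ im φ ∧ 2 ≤ (im φ ∩ VU).card ∧ (im φ ∩ VU).card + 2 ≤ 17 * w ^ 17) :
    ∑ φ ∈ C, W (yOf D Q) (eE φ \ ed (im φ ∩ insert u (insert v VU))) ≤
      ex (-(k / p) - 1 - 4 * w - (({u, v} : Finset (Fin n)) \ VU).card * lam k w p) := by
  have hw := h.w2
  have hw0 : 0 < w := by
    have : (0 : ℝ) < w := by linarith
    exact_mod_cast this
  set y := yOf D Q with hy
  have hy0 : ∀ e, 0 ≤ y e := yOf_nonneg D Q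
  have hy1 : ∀ e, y e ≤ 1 := yOf_le_one D Q
  set V' := insert u (insert v VU) with hV'
  set c := (({u, v} : Finset (Fin n)) \ VU).card with hc
  have hc2 : c ≤ 2 := (card_le_card sdiff_subset).trans card_le_two
  set B : ℕ → Finset (Fin k) := fun c => I0.filter fun j => blk j = c with hB
  set Ty : Finset (Finset (Fin k) × ℕ × Finset (Fin k)) :=
    (((univ : Finset (Fin k)).powerset.filter fun I => I.card ≤ 17 * w ^ 17).filter
      fun I => 2 + c ≤ I.card) ×ˢ range (w ^ 21) ×ˢ
      ((univ : Finset (Fin k)).powerset.filter fun I => I.card ≤ 2 * w ^ 22) with hTy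
  set Pi : Finset (Fin k) × ℕ × Finset (Fin k) → Finset (Fin k → Fin n) := fun t =>
    Fintype.piFinset fun i => if i ∈ t.1 then V' else if i ∈ B t.2.1 then univ else {u} with hPi
  set Fam : Finset (Fin k) × ℕ × Finset (Fin k) → (Fin k → Fin n) → Finset (Fin k → Fin n) :=
    fun t ρ => (embs k n).filter fun φ =>
      W y (eE φ \ ed (t.1.image ρ)) ≤ ex (-(2 * (k * w ^ 18))) ∧
        ∀ i, i ∉ I0 ∪ t.2.2 → ∀ j ∈ B t.2.1, ((φ i, ρ j) ∈ D ↔ T i j) with hFam
  refine (sum_le_cover C (Ty.sigma Pi) (fun t => pin (Fam t.1 t.2) (t.1.1 ∪ B t.1.2.1) t.2) _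
    (fun t φ => W y (eE φ \ ed (t.1.1.image t.2))) (fun _ _ => W_nonneg hy0 _)
    fun φ hφ => ?_).trans ?_
  · obtain ⟨hinj, hcomp, hmiss, hu, hv, h2, h17⟩ := hC φ hφ
    obtain ⟨c', hc', I, hI, hdec⟩ := exists_block hT hw0 hinj hcomp hmiss.le
    set J1 := univ.filter fun i => φ i ∈ V' with hJ1
    set ρ : Fin k → Fin n := fun i => if i ∈ J1 ∪ B c' then φ i else u with hρ
    have hρ1 : ∀ i ∈ J1 ∪ B c', φ i = ρ i := fun i hi => by simp only [hρ, if_pos hi]
    have him : J1.image ρ = im φ ∩ V' := by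
      rw [← image_filter_mem]
      exact image_congr fun i hi => (hρ1 i (mem_union_left _ hi)).symm
    have hcard : J1.card = (im φ ∩ V').card := by
      rw [← image_filter_mem, card_image_of_injective _ hinj]
    have hup : (im φ ∩ V').card ≤ 17 * w ^ 17 := by
      have h3 : im φ ∩ V' ⊆ insert u (insert v (im φ ∩ VU)) := by
        intro x hx
        simp only [hV', mem_inter, mem_insert] at hx ⊢
        tauto
      have h4 := (card_le_card h3).trans (card_insert_le _ _)
      have h5 := card_insert_le v (im φ ∩ VU)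
      omega
    have hlow : 2 + c ≤ (im φ ∩ V').card := by
      have h3 : (im φ ∩ VU) ∪ (({u, v} : Finset (Fin n)) \ VU) ⊆ im φ ∩ V' := by
        intro x hx
        simp only [hV', mem_inter, mem_insert, mem_union, mem_sdiff, mem_singleton] at hx ⊢
        rcases hx with hx | ⟨rfl | rfl, _⟩
        · tauto
        · tauto
        · tauto
      have h4 := card_le_card h3
      rw [card_union_of_disjoint (disjoint_left.2 fun x h5 h6 =>
        (mem_sdiff.1 h6).2 (mem_inter.1 h5).2)] at h4
      omega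
    refine ⟨⟨(J1, c', I), ρ⟩, mem_sigma.2 ⟨?_, ?_⟩, mem_pin.2 ⟨mem_filter.2
      ⟨mem_embs.2 hinj, ?_, fun i hi j hj => ?_⟩, hρ1⟩, by simp only [him, le_refl]⟩
    · simp only [hTy, mem_product, mem_filter, mem_powerset, subset_univ, true_and, mem_range]
      exact ⟨⟨hcard ▸ hup, hcard ▸ hlow⟩, hc', hI⟩
    · refine Fintype.mem_piFinset.2 fun i => ?_
      simp only
      split_ifs with h3 h4
      · rw [← hρ1 i (mem_union_left _ h3)]
        exact (mem_filter.1 h3).2
      · exact mem_univ _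
      · simp [hρ, h3, h4]
    · simp only [him]
      refine (W_yOf_le D Q _).trans (ex_le (neg_le_neg ?_))
      have h3 : eE φ \ und D ⊆ ((eE φ \ ed (im φ ∩ V')) \ und D) ∪ ed (im φ ∩ V') := by
        intro e he
        simp only [mem_union, mem_sdiff] at he ⊢
        tauto
      have h4 := (card_le_card h3).trans (card_union_le _ _)
      rw [hmiss] at h4
      have h5 : 2 * (w : ℝ) ^ 43 ≤ ((eE φ \ ed (im φ ∩ V')) \ und D).card +
        (ed (im φ ∩ V')).card := by exact_mod_cast h4
      rw [card_ed] at h5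
      have h6 : ((im φ ∩ V').card : ℝ) ≤ 17 * (w : ℝ) ^ 17 := by exact_mod_cast hup
      have h7 : (0 : ℝ) ≤ (im φ ∩ V').card := by positivity
      have h8 := mul_le_mul h6 h6 h7 (by positivity)
      have h9 := mul_le_mul_of_nonneg_right h.ku' (show (0 : ℝ) ≤ (w : ℝ) ^ 18 by positivity)
      have h10 := h.ch (i := 34) (j := 43) (by norm_num)
      have h11 := h.ch (i := 42) (j := 43) (by norm_num)
      have h12 : (0 : ℝ) ≤ (w : ℝ) ^ 43 := by positivity
      nlinarith
    · change (φ i, ρ j) ∈ D ↔ T i j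
      rw [← hρ1 j (mem_union_right _ hj)]
      exact hdec i hi j hj
  · rw [sum_sigma]
    have h17 := h.chk (i := 17) (by norm_num)
    have hbound : ∀ t ∈ Ty, ∑ ρ ∈ Pi t, ∑ φ ∈ pin (Fam t ρ) (t.1 ∪ B t.2.1) ρ,
        W y (eE φ \ ed (t.1.image ρ)) ≤
        ex (9 * (w : ℝ) ^ 23 - 2 * (k / p) - c * lam k w p) := by
      rintro ⟨J1, c', I⟩ ht
      simp only [hTy, mem_product, mem_filter, mem_powerset, subset_univ, true_and,
        mem_range] at ht
      obtain ⟨⟨hj1, hj2⟩, hc', hI⟩ := ht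
      set a := (B c' \ J1).card with ha
      have haw : a ≤ w := (card_le_card sdiff_subset).trans (hT.cardB c')
      have hJ : (J1 ∪ B c').card = J1.card + a := by
        rw [ha, ← card_union_of_disjoint disjoint_sdiff, union_sdiff_self_eq_union]
      have h1 : ∀ ρ ∈ Pi (J1, c', I), ∑ φ ∈ pin (Fam (J1, c', I) ρ) (J1 ∪ B c') ρ,
          W y (eE φ \ ed (J1.image ρ)) ≤ ex (mu k p (J1.card + a : ℕ) + 8 * (w : ℝ) ^ 23) := by
        intro ρ _
        refine theta_bound h hy0 hy1 (exists_cval D Q) hst (filter_subset _ _)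
          (fun φ hφ => (mem_filter.1 hφ).2.1)
          (fun x i => ∀ j ∈ B c', ((x, ρ j) ∈ D ↔ T i j)) (I0 ∪ I)
          (fun x i i' hi hi' h1 h2 => ?_) (fun φ hφ => (mem_filter.1 hφ).2.2) ?_ (by omega)
          _ ρ hJ (image_subset_image subset_union_left)
        · exact hT.uniq c' hc' i i' (fun h3 => hi (mem_union_left _ h3))
            (fun h3 => hi' (mem_union_left _ h3)) fun j hj => (h1 j hj).symm.trans (h2 j hj)
        · have := card_union_le I0 I
          have := hT.cardI
          omega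
      refine (sum_le_card_nsmul _ _ _ h1).trans ?_
      rw [nsmul_eq_mul]
      have h2 : ((Pi (J1, c', I)).card : ℝ) ≤ ex (J1.card * (2 * w) + a * lam k w p) := by
        simp only [hPi]
        rw [card_pi3]
        push_cast
        refine mul_le_ex (pow_le_ex (by positivity) (le_trans ?_ h.kk) _)
          (pow_le_ex (by positivity) h.nlam _) (by positivity)
        have h3 := (card_insert_le u (insert v VU)).trans
          (Nat.succ_le_succ (card_insert_le v VU))
        have h4 : V'.card ≤ k * k + 2 := h3.trans (by omega)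
        exact_mod_cast h4
      refine (mul_le_ex h2 le_rfl (ex_nonneg _)).trans (ex_le ?_)
      have e1 : (J1.card : ℝ) ≤ 17 * (w : ℝ) ^ 17 := by exact_mod_cast hj1
      have e2 : 2 + (c : ℝ) ≤ J1.card := by exact_mod_cast hj2
      have e3 : (a : ℝ) ≤ w := by exact_mod_cast haw
      have e4 : (c : ℝ) ≤ 2 := by exact_mod_cast hc2
      have e5 : (0 : ℝ) ≤ a := by positivity
      have e6 : (0 : ℝ) ≤ c := by positivity
      push_cast
      set j : ℝ := (J1.card : ℝ)
      have f1 : a * lam k w p + mu k p (j + a) = mu k p j + a * (w - 1 / 2 + j + a / 2) := by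
        unfold lam mu
        ring
      have f2 : mu k p j ≤ mu k p (2 + c) := by
        have : mu k p j = mu k p (2 + c) - (j - (2 + c)) * (k / 2 + bb p - (j + (2 + c)) / 2) := by
          unfold mu
          ring
        have h3 : 0 ≤ (j - (2 + c)) * (k / 2 + bb p - (j + (2 + c)) / 2) :=
          mul_nonneg (by linarith) (by linarith [h.b0])
        linarith
      have f3 : c * lam k w p + mu k p (2 + c) = mu k p 2 + c * (w - 1 / 2 + 2 + c / 2) := by
        unfold lam mu
        ring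
      have f4 : mu k p 2 ≤ -(2 * (k / p)) + 2 := by
        have hp := h.p2'
        have h3 : mu k p 2 = -(2 * (k / p)) + 2 * (2 / p) := by
          unfold mu bb
          ring
        have h4 : (2 : ℝ) / p ≤ 1 := by rw [div_le_one (by linarith)]; exact hp
        linarith
      have f5 : a * (w - 1 / 2 + j + a / 2) ≤ w * (2 * w + 17 * (w : ℝ) ^ 17) :=
        mul_le_mul e3 (by linarith) (by linarith) (by positivity)
      have f6 : (c : ℝ) * (w - 1 / 2 + 2 + c / 2) ≤ 2 * (w + 3) :=
        mul_le_mul e4 (by linarith) (by linarith) (by positivity)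
      have f7 : j * (2 * w) ≤ 17 * (w : ℝ) ^ 17 * (2 * w) :=
        mul_le_mul_of_nonneg_right e1 (by positivity)
      have g1 := h.ch (i := 18) (j := 23) (by norm_num)
      have g2 := h.ch (i := 2) (j := 23) (by norm_num)
      have g3 := h.wpw (i := 23) (by norm_num)
      nlinarith
    refine (sum_le_card_nsmul _ _ _ hbound).trans ?_
    rw [nsmul_eq_mul]
    have h1 : (Ty.card : ℝ) ≤ ex ((17 * w ^ 17 : ℕ) * w + (w + (2 * w ^ 22 : ℕ) * w)) := by
      simp only [hTy, card_product, card_range]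
      rw [Nat.cast_mul, Nat.cast_mul]
      refine mul_le_ex (le_trans ?_ (h.small_card _)) (mul_le_ex ?_ (h.small_card _)
        (by positivity)) (by positivity)
      · exact_mod_cast card_filter_le _ _
      · have := h.chk (i := 21) (by norm_num)
        have : (0 : ℝ) ≤ (w : ℝ) ^ 21 := by positivity
        push_cast
        linarith [h.kw]
    refine (mul_le_ex h1 le_rfl (ex_nonneg _)).trans (ex_le ?_)
    have g1 := h.ch (i := 18) (j := 23) (by norm_num)
    have g3 := h.wpw (i := 23) (by norm_num)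
    have g4 := h.gk
    push_cast
    nlinarith

end Pool.Agent.Lib.MP_802a39_co
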