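import Mathlib

/-! A second moment criterion for Maker's win in a Maker-Breaker game. -/

namespace Pool.Agent.Lib.MP_802a39_co

open Finset

variable {X : Type} [DecidableEq X]

/-- The weight of a set `S` when Maker owns `M` and `U` is free. -/
noncomputable def wt (M U S : Finset X) : ℝ :=
  if S ⊆ M ∪ U then (1 / 2) ^ (S ∩ U).card else 0

theorem wt_nonneg (M U S : Finset X) : 0 ≤ wt M U S := by
  unfold wt
  split_ifs <;> positivity

/-- Indicator of membership. -/
noncomputable def ind (x : X) (S : Finset X) : ℝ := if x ∈ S then 1 else 0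

theorem wt_maker {M U : Finset X} {x : X} (hx : x ∈ U) (S : Finset X) :
    wt (insert x M) (U.erase x) S = wt M U S * (1 + ind x S) := by
  have h : insert x M ∪ U.erase x = M ∪ U := by
    ext z
    simp only [mem_union, mem_insert, mem_erase]
    by_cases hz : z = x
    · simp [hz, hx]
    · simp [hz]
  unfold wt ind
  rw [h]
  split_ifs with h1 h2 h2
  · have h3 : S ∩ U = insert x (S ∩ U.erase x) := by
      ext z
      simp only [mem_inter, mem_insert, mem_erase]
      by_cases hz : z = x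
      · simp [hz, hx, h2]
      · simp [hz]
    rw [h3, card_insert_of_notMem (by simp), pow_succ]
    ring
  · have h3 : S ∩ U.erase x = S ∩ U := by
      ext z
      simp only [mem_inter, mem_erase]
      by_cases hz : z = x
      · simp [hz, h2]
      · simp [hz]
    rw [h3]
    ring
  · ring
  · ring

theorem wt_breaker {M U : Finset X} {y : X} (hy : y ∉ M) (S : Finset X) :
    wt M (U.erase y) S = wt M U S * (1 - ind y S) := by
  unfold wt ind
  by_cases h2 : y ∈ S
  · rw [if_neg, if_pos h2]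
    · ring
    · intro h
      have := h h2
      simp [hy] at this
  · have h3 : S ∩ U.erase y = S ∩ U := by
      ext z
      simp only [mem_inter, mem_erase]
      by_cases hz : z = y
      · simp [hz, h2]
      · simp [hz]
    have h4 : S ⊆ M ∪ U.erase y ↔ S ⊆ M ∪ U := by
      constructor
      · exact fun h => h.trans (union_subset_union_right (erase_subset _ _))
      · intro h z hz
        have := h hz
        simp only [mem_union, mem_erase] at this ⊢
        exact this.imp id fun h5 => ⟨fun h6 => h2 (h6 ▸ hz), h5⟩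
    rw [h3, if_neg h2]
    simp only [h4]
    ring

theorem wt_le {M U S : Finset X} {x y : X} (hxy : x ≠ y) (hx : x ∈ U) (hy : y ∈ U) (hxS : x ∈ S)
    (hyS : y ∈ S) : wt M U S ≤ 1 / 4 := by
  unfold wt
  split_ifs
  · have : 2 ≤ (S ∩ U).card := one_lt_card.2 ⟨x, mem_inter.2 ⟨hxS, hx⟩, y, mem_inter.2 ⟨hyS, hy⟩, hxy⟩
    calc ((1 : ℝ) / 2) ^ (S ∩ U).card ≤ (1 / 2) ^ 2 :=
          pow_le_pow_of_le_one (by norm_num) (by norm_num) this
      _ = 1 / 4 := by norm_num
  · norm_num

theorem wt_union {M U S S' : Finset X} {x y : X} (hxy : x ≠ y) (hx : x ∈ U) (hy : y ∈ U)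
    (hxS : x ∈ S) (hyS : y ∈ S) (hxS' : x ∈ S') (hyS' : y ∈ S') :
    4 * (wt M U S * wt M U S') ≤ wt M U (S ∪ S') := by
  by_cases h : S ⊆ M ∪ U
  · by_cases h' : S' ⊆ M ∪ U
    · unfold wt
      rw [if_pos h, if_pos h', if_pos (union_subset h h'), ← pow_add, union_inter_distrib_right]
      have h1 := card_union_add_card_inter (S ∩ U) (S' ∩ U)
      have h2 : 2 ≤ (S ∩ U ∩ (S' ∩ U)).card :=
        one_lt_card.2 ⟨x, by simp [*], y, by simp [*], hxy⟩
      calc 4 * ((1 : ℝ) / 2) ^ ((S ∩ U).card + (S' ∩ U).card)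
          ≤ 4 * (1 / 2) ^ ((S ∩ U ∪ S' ∩ U).card + 2) := by
            gcongr 4 * ?_
            exact pow_le_pow_of_le_one (by norm_num) (by norm_num) (by omega)
        _ = (1 / 2) ^ (S ∩ U ∪ S' ∩ U).card := by rw [pow_add]; ring
    · have : wt M U S' = 0 := by unfold wt; rw [if_neg h']
      rw [this, mul_zero, mul_zero]
      exact wt_nonneg _ _ _
  · have : wt M U S = 0 := by unfold wt; rw [if_neg h]
    rw [this, zero_mul, mul_zero]
    exact wt_nonneg _ _ _

variable {ι : Type} [DecidableEq ι] (F : Finset ι) (A : ι → Finset X)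

/-- Ordered pairs of distinct winning sets with at least two common elements. -/
def pairs : Finset (ι × ι) :=
  (F ×ˢ F).filter fun p => p.1 ≠ p.2 ∧ 2 ≤ (A p.1 ∩ A p.2).card

theorem loss_le {M U : Finset X} {x y : X} (hxy : x ≠ y) (hx : x ∈ U) (hy : y ∈ U) {l : ℝ}
    (hl : 0 < l) :
    ∑ i ∈ F, wt M U (A i) * (ind x (A i) * ind y (A i)) -
      l * ∑ p ∈ pairs F A, wt M U (A p.1 ∪ A p.2) *
        (ind x (A p.1 ∪ A p.2) * ind y (A p.1 ∪ A p.2)) ≤ 1 / 4 + 1 / (4 * l) := by
  set G := F.filter fun i => x ∈ A i ∧ y ∈ A i with hG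
  have h1 : ∑ i ∈ F, wt M U (A i) * (ind x (A i) * ind y (A i)) = ∑ i ∈ G, wt M U (A i) := by
    rw [hG, sum_filter]
    refine sum_congr rfl fun i _ => ?_
    unfold ind
    by_cases h1 : x ∈ A i <;> by_cases h2 : y ∈ A i <;> simp [h1, h2]
  have hterm : ∀ p ∈ pairs F A, 0 ≤ wt M U (A p.1 ∪ A p.2) *
      (ind x (A p.1 ∪ A p.2) * ind y (A p.1 ∪ A p.2)) := by
    intro p _
    have := wt_nonneg M U (A p.1 ∪ A p.2)
    unfold ind
    split_ifs <;> positivity
  have hsub : G.offDiag ⊆ pairs F A := by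
    intro p hp
    rw [mem_offDiag, hG, mem_filter, mem_filter] at hp
    obtain ⟨⟨h1, h2, h3⟩, ⟨h4, h5, h6⟩, h7⟩ := hp
    refine mem_filter.2 ⟨mem_product.2 ⟨h1, h4⟩, h7, ?_⟩
    exact one_lt_card.2 ⟨x, mem_inter.2 ⟨h2, h5⟩, y, mem_inter.2 ⟨h3, h6⟩, hxy⟩
  have h2 : ∑ p ∈ G.offDiag, 4 * (wt M U (A p.1) * wt M U (A p.2)) ≤
      ∑ p ∈ pairs F A, wt M U (A p.1 ∪ A p.2) *
        (ind x (A p.1 ∪ A p.2) * ind y (A p.1 ∪ A p.2)) := by
    refine le_trans (sum_le_sum fun p hp => ?_)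
      (sum_le_sum_of_subset_of_nonneg hsub fun p hp _ => hterm p hp)
    rw [mem_offDiag, hG, mem_filter, mem_filter] at hp
    obtain ⟨⟨h1, h2, h3⟩, ⟨h4, h5, h6⟩, h7⟩ := hp
    unfold ind
    rw [if_pos (mem_union_left _ h2), if_pos (mem_union_left _ h3), mul_one, mul_one]
    exact wt_union hxy hx hy h2 h3 h5 h6
  have h3 : (∑ i ∈ G, wt M U (A i)) ^ 2 = ∑ i ∈ G, wt M U (A i) * wt M U (A i) +
      ∑ p ∈ G.offDiag, wt M U (A p.1) * wt M U (A p.2) := by
    rw [sq, sum_mul_sum, ← sum_product', ← diag_union_offDiag, sum_union (disjoint_diag_offDiag _),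
      sum_diag]
  have h4 : ∑ i ∈ G, wt M U (A i) * wt M U (A i) ≤ (∑ i ∈ G, wt M U (A i)) / 4 := by
    rw [sum_div]
    refine sum_le_sum fun i hi => ?_
    rw [hG, mem_filter] at hi
    have := wt_le (M := M) hxy hx hy hi.2.1 hi.2.2
    have h0 := wt_nonneg M U (A i)
    nlinarith
  rw [← mul_sum] at h2
  rw [h1]
  set z := ∑ i ∈ G, wt M U (A i)
  set P := ∑ p ∈ pairs F A, wt M U (A p.1 ∪ A p.2) *
        (ind x (A p.1 ∪ A p.2) * ind y (A p.1 ∪ A p.2))
  have hP : 0 ≤ P := sum_nonneg hterm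
  have h5 : 4 * z ^ 2 - z ≤ P := by linarith
  have hl' : 0 < 1 / (4 * l) := by positivity
  by_cases hz : z ≤ 1 / 4 + 1 / (4 * l)
  · nlinarith
  · push Not at hz
    have h6 : 1 < l * (4 * z - 1) := by
      have : 1 / (4 * l) * (4 * l) = 1 := by field_simp
      nlinarith
    have h7 : l * (4 * z ^ 2 - z) ≤ l * P := mul_le_mul_of_nonneg_left h5 hl.le
    nlinarith

/-- The potential. -/
noncomputable def pot (l : ℝ) (M U : Finset X) : ℝ :=
  ∑ i ∈ F, wt M U (A i) - l * ∑ p ∈ pairs F A, wt M U (A p.1 ∪ A p.2)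

theorem exists_subset_of_pos {M : Finset X} (h : 0 < ∑ i ∈ F, wt M ∅ (A i)) :
    ∃ i ∈ F, A i ⊆ M := by
  by_contra hn
  push Not at hn
  have : ∑ i ∈ F, wt M ∅ (A i) = 0 := by
    refine sum_eq_zero fun i hi => ?_
    unfold wt
    rw [if_neg (by simpa using hn i hi)]
  linarith

theorem win_of_pot (Win : Finset X → Finset X → Bool → Prop)
    (hover : ∀ M b, (∃ i ∈ F, A i ⊆ M) → Win M ∅ b)
    (hm : ∀ M U x, x ∈ U → Win (insert x M) (U.erase x) false → Win M U true)
    (hb : ∀ M U, U.Nonempty → (∀ y ∈ U, Win M (U.erase y) true) → Win M U false)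
    {l : ℝ} (hl : 0 < l) : ∀ (N : ℕ) (M U : Finset X), U.card = N → Disjoint M U →
      (N : ℝ) / 2 * (1 / 4 + 1 / (4 * l)) < pot F A l M U → Win M U true := by
  intro N
  induction N using Nat.strong_induction_on with
  | _ N ih =>
  intro M U hN hd hp
  have hc : 0 < 1 / 4 + 1 / (4 * l) := by positivity
  have hpos : 0 < ∑ i ∈ F, wt M U (A i) := by
    have h1 : 0 ≤ ∑ p ∈ pairs F A, wt M U (A p.1 ∪ A p.2) := sum_nonneg fun _ _ => wt_nonneg _ _ _
    have h2 : 0 ≤ (N : ℝ) / 2 * (1 / 4 + 1 / (4 * l)) := by positivity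
    unfold pot at hp
    nlinarith
  rcases U.eq_empty_or_nonempty with rfl | hU
  · exact hover M true (exists_subset_of_pos F A hpos)
  obtain ⟨x, hx, hmax⟩ := exists_max_image U (fun x => ∑ i ∈ F, wt M U (A i) * ind x (A i) -
    l * ∑ p ∈ pairs F A, wt M U (A p.1 ∪ A p.2) * ind x (A p.1 ∪ A p.2)) hU
  refine hm M U x hx ?_
  rcases (U.erase x).eq_empty_or_nonempty with h0 | hU'
  · rw [h0]
    refine hover _ false (exists_subset_of_pos F A ?_)
    rw [← h0]
    refine lt_of_lt_of_le hpos (sum_le_sum fun i _ => ?_)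
    rw [wt_maker hx]
    have := wt_nonneg M U (A i)
    unfold ind
    split_ifs <;> nlinarith
  refine hb _ _ hU' fun y hy => ?_
  have hyx : y ≠ x := ne_of_mem_erase hy
  have hyU : y ∈ U := mem_of_mem_erase hy
  have hyM : y ∉ insert x M := by
    rw [mem_insert, not_or]
    exact ⟨hyx, fun h => disjoint_left.1 hd h hyU⟩
  have hcard : ((U.erase x).erase y).card + 2 = N := by
    rw [← hN, ← card_erase_add_one hx, ← card_erase_add_one hy]
  refine ih _ (by omega) _ _ rfl ?_ ?_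
  · rw [disjoint_left]
    intro z hz hz'
    rw [mem_erase, mem_erase] at hz'
    rcases mem_insert.1 hz with h | h
    · exact hz'.2.1 h
    · exact disjoint_left.1 hd h hz'.2.2
  · have h1 := loss_le F A (M := M) hyx.symm hx hyU hl
    have h2 := hmax y hyU
    have h3 : ∀ S, wt (insert x M) ((U.erase x).erase y) S =
        wt M U S + wt M U S * ind x S - wt M U S * ind y S - wt M U S * (ind x S * ind y S) := by
      intro S
      rw [wt_breaker hyM, wt_maker hx]
      ring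
    have h4 : (((U.erase x).erase y).card : ℝ) = N - 2 := by
      rw [← hcard]
      push_cast
      ring
    unfold pot at hp ⊢
    simp only [h3, sum_sub_distrib, sum_add_distrib, h4]
    nlinarith

/-- Second moment criterion for Maker. -/
theorem win_of_second_moment (Win : Finset X → Finset X → Bool → Prop)
    (hover : ∀ M b, (∃ i ∈ F, A i ⊆ M) → Win M ∅ b)
    (hm : ∀ M U x, x ∈ U → Win (insert x M) (U.erase x) false → Win M U true)
    (hb : ∀ M U, U.Nonempty → (∀ y ∈ U, Win M (U.erase y) true) → Win M U false)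
    (U : Finset X) {T N : ℝ} (hN : (U.card : ℝ) ≤ N) (hN0 : 0 < N) (hNT : N ≤ T)
    (hT : ∑ i ∈ F, wt ∅ U (A i) = T)
    (hB : N * ∑ p ∈ pairs F A, wt ∅ U (A p.1 ∪ A p.2) ≤ T ^ 2) : Win ∅ U true := by
  have hT0 : 0 < T := lt_of_lt_of_le hN0 hNT
  refine win_of_pot F A Win hover hm hb (l := N / (2 * T)) (by positivity) _ _ _ rfl
    (disjoint_empty_left _) ?_
  unfold pot
  rw [hT]
  have h1 : N / (2 * T) * ∑ p ∈ pairs F A, wt ∅ U (A p.1 ∪ A p.2) ≤ T / 2 := by
    rw [div_mul_eq_mul_div, div_le_iff₀ (by positivity)]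
    nlinarith
  have h2 : (U.card : ℝ) / 2 * (1 / 4 + 1 / (4 * (N / (2 * T)))) ≤
      N / 2 * (1 / 4 + 1 / (4 * (N / (2 * T)))) := by gcongr
  have h3 : N / 2 * (1 / 4 + 1 / (4 * (N / (2 * T)))) = N / 8 + T / 4 := by
    field_simp
    ring
  linarith

end Pool.Agent.Lib.MP_802a39_co
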