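import Mathlib
import Pool.Agent.Lib.MP_802a39_co.Criterion

/-! Counting transversal cliques of a complete multipartite graph. -/

namespace Pool.Agent.Lib.MP_802a39_co

open Finset

theorem two_mul_choose_two (a : ℕ) : 2 * a.choose 2 + a = a * a := by
  induction a with
  | zero => simp
  | succ a ih => rw [Nat.choose_succ_succ', Nat.choose_one_right]; nlinarith

theorem term_le {k m a : ℕ} {N y : ℝ} (hm : 0 < m) (hN : 1 ≤ N) (hy : 0 ≤ y)
    (hy8 : y ^ 8 = 2 ^ k) (hA : k * N * (k * y / m) ^ 3 ≤ 1) (hB : 2 * k ^ 2 * m ≤ y ^ 5)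
    (hC : 2 ^ k.choose 2 * N ≤ (m : ℝ) ^ k) (h3 : 3 ≤ a) (hak : a < k) :
    k * N * ((k.choose a : ℝ) * (m ^ (k - a) * 2 ^ a.choose 2)) ≤ (m : ℝ) ^ k := by
  have hm' : (0 : ℝ) < m := by exact_mod_cast hm
  have hk1 : (1 : ℝ) ≤ k := by exact_mod_cast (by omega : 1 ≤ k)
  obtain ⟨r, rfl⟩ : ∃ r, k = a + r := ⟨k - a, by omega⟩
  have hr : 1 ≤ r := by omega
  rw [Nat.add_sub_cancel_left]
  have ha2 := two_mul_choose_two a
  by_cases h4 : 4 * a ≤ a + r
  · have h5 : (2 : ℝ) ^ a.choose 2 ≤ y ^ a := by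
      refine le_of_pow_le_pow_left₀ (n := 8) (by norm_num) (by positivity) ?_
      rw [← pow_mul, ← pow_mul, mul_comm a 8, pow_mul y, hy8, ← pow_mul]
      exact pow_le_pow_right₀ (by norm_num) (by nlinarith)
    have h6 : ((a + r).choose a : ℝ) ≤ ((a + r : ℕ) : ℝ) ^ a := by
      exact_mod_cast Nat.choose_le_pow _ _
    set k : ℝ := ((a + r : ℕ) : ℝ)
    set x : ℝ := k * y / m with hx
    have hx0 : 0 ≤ x := by positivity
    have hx1 : x ≤ 1 := by
      refine le_of_pow_le_pow_left₀ (n := 3) (by norm_num) (by norm_num) ?_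
      have : 1 ≤ k * N := by nlinarith
      have h7 : 0 ≤ x ^ 3 := by positivity
      nlinarith
    have h7 : x ^ a ≤ x ^ 3 := pow_le_pow_of_le_one hx0 hx1 h3
    have h8 : k ^ a * y ^ a = x ^ a * m ^ a := by
      rw [← mul_pow, ← mul_pow, hx, div_mul_cancel₀ _ hm'.ne']
    calc k * N * (((a + r).choose a : ℝ) * (m ^ r * 2 ^ a.choose 2))
        ≤ k * N * (k ^ a * (m ^ r * y ^ a)) := by gcongr
      _ = k * N * x ^ a * (m ^ a * m ^ r) := by linear_combination k * N * (m : ℝ) ^ r * h8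
      _ ≤ k * N * x ^ 3 * (m ^ a * m ^ r) := by gcongr
      _ ≤ 1 * (m ^ a * m ^ r) := by gcongr
      _ = (m : ℝ) ^ (a + r) := by rw [one_mul, pow_add]
  · have hr2 := two_mul_choose_two r
    have hk2 := two_mul_choose_two (a + r)
    have hK : (a + r).choose 2 = a.choose 2 + (a * r + r.choose 2) := by nlinarith
    have h5 : (y ^ 5 / 2) ^ r ≤ 2 ^ (a * r + r.choose 2) := by
      rw [div_pow, div_le_iff₀ (by positivity), ← pow_add]
      refine le_of_pow_le_pow_left₀ (n := 8) (by norm_num) (by positivity) ?_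
      rw [← pow_mul, ← pow_mul, ← pow_mul, show 5 * (r * 8) = 8 * (5 * r) by ring, pow_mul y, hy8,
        ← pow_mul]
      exact pow_le_pow_right₀ (by norm_num) (by nlinarith)
    have h6 : ((a + r).choose a : ℝ) ≤ ((a + r : ℕ) : ℝ) ^ r := by
      rw [Nat.choose_symm_add]
      exact_mod_cast Nat.choose_le_pow _ _
    set k : ℝ := ((a + r : ℕ) : ℝ)
    have h7 : k ≤ k ^ r := le_self_pow₀ hk1 (by omega)
    have h8 : (k ^ 2 * m) ^ r ≤ (y ^ 5 / 2) ^ r := by
      gcongr
      linarith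
    calc k * N * (((a + r).choose a : ℝ) * (m ^ r * 2 ^ a.choose 2))
        ≤ k ^ r * N * (k ^ r * (m ^ r * 2 ^ a.choose 2)) := by gcongr
      _ = (k ^ 2 * m) ^ r * 2 ^ a.choose 2 * N := by rw [mul_pow, sq, mul_pow]; ring
      _ ≤ 2 ^ (a * r + r.choose 2) * 2 ^ a.choose 2 * N := by gcongr; exact h8.trans h5
      _ = 2 ^ (a + r).choose 2 * N := by rw [hK]; ring
      _ ≤ _ := hC

variable {V : Type} [DecidableEq V] {k m : ℕ} (v : Fin k × Fin m → V)

/-- The edge between the chosen vertices of two parts. -/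
def edge (φ : Fin k → Fin m) (p : Fin k × Fin k) : Sym2 V := s(v (p.1, φ p.1), v (p.2, φ p.2))

/-- Increasing pairs inside a set. -/
def incr (S : Finset (Fin k)) : Finset (Fin k × Fin k) := (S ×ˢ S).filter fun p => p.1 < p.2

/-- The edges of a transversal clique. -/
def clique (φ : Fin k → Fin m) : Finset (Sym2 V) := (incr univ).image (edge v φ)

/-- The parts where two transversals agree. -/
def agree (φ ψ : Fin k → Fin m) : Finset (Fin k) := univ.filter fun i => φ i = ψ i

omit [DecidableEq V] in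
theorem edge_eq (hv : Function.Injective v) {φ ψ : Fin k → Fin m} {p q : Fin k × Fin k}
    (hp : p.1 < p.2) (hq : q.1 < q.2) (h : edge v φ p = edge v ψ q) :
    p = q ∧ φ p.1 = ψ p.1 ∧ φ p.2 = ψ p.2 := by
  obtain ⟨i, j⟩ := p
  obtain ⟨i', j'⟩ := q
  unfold edge at h
  rcases Sym2.eq_iff.1 h with ⟨h1, h2⟩ | ⟨h1, h2⟩
  · obtain ⟨rfl, h3⟩ := Prod.mk.inj (hv h1)
    obtain ⟨rfl, h4⟩ := Prod.mk.inj (hv h2)
    exact ⟨rfl, h3, h4⟩
  · obtain ⟨rfl, h3⟩ := Prod.mk.inj (hv h1)
    obtain ⟨rfl, h4⟩ := Prod.mk.inj (hv h2)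
    exact absurd hp (not_lt.2 hq.le)

theorem card_image_incr (hv : Function.Injective v) (φ : Fin k → Fin m) (S : Finset (Fin k)) :
    ((incr S).image (edge v φ)).card = S.card.choose 2 := by
  rw [card_image_of_injOn, incr, card_product_filter_lt]
  intro p hp q hq h
  exact (edge_eq v hv (mem_filter.1 hp).2 (mem_filter.1 hq).2 h).1

theorem card_clique (hv : Function.Injective v) (φ : Fin k → Fin m) :
    (clique v φ).card = k.choose 2 := by
  rw [clique, card_image_incr v hv, card_univ, Fintype.card_fin]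

theorem card_inter (hv : Function.Injective v) (φ ψ : Fin k → Fin m) :
    (clique v φ ∩ clique v ψ).card = (agree φ ψ).card.choose 2 := by
  rw [← card_image_incr v hv φ]
  congr 1
  ext e
  simp only [clique, incr, agree, mem_inter, mem_image, mem_filter, mem_product, mem_univ,
    true_and]
  constructor
  · rintro ⟨⟨p, hp, rfl⟩, q, hq, h⟩
    obtain ⟨_, h1, h2⟩ := edge_eq v hv hp hq h.symm
    exact ⟨p, ⟨⟨h1, h2⟩, hp⟩, rfl⟩
  · rintro ⟨p, ⟨⟨h1, h2⟩, hp⟩, rfl⟩
    exact ⟨⟨p, hp, rfl⟩, p, hp, by unfold edge; rw [h1, h2]⟩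

theorem card_agree_eq (φ : Fin k → Fin m) (S : Finset (Fin k)) :
    (univ.filter fun ψ => agree φ ψ = S).card ≤ m ^ (k - S.card) := by
  have h : (univ.filter fun ψ => agree φ ψ = S) ⊆
      Fintype.piFinset fun i => if i ∈ S then {φ i} else univ := by
    intro ψ hψ
    rw [Fintype.mem_piFinset]
    intro i
    split_ifs with hi
    · rw [← (mem_filter.1 hψ).2] at hi
      simp [(mem_filter.1 hi).2]
    · exact mem_univ _
  refine (card_le_card h).trans (le_of_eq ?_)
  rw [Fintype.card_piFinset]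
  simp only [apply_ite card, card_singleton, card_univ, Fintype.card_fin]
  rw [prod_ite, prod_const_one, one_mul, prod_const, filter_notMem_eq_sdiff, card_univ_sdiff,
    Fintype.card_fin]

theorem wt_empty {X : Type} [DecidableEq X] {U S : Finset X} (h : S ⊆ U) :
    wt ∅ U S = (1 / 2) ^ S.card := by
  unfold wt
  rw [empty_union, if_pos h, inter_eq_left.2 h]

/-- The contribution of an agreement set of size `a`. -/
noncomputable def contrib (k a : ℕ) : ℝ := if 3 ≤ a ∧ a < k then 2 ^ a.choose 2 else 0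

theorem contrib_nonneg (k a : ℕ) : 0 ≤ contrib k a := by
  unfold contrib
  split_ifs <;> positivity

theorem sum_contrib (φ : Fin k → Fin m) :
    ∑ ψ, contrib k (agree φ ψ).card ≤
      ∑ a ∈ range (k + 1), (k.choose a : ℝ) * (m ^ (k - a) * contrib k a) := by
  rw [← sum_fiberwise_of_maps_to (s := univ) (t := (univ : Finset (Fin k)).powerset)
    (g := agree φ) (fun _ _ => mem_powerset.2 (subset_univ _))]
  have h := sum_powerset_apply_card (fun a => (m : ℝ) ^ (k - a) * contrib k a)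
    (x := (univ : Finset (Fin k)))
  simp only [card_univ, Fintype.card_fin, nsmul_eq_mul] at h
  rw [← h]
  refine sum_le_sum fun S _ => ?_
  rw [sum_congr rfl (g := fun _ => contrib k S.card) fun ψ hψ => by rw [(mem_filter.1 hψ).2],
    sum_const, nsmul_eq_mul]
  have := contrib_nonneg k S.card
  gcongr
  exact_mod_cast card_agree_eq φ S

theorem sum_pairs_le (hv : Function.Injective v) {U : Finset (Sym2 V)}
    (hU : ∀ φ, clique v φ ⊆ U) :
    ∑ p ∈ pairs univ (clique v), wt ∅ U (clique v p.1 ∪ clique v p.2) ≤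
      ((1 / 2) ^ k.choose 2) ^ 2 * (m ^ k *
        ∑ a ∈ range (k + 1), (k.choose a : ℝ) * (m ^ (k - a) * contrib k a)) := by
  have h1 : ∀ p ∈ pairs univ (clique v), wt ∅ U (clique v p.1 ∪ clique v p.2) =
      ((1 / 2) ^ k.choose 2) ^ 2 * contrib k (agree p.1 p.2).card := by
    intro p hp
    obtain ⟨-, hne, h2⟩ := mem_filter.1 hp
    have h3 := card_union_add_card_inter (clique v p.1) (clique v p.2)
    rw [card_inter v hv] at h2 h3
    rw [card_clique v hv, card_clique v hv] at h3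
    have h4 : 3 ≤ (agree p.1 p.2).card := by
      by_contra h
      have h5 : (agree p.1 p.2).card.choose 2 ≤ Nat.choose 2 2 :=
        Nat.choose_le_choose 2 (by omega)
      simp at h5
      omega
    have h5 : (agree p.1 p.2).card < k := by
      have h6 : agree p.1 p.2 ≠ univ := by
        intro h
        refine hne (funext fun i => ?_)
        have : i ∈ agree p.1 p.2 := h ▸ mem_univ i
        exact (mem_filter.1 this).2
      simpa using card_lt_card (ssubset_univ_iff.2 h6)
    rw [wt_empty (union_subset (hU _) (hU _)), contrib, if_pos ⟨h4, h5⟩, sq, ← pow_add, ← h3,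
      pow_add, mul_assoc, ← mul_pow]
    norm_num
  rw [sum_congr rfl h1, ← mul_sum]
  gcongr
  calc ∑ p ∈ pairs univ (clique v), contrib k (agree p.1 p.2).card
      ≤ ∑ p ∈ univ ×ˢ univ, contrib k (agree p.1 p.2).card :=
        sum_le_sum_of_subset_of_nonneg (filter_subset _ _) fun _ _ _ => contrib_nonneg _ _
    _ = ∑ φ, ∑ ψ, contrib k (agree φ ψ).card := sum_product' _ _ fun φ ψ => contrib k (agree φ ψ).card
    _ ≤ ∑ _φ : Fin k → Fin m,
          ∑ a ∈ range (k + 1), (k.choose a : ℝ) * (m ^ (k - a) * contrib k a) :=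
        sum_le_sum fun φ _ => sum_contrib φ
    _ = _ := by simp

theorem win_multipartite (hv : Function.Injective v) {U : Finset (Sym2 V)}
    (hU : ∀ φ, clique v φ ⊆ U) (Win : Finset (Sym2 V) → Finset (Sym2 V) → Bool → Prop)
    (hover : ∀ M b, (∃ φ, clique v φ ⊆ M) → Win M ∅ b)
    (hm : ∀ M U x, x ∈ U → Win (insert x M) (U.erase x) false → Win M U true)
    (hb : ∀ M U, U.Nonempty → (∀ y ∈ U, Win M (U.erase y) true) → Win M U false)
    {N y : ℝ} (hUN : (U.card : ℝ) ≤ N) (hk : 0 < k) (hm0 : 0 < m) (hN : 1 ≤ N) (hy : 0 ≤ y)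
    (hy8 : y ^ 8 = 2 ^ k) (hA : k * N * (k * y / m) ^ 3 ≤ 1) (hB : 2 * k ^ 2 * m ≤ y ^ 5)
    (hC : 2 ^ k.choose 2 * N ≤ (m : ℝ) ^ k) : Win ∅ U true := by
  have hk' : (0 : ℝ) < k := by exact_mod_cast hk
  refine win_of_second_moment univ (clique v) Win
    (fun M b ⟨φ, _, h⟩ => hover M b ⟨φ, h⟩) hm hb U (T := m ^ k * (1 / 2) ^ k.choose 2) hUN
    (by linarith) ?_ ?_ ?_
  · rw [one_div, inv_pow, ← div_eq_mul_inv, le_div_iff₀ (by positivity)]
    linarith
  · simp [wt_empty (hU _), card_clique v hv]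
  · have h1 : N * ∑ a ∈ range (k + 1), (k.choose a : ℝ) * (m ^ (k - a) * contrib k a) ≤ m ^ k := by
      rw [sum_range_succ, contrib, if_neg (by omega), mul_zero, mul_zero, add_zero]
      refine le_of_mul_le_mul_left ?_ hk'
      rw [← mul_assoc, mul_sum]
      calc _ ≤ ∑ _a ∈ range k, (m : ℝ) ^ k := by
            refine sum_le_sum fun a _ => ?_
            unfold contrib
            split_ifs with h
            · exact term_le hm0 hN hy hy8 hA hB hC h.1 h.2
            · simp
        _ = _ := by simp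
    calc _ ≤ N * (((1 / 2) ^ k.choose 2) ^ 2 * (m ^ k *
          ∑ a ∈ range (k + 1), (k.choose a : ℝ) * (m ^ (k - a) * contrib k a))) := by
          gcongr
          exact sum_pairs_le v hv hU
      _ = ((1 / 2) ^ k.choose 2) ^ 2 * (m ^ k *
          (N * ∑ a ∈ range (k + 1), (k.choose a : ℝ) * (m ^ (k - a) * contrib k a))) := by ring
      _ ≤ ((1 / 2) ^ k.choose 2) ^ 2 * (m ^ k * m ^ k) := by gcongr
      _ = _ := by ring

end Pool.Agent.Lib.MP_802a39_co
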