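import Pool.Agent.Lib.MP_802a39_co.Good

/-! Powers of two, edge sets, stars and weights. -/

set_option autoImplicit false

namespace Pool.Agent.Lib.MP_802a39_co

open Finset

/-- Two to a real power. -/
noncomputable def ex (x : ℝ) : ℝ := (2 : ℝ) ^ x

theorem ex_pos (x : ℝ) : 0 < ex x := Real.rpow_pos_of_pos two_pos x

theorem ex_nonneg (x : ℝ) : 0 ≤ ex x := (ex_pos x).le

theorem ex_add (x y : ℝ) : ex (x + y) = ex x * ex y := Real.rpow_add two_pos x y

theorem ex_mul (x y : ℝ) : ex x * ex y = ex (x + y) := (ex_add x y).symm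

theorem ex_le {x y : ℝ} (h : x ≤ y) : ex x ≤ ex y :=
  Real.rpow_le_rpow_of_exponent_le one_le_two h

theorem ex_lt {x y : ℝ} (h : x < y) : ex x < ex y :=
  Real.rpow_lt_rpow_of_exponent_lt one_lt_two h

theorem ex_zero : ex 0 = 1 := Real.rpow_zero 2

theorem ex_one : ex 1 = 2 := Real.rpow_one 2

theorem ex_nat (m : ℕ) : ex m = 2 ^ m := Real.rpow_natCast 2 m

theorem ex_pow (x : ℝ) (m : ℕ) : ex x ^ m = ex (m * x) := by
  unfold ex
  rw [← Real.rpow_natCast, ← Real.rpow_mul zero_le_two, mul_comm]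

theorem ex_neg (x : ℝ) : ex (-x) = (ex x)⁻¹ := Real.rpow_neg zero_le_two x

theorem half_pow (m : ℕ) : (1 / 2 : ℝ) ^ m = ex (-m) := by
  rw [ex_neg, ex_nat, one_div, inv_pow]

theorem one_le_ex {x : ℝ} (h : 0 ≤ x) : 1 ≤ ex x := ex_zero ▸ ex_le h

theorem ex_le_one {x : ℝ} (h : x ≤ 0) : ex x ≤ 1 := ex_zero ▸ ex_le h

theorem nonpos_of_ex_le_one {x : ℝ} (h : ex x ≤ 1) : x ≤ 0 := by
  by_contra h1
  have := ex_lt (not_le.1 h1)
  rw [ex_zero] at this
  linarith

theorem two_mul_ex (x : ℝ) : 2 * ex x = ex (x + 1) := by rw [ex_add, ex_one, mul_comm]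

theorem ex_add_le {x y z : ℝ} (hx : x + 1 ≤ z) (hy : y + 1 ≤ z) : ex x + ex y ≤ ex z := by
  have h1 := ex_le hx
  have h2 := ex_le hy
  rw [← two_mul_ex] at h1 h2
  linarith

theorem exp_le_ex {x : ℝ} (h : 0 ≤ x) : Real.exp x ≤ ex (2 * x) := by
  unfold ex
  rw [Real.rpow_def_of_pos two_pos]
  refine Real.exp_le_exp.2 ?_
  have := Real.log_two_gt_d9
  nlinarith

theorem ex_le_exp {x : ℝ} (h : 0 ≤ x) : ex x ≤ Real.exp x := by
  unfold ex
  rw [Real.rpow_def_of_pos two_pos]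
  refine Real.exp_le_exp.2 ?_
  have := Real.log_two_lt_d9
  nlinarith

theorem mul_le_ex {a b x y : ℝ} (ha : a ≤ ex x) (hb : b ≤ ex y) (hb0 : 0 ≤ b) :
    a * b ≤ ex (x + y) := by
  rw [ex_add]
  exact mul_le_mul ha hb hb0 (ex_nonneg _)

theorem pow_le_ex {a x : ℝ} (ha0 : 0 ≤ a) (ha : a ≤ ex x) (m : ℕ) : a ^ m ≤ ex (m * x) := by
  rw [← ex_pow]
  exact pow_le_pow_left₀ ha0 ha m

section Ed

variable {V : Type} [DecidableEq V]

/-- The edges inside a vertex set. -/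
def ed (S : Finset V) : Finset (Sym2 V) := S.offDiag.image Sym2.mk.uncurry

theorem mk_mem_ed {S : Finset V} {u v : V} : s(u, v) ∈ ed S ↔ u ∈ S ∧ v ∈ S ∧ u ≠ v := by
  unfold ed
  simp only [mem_image, mem_offDiag, Prod.exists, Function.uncurry_apply_pair, Sym2.eq_iff]
  constructor
  · rintro ⟨a, b, ⟨ha, hb, hab⟩, (⟨rfl, rfl⟩ | ⟨rfl, rfl⟩)⟩
    · exact ⟨ha, hb, hab⟩
    · exact ⟨hb, ha, hab.symm⟩
  · rintro ⟨hu, hv, huv⟩
    exact ⟨u, v, ⟨hu, hv, huv⟩, Or.inl ⟨rfl, rfl⟩⟩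

theorem card_ed (S : Finset V) : ((ed S).card : ℝ) = S.card * (S.card - 1) / 2 := by
  unfold ed
  rw [Sym2.card_image_offDiag, Nat.cast_choose_two]

theorem ed_mono {S S' : Finset V} (h : S ⊆ S') : ed S ⊆ ed S' := by
  intro e he
  induction e using Sym2.ind with
  | h u v =>
    rw [mk_mem_ed] at he ⊢
    exact ⟨h he.1, h he.2.1, he.2.2⟩

theorem ed_inter (S S' : Finset V) : ed (S ∩ S') = ed S ∩ ed S' := by
  ext e
  induction e using Sym2.ind with
  | h u v =>
    simp only [mk_mem_ed, mem_inter]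
    tauto

theorem not_isDiag_of_mem_ed {S : Finset V} {e : Sym2 V} (h : e ∈ ed S) : ¬ e.IsDiag := by
  induction e using Sym2.ind with
  | h u v =>
    rw [mk_mem_ed] at h
    simpa using h.2.2

theorem two_le_card_of_not_disjoint {S S' : Finset V} (h : ¬ Disjoint (ed S) (ed S')) :
    ∃ u v, u ≠ v ∧ u ∈ S ∧ v ∈ S ∧ u ∈ S' ∧ v ∈ S' := by
  obtain ⟨e, h1, h2⟩ := not_disjoint_iff.1 h
  induction e using Sym2.ind with
  | h u v =>
    rw [mk_mem_ed] at h1 h2
    exact ⟨u, v, h1.2.2, h1.1, h1.2.1, h2.1, h2.2.1⟩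

/-- The edges from `x` to the vertices of `R`. -/
def star (x : V) (R : Finset V) : Finset (Sym2 V) := R.image fun v => s(x, v)

theorem card_star (x : V) (R : Finset V) : (star x R).card = R.card := by
  refine card_image_of_injective _ fun a b h => ?_
  exact Sym2.congr_right.1 h

theorem mem_star {x : V} {R : Finset V} {e : Sym2 V} : e ∈ star x R ↔ ∃ v ∈ R, s(x, v) = e := by
  simp [star]

theorem star_disjoint {x x' : V} {R R' : Finset V} (h : x ≠ x') (hx : x ∉ R') :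
    Disjoint (star x R) (star x' R') := by
  rw [disjoint_left]
  intro e h1 h2
  obtain ⟨v, _, rfl⟩ := mem_star.1 h1
  obtain ⟨v', hv', h3⟩ := mem_star.1 h2
  rcases Sym2.eq_iff.1 h3 with ⟨h4, _⟩ | ⟨_, h4⟩
  · exact h h4.symm
  · exact hx (h4 ▸ hv')

theorem star_disjoint_ed {x : V} {R A : Finset V} (hx : x ∉ A) : Disjoint (ed A) (star x R) := by
  rw [disjoint_right]
  intro e h1 h2
  obtain ⟨v, _, rfl⟩ := mem_star.1 h1
  exact hx (mk_mem_ed.1 h2).1

theorem W_ed_union (y : Sym2 V → ℝ) {R Y : Finset V} (h : Disjoint R Y) :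
    W y (ed (R ∪ Y) \ ed R) = (∏ x ∈ Y, W y (star x R)) * W y (ed Y) := by
  have h1 : ed (R ∪ Y) \ ed R = Y.biUnion (fun x => star x R) ∪ ed Y := by
    ext e
    induction e using Sym2.ind with
    | h u v =>
      simp only [mem_sdiff, mk_mem_ed, mem_union, mem_biUnion, mem_star, Sym2.eq_iff]
      have hu : u ∈ R → u ∉ Y := fun h1 => disjoint_left.1 h h1
      have hv : v ∈ R → v ∉ Y := fun h1 => disjoint_left.1 h h1
      constructor
      · rintro ⟨⟨h1 | h1, h2 | h2, h3⟩, h4⟩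
        · exact absurd ⟨h1, h2, h3⟩ h4
        · exact Or.inl ⟨v, h2, u, h1, Or.inr ⟨rfl, rfl⟩⟩
        · exact Or.inl ⟨u, h1, v, h2, Or.inl ⟨rfl, rfl⟩⟩
        · exact Or.inr ⟨h1, h2, h3⟩
      · rintro (⟨a, ha, c, hc, ⟨rfl, rfl⟩ | ⟨rfl, rfl⟩⟩ | ⟨h1, h2, h3⟩)
        · exact ⟨⟨Or.inr ha, Or.inl hc, fun h => hv hc (h ▸ ha)⟩, fun h => hu h.1 ha⟩
        · exact ⟨⟨Or.inl hc, Or.inr ha, fun h => hu hc (h ▸ ha)⟩, fun h => hv h.2.1 ha⟩
        · exact ⟨⟨Or.inr h1, Or.inr h2, h3⟩, fun h => hu h.1 h1⟩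
  have h2 : Disjoint (Y.biUnion fun x => star x R) (ed Y) := by
    rw [disjoint_left]
    intro e he h3
    obtain ⟨x, _, hx⟩ := mem_biUnion.1 he
    obtain ⟨v, hv, rfl⟩ := mem_star.1 hx
    exact disjoint_left.1 h hv (mk_mem_ed.1 h3).2.1
  rw [h1, W_union h2]
  congr 1
  unfold W
  refine prod_biUnion fun x hx x' _ hne => ?_
  exact star_disjoint hne fun h3 => disjoint_left.1 h h3 (mem_coe.1 hx)

theorem W_sdiff_split (y : Sym2 V → ℝ) {X Y Z : Finset (Sym2 V)} (h1 : X ⊆ Y) (h2 : Y ⊆ Z) :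
    W y (Z \ X) = W y (Y \ X) * W y (Z \ Y) := by
  rw [← W_union]
  · congr 1
    ext e
    simp only [mem_sdiff, mem_union]
    have := @h1 e
    have := @h2 e
    tauto
  · exact disjoint_left.2 fun e h3 h4 => (mem_sdiff.1 h4).2 (mem_sdiff.1 h3).1

/-- The edges underlying a set of arcs. -/
def und (D : Finset (V × V)) : Finset (Sym2 V) := D.image fun a => s(a.1, a.2)

theorem mk_mem_und {D : Finset (V × V)} {u v : V} : s(u, v) ∈ und D ↔ (u, v) ∈ D ∨ (v, u) ∈ D := by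
  unfold und
  simp only [mem_image, Prod.exists, Sym2.eq_iff]
  constructor
  · rintro ⟨a, b, h, (⟨rfl, rfl⟩ | ⟨rfl, rfl⟩)⟩
    · exact Or.inl h
    · exact Or.inr h
  · rintro (h | h)
    · exact ⟨u, v, h, Or.inl ⟨rfl, rfl⟩⟩
    · exact ⟨v, u, h, Or.inr ⟨rfl, rfl⟩⟩

theorem und_insert (D : Finset (V × V)) (u v : V) :
    und (insert (u, v) D) = insert s(u, v) (und D) := image_insert _ _ _

theorem und_mono {D D' : Finset (V × V)} (h : D ⊆ D') : und D ⊆ und D' := image_subset_image h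

/-- Weights: one on Maker's edges, zero on Breaker's edges, one half elsewhere. -/
noncomputable def yOf (D : Finset (V × V)) (Q : Finset (Sym2 V)) (e : Sym2 V) : ℝ :=
  if e ∈ und D then 1 else if e ∈ Q then 0 else 1 / 2

theorem yOf_nonneg (D : Finset (V × V)) (Q : Finset (Sym2 V)) (e : Sym2 V) : 0 ≤ yOf D Q e := by
  unfold yOf
  split_ifs <;> norm_num

theorem yOf_le_one (D : Finset (V × V)) (Q : Finset (Sym2 V)) (e : Sym2 V) : yOf D Q e ≤ 1 := by
  unfold yOf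
  split_ifs <;> norm_num

theorem yOf_empty : yOf (∅ : Finset (V × V)) ∅ = fun _ => 1 / 2 := by
  funext e
  simp [yOf, und]

theorem yOf_insert_arc (D : Finset (V × V)) (Q : Finset (Sym2 V)) (u v : V) :
    yOf (insert (u, v) D) Q = Function.update (yOf D Q) s(u, v) 1 := by
  funext e
  by_cases h : e = s(u, v)
  · subst h
    simp [yOf, und_insert]
  · simp [yOf, und_insert, h]

theorem yOf_insert_edge (D : Finset (V × V)) (Q : Finset (Sym2 V)) {e : Sym2 V} (he : e ∉ und D) :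
    yOf D (insert e Q) = Function.update (yOf D Q) e 0 := by
  funext e'
  by_cases h : e' = e
  · subst h
    simp [yOf, he]
  · simp [yOf, h]

theorem W_yOf_le (D : Finset (V × V)) (Q X : Finset (Sym2 V)) :
    W (yOf D Q) X ≤ ex (-((X \ und D).card : ℝ)) := by
  refine (W_anti (yOf_nonneg D Q) (yOf_le_one D Q) (sdiff_subset (t := und D))).trans ?_
  rw [← half_pow, ← W_half]
  refine prod_le_prod (fun e _ => yOf_nonneg D Q e) fun e he => ?_
  unfold yOf
  rw [if_neg (mem_sdiff.1 he).2]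
  split_ifs <;> norm_num

theorem W_yOf_eq (D : Finset (V × V)) {Q X : Finset (Sym2 V)} (h : Disjoint X Q) :
    W (yOf D Q) X = ex (-((X \ und D).card : ℝ)) := by
  rw [← half_pow, ← W_half]
  unfold W
  rw [← prod_sdiff (inter_subset_left (s₂ := und D)), sdiff_inter_self_left]
  rw [prod_eq_one (s := X ∩ und D) fun e he => by simp [yOf, (mem_inter.1 he).2], mul_one]
  refine prod_congr rfl fun e he => ?_
  unfold yOf
  rw [if_neg (mem_sdiff.1 he).2, if_neg (disjoint_left.1 h (mem_sdiff.1 he).1)]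

/-- Codes for the possible weights. -/
noncomputable def cval (a : ℕ) : ℝ := if a = 0 then 0 else (1 / 2) ^ (a - 1)

theorem cval_nonneg (a : ℕ) : 0 ≤ cval a := by
  unfold cval
  split_ifs
  · exact le_rfl
  · positivity

theorem exists_cval (D : Finset (V × V)) (Q X : Finset (Sym2 V)) :
    ∃ a, a ≤ X.card + 1 ∧ cval a = W (yOf D Q) X := by
  by_cases h : Disjoint (X \ und D) Q
  · refine ⟨(X \ und D).card + 1, by simpa using card_le_card sdiff_subset, ?_⟩
    have h1 : W (yOf D Q) X = W (yOf D Q) (X \ und D) := by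
      unfold W
      rw [← prod_sdiff (inter_subset_left (s₂ := und D)), sdiff_inter_self_left]
      rw [prod_eq_one (s := X ∩ und D) fun e he => by simp [yOf, (mem_inter.1 he).2], mul_one]
    rw [h1, W_yOf_eq D h, Finset.sdiff_idem, ← half_pow]
    simp [cval]
  · obtain ⟨e, h1, h2⟩ := not_disjoint_iff.1 h
    refine ⟨0, Nat.zero_le _, ?_⟩
    rw [W_eq_mem _ (mem_sdiff.1 h1).1]
    simp [cval, yOf, (mem_sdiff.1 h1).2, h2]

end Ed

section Emb

variable {k n : ℕ}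

/-- The vertex set of an embedding. -/
def im (φ : Fin k → Fin n) : Finset (Fin n) := univ.image φ

theorem mem_im {φ : Fin k → Fin n} {v : Fin n} : v ∈ im φ ↔ ∃ i, φ i = v := by simp [im]

theorem self_mem_im (φ : Fin k → Fin n) (i : Fin k) : φ i ∈ im φ := mem_im.2 ⟨i, rfl⟩

theorem card_im {φ : Fin k → Fin n} (h : Function.Injective φ) : (im φ).card = k := by
  rw [im, card_image_of_injective _ h, card_fin]

theorem card_im_le (φ : Fin k → Fin n) : (im φ).card ≤ k := by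
  simpa [im] using card_image_le (s := univ) (f := φ)

theorem image_subset_im (φ : Fin k → Fin n) (J : Finset (Fin k)) : J.image φ ⊆ im φ :=
  image_subset_image (subset_univ _)

/-- The edge set of an embedding. -/
def eE (φ : Fin k → Fin n) : Finset (Sym2 (Fin n)) := ed (im φ)

theorem card_eE {φ : Fin k → Fin n} (h : Function.Injective φ) :
    ((eE φ).card : ℝ) = k * (k - 1) / 2 := by
  rw [eE, card_ed, card_im h]

theorem mem_eE {φ : Fin k → Fin n} {e : Sym2 (Fin n)} (h : e ∈ eE φ) :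
    ∃ i j, i ≠ j ∧ e = s(φ i, φ j) := by
  induction e using Sym2.ind with
  | h u v =>
    obtain ⟨h1, h2, h3⟩ := mk_mem_ed.1 h
    obtain ⟨i, rfl⟩ := mem_im.1 h1
    obtain ⟨j, rfl⟩ := mem_im.1 h2
    exact ⟨i, j, fun h => h3 (h ▸ rfl), rfl⟩

theorem mk_mem_eE {φ : Fin k → Fin n} (h : Function.Injective φ) {i j : Fin k} (hij : i ≠ j) :
    s(φ i, φ j) ∈ eE φ :=
  mk_mem_ed.2 ⟨self_mem_im _ _, self_mem_im _ _, fun h1 => hij (h h1)⟩

/-- No arc of `D` goes against the embedding. -/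
def compat (T : Fin k → Fin k → Prop) (D : Finset (Fin n × Fin n)) (φ : Fin k → Fin n) : Prop :=
  ∀ i j, T i j → (φ j, φ i) ∉ D

end Emb

theorem sum_le_cover {α β : Type} [DecidableEq α] (s : Finset α) (T : Finset β)
    (G : β → Finset α) (f : α → ℝ) (g : β → α → ℝ) (hg : ∀ t a, 0 ≤ g t a)
    (h : ∀ a ∈ s, ∃ t ∈ T, a ∈ G t ∧ f a ≤ g t a) :
    ∑ a ∈ s, f a ≤ ∑ t ∈ T, ∑ a ∈ G t, g t a := by
  classical
  calc ∑ a ∈ s, f a ≤ ∑ a ∈ s, ∑ t ∈ T, if a ∈ G t then g t a else 0 := by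
        refine sum_le_sum fun a ha => ?_
        obtain ⟨t, ht, h1, h2⟩ := h a ha
        refine le_trans ?_ (single_le_sum (f := fun t => if a ∈ G t then g t a else 0)
          (fun t _ => by split_ifs; exacts [hg _ _, le_rfl]) ht)
        simpa [h1] using h2
    _ = ∑ t ∈ T, ∑ a ∈ s, if a ∈ G t then g t a else 0 := sum_comm
    _ ≤ _ := by
        refine sum_le_sum fun t _ => ?_
        rw [← sum_filter]
        exact sum_le_sum_of_subset_of_nonneg (fun a ha => (mem_filter.1 ha).2) fun a _ _ => hg t a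

end Pool.Agent.Lib.MP_802a39_co
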