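import Pool.Agent.Lib.MP_802a39_co.Edges
import Pool.Agent.Lib.MP_802a39_co.Defs

/-! Breaker's strategy: a potential on the big board and a pairing on the small board. -/

set_option autoImplicit false

namespace Pool.Agent.Lib.MP_802a39_co

open Finset

variable {k n : ℕ}

/-- A processed embedding with its two reserved edges and its time stamp. -/
abbrev Rec (k n : ℕ) := (Fin k → Fin n) × Sym2 (Fin n) × Sym2 (Fin n) × ℕ

/-- What is known about the processed embeddings. -/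
structure Proc (T : Fin k → Fin k → Prop) (a : ℕ) (D : Finset (Fin n × Fin n))
    (Q : Finset (Sym2 (Fin n))) (R : Finset (Rec k n)) : Prop where
  inj : ∀ r ∈ R, Function.Injective r.1
  comp : ∀ r ∈ R, compat T D r.1
  noQ : ∀ r ∈ R, Disjoint (eE r.1) Q
  miss : ∀ r ∈ R, (eE r.1 \ und D).card ≤ a
  mem1 : ∀ r ∈ R, r.2.1 ∈ eE r.1
  mem2 : ∀ r ∈ R, r.2.2.1 ∈ eE r.1
  tinj : ∀ r ∈ R, ∀ r' ∈ R, r ≠ r' → r.2.2.2 ≠ r'.2.2.2
  skew : ∀ r ∈ R, ∀ r' ∈ R, r.2.2.2 < r'.2.2.2 → ¬ (r.2.1 ∈ eE r'.1 ∧ r.2.2.1 ∈ eE r'.1)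

/-- The number of processed embeddings that meet an edge set. -/
def nb (R : Finset (Rec k n)) (X : Finset (Sym2 (Fin n))) : ℕ :=
  (R.filter fun r => ¬ Disjoint X (eE r.1)).card

/-- What the strategy needs from the potential. -/
structure Pot (T : Fin k → Fin k → Prop) (q : ℕ)
    (H : Finset (Fin n × Fin n) → (Sym2 (Fin n) → ℝ) → ℝ) : Prop where
  good : ∀ D, Good (H D)
  init : H ∅ (fun _ => 1 / 2) ≤ 1 / 2
  step : ∀ D Q u v, u ≠ v → s(u, v) ∉ und D → H D (yOf (insert (u, v) D) Q) ≤ 1 →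
    H (insert (u, v) D) (yOf (insert (u, v) D) Q) ≤ 1
  viol : ∀ D Q R, H D (yOf D Q) ≤ 1 → Proc T ((2 * q + 2) * (q + 1)) D Q R →
    ∀ φ : Fin k → Fin n, Function.Injective φ → Disjoint (eE φ) Q →
      (eE φ \ und D).card ≤ (2 * q + 2) * (nb R (eE φ) + 1) → nb R (eE φ) ≤ q

/-- Invariants that hold after every single move. -/
structure Base (T : Fin k → Fin k → Prop) (q : ℕ)
    (H : Finset (Fin n × Fin n) → (Sym2 (Fin n) → ℝ) → ℝ) (M : Finset (Fin n × Fin n))
    (Fr : Finset (Sym2 (Fin n))) (D : Finset (Fin n × Fin n)) (Q U : Finset (Sym2 (Fin n)))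
    (R : Finset (Rec k n)) : Prop where
  sub : D ⊆ M
  anti : ∀ u v, (u, v) ∈ M → s(u, v) ∉ Fr ∧ (v, u) ∉ M
  nd : ∀ e ∈ Fr, ¬ e.IsDiag
  hQ : ∀ e ∈ Q, e ∉ Fr ∧ e ∉ und M
  hU : U ⊆ Fr
  cov : ∀ S : Finset (Fin n), (ed S \ (und D ∪ Q ∪ U)).card ≤ (2 * q + 2) * nb R (ed S)
  proc : Proc T ((2 * q + 2) * (q + 1)) D Q R
  pU : ∀ r ∈ R, Disjoint (eE r.1) U
  tau : ∀ r ∈ R, r.2.2.2 < R.card
  ne : ∀ r ∈ R, r.2.1 ≠ r.2.2.1
  disj : ∀ r ∈ R, ∀ r' ∈ R, r ≠ r' →
    Disjoint ({r.2.1, r.2.2.1} : Finset (Sym2 (Fin n))) {r'.2.1, r'.2.2.1}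
  pot : H D (yOf D Q) ≤ 1

/-- The pair is intact or Breaker owns one of its edges. -/
def PairOK (M : Finset (Fin n × Fin n)) (Fr : Finset (Sym2 (Fin n))) (r : Rec k n) : Prop :=
  (r.2.1 ∈ Fr ∧ r.2.2.1 ∈ Fr) ∨ (r.2.1 ∉ Fr ∧ r.2.1 ∉ und M) ∨ (r.2.2.1 ∉ Fr ∧ r.2.2.1 ∉ und M)

/-- Maker can still complete the embedding. -/
def live (T : Fin k → Fin k → Prop) (M : Finset (Fin n × Fin n)) (Fr : Finset (Sym2 (Fin n)))
    (φ : Fin k → Fin n) : Prop :=
  Function.Injective φ ∧ ∀ i j, T i j → s(φ i, φ j) ∈ Fr ∨ (φ i, φ j) ∈ M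

/-- The embedding is live and contains no reserved pair. -/
def unb (T : Fin k → Fin k → Prop) (M : Finset (Fin n × Fin n)) (Fr : Finset (Sym2 (Fin n)))
    (R : Finset (Rec k n)) (φ : Fin k → Fin n) : Prop :=
  live T M Fr φ ∧ ∀ r ∈ R, ¬ (r.2.1 ∈ eE φ ∧ r.2.2.1 ∈ eE φ)

variable {T : Fin k → Fin k → Prop} {q : ℕ}
  {H : Finset (Fin n × Fin n) → (Sym2 (Fin n) → ℝ) → ℝ} {M D : Finset (Fin n × Fin n)}
  {Fr Q U : Finset (Sym2 (Fin n))} {R : Finset (Rec k n)}

theorem live.edge (hT : IsTournament T) {φ : Fin k → Fin n} (h : live T M Fr φ)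
    {e : Sym2 (Fin n)} (he : e ∈ eE φ) : e ∈ Fr ∨ e ∈ und M := by
  obtain ⟨i, j, hij, rfl⟩ := mem_eE he
  by_cases h1 : T i j
  · exact (h.2 i j h1).imp id fun h2 => mk_mem_und.2 (Or.inl h2)
  · have h2 : T j i := (hT.2 j i hij.symm).2 h1
    rw [Sym2.eq_swap]
    exact (h.2 j i h2).imp id fun h3 => mk_mem_und.2 (Or.inl h3)

theorem Base.free (h : Base T q H M Fr D Q U R) {e : Sym2 (Fin n)} (he : e ∈ Fr) : e ∉ und M := by
  induction e using Sym2.ind with
  | h u v =>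
    intro h1
    rcases mk_mem_und.1 h1 with h2 | h2
    · exact (h.anti _ _ h2).1 he
    · exact (h.anti _ _ h2).1 (Sym2.eq_swap ▸ he)

theorem Base.half (h : Base T q H M Fr D Q U R) {e : Sym2 (Fin n)} (he : e ∈ Fr) :
    yOf D Q e = 1 / 2 := by
  unfold yOf
  rw [if_neg fun h1 => h.free he (und_mono h.sub h1), if_neg fun h1 => (h.hQ e h1).1 he]

theorem Base.maker (hP : Pot T q H) (h : Base T q H M Fr D Q U R)
    (hpot : ∀ e ∈ U, H D (Function.update (yOf D Q) e 1) ≤ 1) {u v : Fin n} (huv : s(u, v) ∈ Fr) :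
    Base T q H (insert (u, v) M) (Fr.erase s(u, v)) (if s(u, v) ∈ U then insert (u, v) D else D)
      Q (U.erase s(u, v)) R := by
  have hne : u ≠ v := by simpa using h.nd _ huv
  have hfree := h.free huv
  have hDD : D ⊆ (if s(u, v) ∈ U then insert (u, v) D else D) := by
    split_ifs
    · exact subset_insert _ _
    · exact Subset.rfl
  refine ⟨?_, ?_, fun e he => h.nd e (mem_of_mem_erase he), ?_, erase_subset_erase _ h.hU, ?_,
    ⟨h.proc.inj, ?_, h.proc.noQ, ?_, h.proc.mem1, h.proc.mem2, h.proc.tinj, h.proc.skew⟩,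
    fun r hr => (h.pU r hr).mono_right (erase_subset _ _), h.tau, h.ne, h.disj, ?_⟩
  · split_ifs
    · exact insert_subset_insert _ h.sub
    · exact h.sub.trans (subset_insert _ _)
  · intro a b hab
    rcases mem_insert.1 hab with h1 | h1
    · obtain ⟨rfl, rfl⟩ := Prod.ext_iff.1 h1
      refine ⟨notMem_erase _ _, fun h2 => ?_⟩
      rcases mem_insert.1 h2 with h3 | h3
      · exact hne (Prod.ext_iff.1 h3).2
      · exact hfree (mk_mem_und.2 (Or.inr h3))
    · refine ⟨fun h2 => (h.anti a b h1).1 (mem_of_mem_erase h2), fun h2 => ?_⟩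
      rcases mem_insert.1 h2 with h3 | h3
      · obtain ⟨rfl, rfl⟩ := Prod.ext_iff.1 h3
        exact hfree (mk_mem_und.2 (Or.inr h1))
      · exact (h.anti a b h1).2 h3
  · intro e he
    refine ⟨fun h1 => (h.hQ e he).1 (mem_of_mem_erase h1), fun h1 => ?_⟩
    rw [und_insert] at h1
    rcases mem_insert.1 h1 with h2 | h2
    · exact (h.hQ e he).1 (h2 ▸ huv)
    · exact (h.hQ e he).2 h2
  · intro S
    refine le_trans (card_le_card (sdiff_subset_sdiff Subset.rfl ?_)) (h.cov S)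
    intro e he
    simp only [mem_union, mem_erase] at he ⊢
    rcases he with (he | he) | he
    · exact Or.inl (Or.inl (und_mono hDD he))
    · exact Or.inl (Or.inr he)
    · by_cases h1 : e = s(u, v)
      · subst h1
        rw [if_pos he, und_insert]
        exact Or.inl (Or.inl (mem_insert_self _ _))
      · exact Or.inr ⟨h1, he⟩
  · intro r hr i j hij h1
    split_ifs at h1 with h2
    · rcases mem_insert.1 h1 with h3 | h3
      · obtain ⟨rfl, rfl⟩ := Prod.ext_iff.1 h3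
        refine disjoint_left.1 (h.pU r hr) (mk_mem_ed.2 ⟨self_mem_im _ _, self_mem_im _ _, hne⟩) h2
      · exact h.proc.comp r hr i j hij h3
    · exact h.proc.comp r hr i j hij h1
  · intro r hr
    exact le_trans (card_le_card (sdiff_subset_sdiff Subset.rfl (und_mono hDD))) (h.proc.miss r hr)
  · split_ifs with h1
    · refine hP.step D Q u v hne (fun h2 => hfree (und_mono h.sub h2)) ?_
      rw [yOf_insert_arc]
      exact hpot _ h1
    · exact h.pot

theorem Base.breaker (hP : Pot T q H) (h : Base T q H M Fr D Q U R) {e : Sym2 (Fin n)}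
    (he : e ∈ Fr) :
    Base T q H M (Fr.erase e) D (if e ∈ U then insert e Q else Q) (U.erase e) R := by
  have hfree := h.free he
  refine ⟨h.sub, fun a b hab => ⟨fun h1 => (h.anti a b hab).1 (mem_of_mem_erase h1),
    (h.anti a b hab).2⟩, fun e he => h.nd e (mem_of_mem_erase he), ?_, erase_subset_erase _ h.hU,
    ?_, ⟨h.proc.inj, h.proc.comp, ?_, h.proc.miss, h.proc.mem1, h.proc.mem2, h.proc.tinj,
    h.proc.skew⟩, fun r hr => (h.pU r hr).mono_right (erase_subset _ _), h.tau, h.ne, h.disj, ?_⟩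
  · intro e' he'
    split_ifs at he' with h1
    · rcases mem_insert.1 he' with h2 | h2
      · subst h2
        exact ⟨notMem_erase _ _, hfree⟩
      · exact ⟨fun h3 => (h.hQ e' h2).1 (mem_of_mem_erase h3), (h.hQ e' h2).2⟩
    · exact ⟨fun h3 => (h.hQ e' he').1 (mem_of_mem_erase h3), (h.hQ e' he').2⟩
  · intro S
    refine le_trans (card_le_card (sdiff_subset_sdiff Subset.rfl ?_)) (h.cov S)
    intro e' he'
    simp only [mem_union, mem_erase] at he' ⊢
    rcases he' with (he' | he') | he'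
    · exact Or.inl (Or.inl he')
    · refine Or.inl (Or.inr ?_)
      split_ifs
      · exact mem_insert_of_mem he'
      · exact he'
    · by_cases h1 : e' = e
      · subst h1
        rw [if_pos he']
        exact Or.inl (Or.inr (mem_insert_self _ _))
      · exact Or.inr ⟨h1, he'⟩
  · intro r hr
    split_ifs with h1
    · exact disjoint_insert_right.2 ⟨fun h2 => disjoint_left.1 (h.pU r hr) h2 h1, h.proc.noQ r hr⟩
    · exact h.proc.noQ r hr
  · split_ifs with h1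
    · rw [yOf_insert_edge D Q fun h2 => hfree (und_mono h.sub h2)]
      exact ((hP.good D).kill_le (yOf_nonneg D Q) e).trans h.pot
    · exact h.pot

theorem PairOK.step (h : Base T q H M Fr D Q U R) {r : Rec k n} (hr : PairOK M Fr r) {u v : Fin n}
    (huv : s(u, v) ∈ Fr) {e : Sym2 (Fin n)} (he : e ∈ Fr.erase s(u, v))
    (hc : r.2.1 ∈ Fr ∧ r.2.2.1 ∈ Fr →
      (r.2.1 ≠ s(u, v) ∧ r.2.2.1 ≠ s(u, v)) ∨ r.2.1 = e ∨ r.2.2.1 = e) :
    PairOK (insert (u, v) M) ((Fr.erase s(u, v)).erase e) r := by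
  have hown : e ∉ (Fr.erase s(u, v)).erase e ∧ e ∉ und (insert (u, v) M) := by
    refine ⟨notMem_erase _ _, ?_⟩
    rw [und_insert, mem_insert, not_or]
    exact ⟨(mem_erase.1 he).1, h.free (mem_of_mem_erase he)⟩
  have hkeep : ∀ e', e' ∉ Fr ∧ e' ∉ und M →
      e' ∉ (Fr.erase s(u, v)).erase e ∧ e' ∉ und (insert (u, v) M) := by
    intro e' h1
    refine ⟨fun h2 => h1.1 (mem_of_mem_erase (mem_of_mem_erase h2)), ?_⟩
    rw [und_insert, mem_insert, not_or]
    exact ⟨fun h2 => h1.1 (h2 ▸ huv), h1.2⟩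
  by_cases h1 : r.2.1 = e
  · exact Or.inr (Or.inl (h1 ▸ hown))
  by_cases h2 : r.2.2.1 = e
  · exact Or.inr (Or.inr (h2 ▸ hown))
  rcases hr with h3 | h3 | h3
  · rcases hc h3 with h4 | h4 | h4
    · exact Or.inl ⟨mem_erase.2 ⟨h1, mem_erase.2 ⟨h4.1, h3.1⟩⟩,
        mem_erase.2 ⟨h2, mem_erase.2 ⟨h4.2, h3.2⟩⟩⟩
    · exact absurd h4 h1
    · exact absurd h4 h2
  · exact Or.inr (Or.inl (hkeep _ h3))
  · exact Or.inr (Or.inr (hkeep _ h3))

theorem reply (hP : Pot T q H) (h : Base T q H M Fr D Q U R) (hpair : ∀ r ∈ R, PairOK M Fr r)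
    (hpot : ∀ e ∈ U, H D (Function.update (yOf D Q) e 1) ≤ 1) {u v : Fin n} (huv : s(u, v) ∈ Fr)
    (hne : (Fr.erase s(u, v)).Nonempty) :
    ∃ e ∈ Fr.erase s(u, v), ∃ D' Q' U', Base T q H (insert (u, v) M) ((Fr.erase s(u, v)).erase e)
      D' Q' U' R ∧ (∀ r ∈ R, PairOK (insert (u, v) M) ((Fr.erase s(u, v)).erase e) r) ∧
      ∀ e' ∈ U', H D' (Function.update (yOf D' Q') e' 1) ≤ 1 := by
  have h1 := h.maker hP hpot huv
  by_cases hc : ∃ r ∈ R, (r.2.1 ∈ Fr ∧ r.2.2.1 ∈ Fr) ∧ (r.2.1 = s(u, v) ∨ r.2.2.1 = s(u, v))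
  · obtain ⟨r, hr, hint, hs⟩ := hc
    have hne' := h.ne r hr
    obtain ⟨e, he, heE, hsE, hre, hpe⟩ : ∃ e ∈ Fr.erase s(u, v), e ∈ eE r.1 ∧ s(u, v) ∈ eE r.1 ∧
        (r.2.1 = e ∨ r.2.2.1 = e) ∧ s(u, v) ∈ ({r.2.1, r.2.2.1} : Finset (Sym2 (Fin n))) := by
      rcases hs with hs | hs
      · exact ⟨r.2.2.1, mem_erase.2 ⟨fun h2 => hne' (hs.trans h2.symm), hint.2⟩, h.proc.mem2 r hr,
          hs ▸ h.proc.mem1 r hr, Or.inr rfl, by simp [← hs]⟩
      · exact ⟨r.2.1, mem_erase.2 ⟨fun h2 => hne' (h2.trans hs.symm), hint.1⟩, h.proc.mem1 r hr,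
          hs ▸ h.proc.mem2 r hr, Or.inl rfl, by simp [← hs]⟩
    have hsU : s(u, v) ∉ U := disjoint_left.1 (h.pU r hr) hsE
    have heU : e ∉ U := disjoint_left.1 (h.pU r hr) heE
    have h2 := h1.breaker hP he
    rw [if_neg hsU, erase_eq_of_notMem hsU, if_neg heU, erase_eq_of_notMem heU] at h2
    refine ⟨e, he, D, Q, U, h2, fun r' hr' => (hpair r' hr').step h huv he fun _ => ?_, hpot⟩
    by_cases h3 : r' = r
    · subst h3
      exact Or.inr hre
    · have h4 := disjoint_left.1 (h.disj r hr r' hr' fun h5 => h3 h5.symm) hpe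
      simp only [mem_insert, mem_singleton, not_or] at h4
      exact Or.inl ⟨fun h5 => h4.1 h5.symm, fun h5 => h4.2 h5.symm⟩
  · have hpair' : ∀ e ∈ Fr.erase s(u, v), ∀ r ∈ R,
        PairOK (insert (u, v) M) ((Fr.erase s(u, v)).erase e) r := by
      intro e he r hr
      refine (hpair r hr).step h huv he fun h2 => Or.inl ?_
      constructor
      · exact fun h3 => hc ⟨r, hr, h2, Or.inl h3⟩
      · exact fun h3 => hc ⟨r, hr, h2, Or.inr h3⟩
    rcases (U.erase s(u, v)).eq_empty_or_nonempty with h2 | h2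
    · obtain ⟨e, he⟩ := hne
      refine ⟨e, he, _, _, _, h1.breaker hP he, hpair' e he, fun e' he' => ?_⟩
      rw [h2] at he'
      simp at he'
    · obtain ⟨e, he, hes⟩ := (hP.good (if s(u, v) ∈ U then insert (u, v) D else D)).exists_move
        (yOf_nonneg (if s(u, v) ∈ U then insert (u, v) D else D) Q) h2
        fun e he => h1.half (h1.hU he)
      refine ⟨e, h1.hU he, _, _, _, h1.breaker hP (h1.hU he), hpair' e (h1.hU he),
        fun e' he' => ?_⟩
      rw [if_pos he, yOf_insert_edge _ Q fun h3 => h1.free (h1.hU he) (und_mono h1.sub h3)]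
      exact (hes e' (mem_of_mem_erase he') (mem_erase.1 he').1).trans h1.pot

theorem nb_insert (R : Finset (Rec k n)) {r : Rec k n} (hr : r ∉ R) (X : Finset (Sym2 (Fin n))) :
    nb (insert r R) X = nb R X + if Disjoint X (eE r.1) then 0 else 1 := by
  unfold nb
  rw [filter_insert]
  split_ifs with h1
  · rfl
  · rw [card_insert_of_notMem fun h2 => hr (mem_filter.1 h2).1]

theorem process_one (hT : IsTournament T) (hP : Pot T q H) (h : Base T q H M Fr D Q U R)
    {φ : Fin k → Fin n} (hφ : unb T M Fr R φ) (hFr : 2 * q + 2 ≤ (eE φ ∩ Fr).card)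
    (hU : (eE φ ∩ U).card ≤ 2 * q + 2) :
    ∃ e1 ∈ eE φ ∩ Fr, ∃ e2 ∈ eE φ ∩ Fr,
      Base T q H M Fr D Q (U \ eE φ) (insert (φ, e1, e2, R.card) R) := by
  have hQ : Disjoint (eE φ) Q := by
    rw [disjoint_left]
    intro e h1 h2
    rcases hφ.1.edge hT h1 with h3 | h3
    · exact (h.hQ e h2).1 h3
    · exact (h.hQ e h2).2 h3
  have hmiss : (eE φ \ und D).card ≤ (2 * q + 2) * (nb R (eE φ) + 1) := by
    have h1 : eE φ \ und D ⊆ (eE φ \ (und D ∪ Q ∪ U)) ∪ (eE φ ∩ U) := by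
      intro e he
      have := disjoint_left.1 hQ (mem_sdiff.1 he).1
      simp only [mem_union, mem_sdiff, mem_inter] at he ⊢
      tauto
    have h2 := (card_le_card h1).trans (card_union_le _ _)
    have h3 : (eE φ \ (und D ∪ Q ∪ U)).card ≤ (2 * q + 2) * nb R (eE φ) := h.cov (im φ)
    rw [mul_add]
    omega
  have hσ := hP.viol D Q R h.pot h.proc φ hφ.1.1 hQ hmiss
  set Pe := (R.filter fun r => ¬ Disjoint (eE φ) (eE r.1)).biUnion
    fun r => ({r.2.1, r.2.2.1} : Finset (Sym2 (Fin n))) with hPe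
  have hPec : Pe.card ≤ nb R (eE φ) * 2 :=
    card_biUnion_le_card_mul _ _ _ fun r _ => card_le_two
  have h2 : 1 < ((eE φ ∩ Fr) \ Pe).card := by
    have := le_card_sdiff Pe (eE φ ∩ Fr)
    omega
  obtain ⟨e1, he1, e2, he2, hne⟩ := one_lt_card.1 h2
  have hnot : (φ, e1, e2, R.card) ∉ R := fun h3 => lt_irrefl _ (h.tau _ h3)
  have hdis : ∀ r ∈ R, Disjoint ({r.2.1, r.2.2.1} : Finset (Sym2 (Fin n))) {e1, e2} := by
    intro r hr
    rw [disjoint_left]
    intro e h3 h4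
    have h5 : e ∈ eE r.1 := by
      rcases mem_insert.1 h3 with h6 | h6
      · exact h6 ▸ h.proc.mem1 r hr
      · exact (mem_singleton.1 h6) ▸ h.proc.mem2 r hr
    have h6 : e ∈ (eE φ ∩ Fr) \ Pe := by
      rcases mem_insert.1 h4 with h6 | h6
      · exact h6 ▸ he1
      · exact (mem_singleton.1 h6) ▸ he2
    refine (mem_sdiff.1 h6).2 (mem_biUnion.2 ⟨r, mem_filter.2 ⟨hr, ?_⟩, h3⟩)
    exact not_disjoint_iff.2 ⟨e, (mem_inter.1 (mem_sdiff.1 h6).1).1, h5⟩
  refine ⟨e1, (mem_sdiff.1 he1).1, e2, (mem_sdiff.1 he2).1, h.sub, h.anti, h.nd, h.hQ,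
    sdiff_subset.trans h.hU, ?_, ⟨?_, ?_, ?_, ?_, ?_, ?_, ?_, ?_⟩, ?_, ?_, ?_, ?_, h.pot⟩
  · intro S
    rw [nb_insert R hnot]
    have h3 := h.cov S
    have h4 : ed S \ (und D ∪ Q ∪ U \ eE φ) ⊆ (ed S \ (und D ∪ Q ∪ U)) ∪ (ed S ∩ eE φ ∩ U) := by
      intro e he
      simp only [mem_union, mem_sdiff, mem_inter] at he ⊢
      tauto
    have h5 := (card_le_card h4).trans (card_union_le _ _)
    split_ifs with h6
    · rw [disjoint_iff_inter_eq_empty.1 h6, empty_inter, card_empty] at h5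
      rw [add_zero]
      omega
    · have h7 : (ed S ∩ eE φ ∩ U).card ≤ (eE φ ∩ U).card :=
        card_le_card (inter_subset_inter inter_subset_right Subset.rfl)
      rw [mul_add]
      omega
  · exact forall_mem_insert _ _ _ |>.2 ⟨hφ.1.1, h.proc.inj⟩
  · refine forall_mem_insert _ _ _ |>.2 ⟨fun i j hij h3 => ?_, h.proc.comp⟩
    have h4 := h.anti _ _ (h.sub h3)
    rcases hφ.1.2 i j hij with h5 | h5
    · exact h4.1 (Sym2.eq_swap ▸ h5)
    · exact h4.2 h5
  · exact forall_mem_insert _ _ _ |>.2 ⟨hQ, h.proc.noQ⟩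
  · exact forall_mem_insert _ _ _ |>.2
      ⟨hmiss.trans (Nat.mul_le_mul_left _ (by omega)), h.proc.miss⟩
  · exact forall_mem_insert _ _ _ |>.2 ⟨(mem_inter.1 (mem_sdiff.1 he1).1).1, h.proc.mem1⟩
  · exact forall_mem_insert _ _ _ |>.2 ⟨(mem_inter.1 (mem_sdiff.1 he2).1).1, h.proc.mem2⟩
  · intro r hr r' hr' hrr
    rcases mem_insert.1 hr with h3 | h3 <;> rcases mem_insert.1 hr' with h4 | h4
    · exact absurd (h3.trans h4.symm) hrr
    · subst h3
      exact (h.tau r' h4).ne'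
    · subst h4
      exact (h.tau r h3).ne
    · exact h.proc.tinj r h3 r' h4 hrr
  · intro r hr r' hr' hrr
    rcases mem_insert.1 hr with h3 | h3 <;> rcases mem_insert.1 hr' with h4 | h4
    · subst h3 h4
      exact absurd hrr (lt_irrefl _)
    · subst h3
      exact absurd (h.tau r' h4) (not_lt.2 hrr.le)
    · subst h4
      exact hφ.2 r h3
    · exact h.proc.skew r h3 r' h4 hrr
  · exact forall_mem_insert _ _ _ |>.2 ⟨disjoint_sdiff,
      fun r hr => (h.pU r hr).mono_right sdiff_subset⟩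
  · rw [card_insert_of_notMem hnot]
    exact forall_mem_insert _ _ _ |>.2 ⟨Nat.lt_succ_self _,
      fun r hr => (h.tau r hr).trans (Nat.lt_succ_self _)⟩
  · exact forall_mem_insert _ _ _ |>.2 ⟨hne, h.ne⟩
  · intro r hr r' hr' hrr
    rcases mem_insert.1 hr with h3 | h3 <;> rcases mem_insert.1 hr' with h4 | h4
    · exact absurd (h3.trans h4.symm) hrr
    · subst h3
      exact (hdis r' h4).symm
    · subst h4
      exact hdis r h3
    · exact h.disj r h3 r' h4 hrr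

open Classical in
theorem process (hT : IsTournament T) (hP : Pot T q H) (m : ℕ) :
    ∀ (U : Finset (Sym2 (Fin n))) (R : Finset (Rec k n)),
      (univ.filter fun φ => unb T M Fr R φ).card = m → Base T q H M Fr D Q U R →
      (∀ r ∈ R, PairOK M Fr r) → (∀ φ, unb T M Fr R φ → 2 * q + 2 ≤ (eE φ ∩ Fr).card) →
      ∃ U' R', U' ⊆ U ∧ Base T q H M Fr D Q U' R' ∧ (∀ r ∈ R', PairOK M Fr r) ∧
        ∀ φ, unb T M Fr R' φ → 2 * q + 3 ≤ (eE φ ∩ U').card := by
  induction m using Nat.strong_induction_on with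
  | h m ih =>
    intro U R hm h hpair hFr
    by_cases hc : ∀ φ, unb T M Fr R φ → 2 * q + 3 ≤ (eE φ ∩ U).card
    · exact ⟨U, R, Subset.rfl, h, hpair, hc⟩
    push Not at hc
    obtain ⟨φ, hφ, hU⟩ := hc
    obtain ⟨e1, he1, e2, he2, h1⟩ := process_one hT hP h hφ (hFr φ hφ) (by omega)
    have hmono : ∀ ψ, unb T M Fr (insert (φ, e1, e2, R.card) R) ψ → unb T M Fr R ψ :=
      fun ψ hψ => ⟨hψ.1, fun r hr => hψ.2 r (mem_insert_of_mem hr)⟩
    have hlt : (univ.filter fun ψ => unb T M Fr (insert (φ, e1, e2, R.card) R) ψ).card < m := by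
      rw [← hm]
      refine card_lt_card ⟨fun ψ hψ => mem_filter.2 ⟨mem_univ _, hmono ψ (mem_filter.1 hψ).2⟩,
        fun h2 => ?_⟩
      have h3 := (mem_filter.1 (h2 (mem_filter.2 ⟨mem_univ φ, hφ⟩))).2
      exact h3.2 _ (mem_insert_self _ _) ⟨(mem_inter.1 he1).1, (mem_inter.1 he2).1⟩
    obtain ⟨U', R', h2, h3⟩ := ih _ hlt _ _ rfl h1
      (forall_mem_insert _ _ _ |>.2 ⟨Or.inl ⟨(mem_inter.1 he1).2, (mem_inter.1 he2).2⟩, hpair⟩)
      fun ψ hψ => hFr ψ (hmono ψ hψ)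
    exact ⟨U', R', h2.trans sdiff_subset, h3⟩

theorem no_almost (hT : IsTournament T) (h : Base T q H M Fr D Q U R)
    (hpair : ∀ r ∈ R, PairOK M Fr r) (hU : ∀ φ, unb T M Fr R φ → 2 * q + 3 ≤ (eE φ ∩ U).card)
    {φ : Fin k → Fin n} (hφ : live T M Fr φ) (h1 : (eE φ ∩ Fr).card ≤ 1) : False := by
  have h2 : unb T M Fr R φ := by
    refine ⟨hφ, fun r hr h3 => ?_⟩
    rcases hpair r hr with h4 | h4 | h4
    · exact h.ne r hr (card_le_one.1 h1 _ (mem_inter.2 ⟨h3.1, h4.1⟩) _ (mem_inter.2 ⟨h3.2, h4.2⟩))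
    · exact (hφ.edge hT h3.1).elim h4.1 h4.2
    · exact (hφ.edge hT h3.2).elim h4.1 h4.2
  have h3 := hU φ h2
  have h4 : (eE φ ∩ U).card ≤ (eE φ ∩ Fr).card :=
    card_le_card (inter_subset_inter Subset.rfl h.hU)
  omega

theorem MakerWins.inv_true (h : MakerWins T M U true) : (U = ∅ ∧ HasCopy T M) ∨
    ∃ u v, s(u, v) ∈ U ∧ MakerWins T (insert (u, v) M) (U.erase s(u, v)) false := by
  cases h
  · exact Or.inl ⟨rfl, ‹_›⟩
  · exact Or.inr ⟨_, _, ‹_›, ‹_›⟩

theorem MakerWins.inv_false (h : MakerWins T M U false) : (U = ∅ ∧ HasCopy T M) ∨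
    (U.Nonempty ∧ ∀ e ∈ U, MakerWins T M (U.erase e) true) := by
  cases h
  · exact Or.inl ⟨rfl, ‹_›⟩
  · exact Or.inr ⟨‹_›, ‹_›⟩

theorem breaker_wins (hT : IsTournament T) (hP : Pot T q H) (m : ℕ) :
    ∀ (M D : Finset (Fin n × Fin n)) (Fr Q U : Finset (Sym2 (Fin n))) (R : Finset (Rec k n)),
      Fr.card = m → Base T q H M Fr D Q U R → (∀ r ∈ R, PairOK M Fr r) →
      (∀ e ∈ U, H D (Function.update (yOf D Q) e 1) ≤ 1) →
      (∀ φ, unb T M Fr R φ → 2 * q + 3 ≤ (eE φ ∩ U).card) → ¬ MakerWins T M Fr true := by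
  induction m using Nat.strong_induction_on with
  | h m ih =>
    intro M D Fr Q U R hm h hpair hpot hU hw
    rcases hw.inv_true with ⟨h0, φ, h1, h2⟩ | ⟨u, v, huv, hw⟩
    · exact no_almost hT h hpair hU (φ := φ) ⟨h1, fun i j hij => Or.inr (h2 i j hij)⟩
        (by simp [h0])
    · have hlive : ∀ (φ : Fin k → Fin n) (Fr' : Finset (Sym2 (Fin n))), Fr' ⊆ Fr →
          live T (insert (u, v) M) Fr' φ → live T M Fr φ := by
        intro φ Fr' hs h1
        refine ⟨h1.1, fun i j hij => ?_⟩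
        rcases h1.2 i j hij with h2 | h2
        · exact Or.inl (hs h2)
        · rcases mem_insert.1 h2 with h3 | h3
          · obtain ⟨h4, h5⟩ := Prod.ext_iff.1 h3
            simp only at h4 h5
            exact Or.inl (by rw [h4, h5]; exact huv)
          · exact Or.inr h3
      rcases hw.inv_false with ⟨hF, φ, h1, h2⟩ | ⟨hne, hw⟩
      · refine no_almost hT h hpair hU (φ := φ) (hlive φ ∅ (empty_subset _)
          ⟨h1, fun i j hij => Or.inr (h2 i j hij)⟩) ?_
        have h3 := card_erase_of_mem huv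
        rw [hF, card_empty] at h3
        have h4 : (eE φ ∩ Fr).card ≤ Fr.card := card_le_card inter_subset_right
        omega
      · obtain ⟨e, he, D', Q', U', h1, h2, h3⟩ := reply hP h hpair hpot huv hne
        have hsub : (Fr.erase s(u, v)).erase e ⊆ Fr := (erase_subset _ _).trans (erase_subset _ _)
        obtain ⟨U'', R', h4, h5, h6, h7⟩ := process hT hP _ U' R rfl h1 h2 fun φ hφ => by
          have h4 := hU φ ⟨hlive φ _ hsub hφ.1, hφ.2⟩
          have h5 : e ∉ eE φ := by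
            intro h6
            rcases hφ.1.edge hT h6 with h7 | h7
            · exact notMem_erase _ _ h7
            · rw [und_insert] at h7
              rcases mem_insert.1 h7 with h8 | h8
              · exact (mem_erase.1 he).1 h8
              · exact h.free (mem_of_mem_erase he) h8
          have h6 : eE φ ∩ U ⊆ insert s(u, v) (eE φ ∩ (Fr.erase s(u, v)).erase e) := by
            intro e' he'
            by_cases h7 : e' = s(u, v)
            · exact h7 ▸ mem_insert_self _ _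
            · refine mem_insert_of_mem (mem_inter.2 ⟨(mem_inter.1 he').1, mem_erase.2 ⟨?_,
                mem_erase.2 ⟨h7, h.hU (mem_inter.1 he').2⟩⟩⟩)
              rintro rfl
              exact h5 (mem_inter.1 he').1
          have h7 := (card_le_card h6).trans (card_insert_le _ _)
          omega
        refine ih _ ?_ _ D' _ Q' U'' R' rfl h5 h6 (fun e' he' => h3 e' (h4 he')) h7 (hw e he)
        rw [← hm]
        exact lt_of_le_of_lt (card_le_card (erase_subset _ _)) (card_erase_lt_of_mem huv)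

theorem not_makerWins (hT : IsTournament T) (hP : Pot T q H)
    (hk : (2 * q + 3 : ℝ) ≤ k * (k - 1) / 2) :
    ¬ MakerWins T (∅ : Finset (Fin n × Fin n)) (⊤ : SimpleGraph (Fin n)).edgeFinset true := by
  have hmem : ∀ e : Sym2 (Fin n), e ∈ (⊤ : SimpleGraph (Fin n)).edgeFinset ↔ ¬ e.IsDiag := by
    intro e
    simp
  have hsub : ∀ S : Finset (Fin n), ed S ⊆ (⊤ : SimpleGraph (Fin n)).edgeFinset :=
    fun S e he => (hmem e).2 (not_isDiag_of_mem_ed he)
  refine breaker_wins hT hP _ ∅ ∅ _ ∅ (⊤ : SimpleGraph (Fin n)).edgeFinset ∅ rfl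
    ⟨Subset.rfl, by simp, fun e he => (hmem e).1 he, by simp, Subset.rfl, fun S => ?_,
      ⟨by simp, by simp, by simp, by simp, by simp, by simp, by simp, by simp⟩, by simp, by simp,
      by simp, by simp, ?_⟩ (by simp) (fun e _ => ?_) fun φ hφ => ?_
  · rw [sdiff_eq_empty_iff_subset.2 ((hsub S).trans subset_union_right), card_empty]
    exact Nat.zero_le _
  · rw [yOf_empty]
    linarith [hP.init]
  · rw [yOf_empty]
    have := (hP.good ∅).take_le (y := fun _ => 1 / 2) (fun _ => by norm_num) e rfl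
    linarith [hP.init]
  · rw [inter_eq_left.2 (show eE φ ⊆ _ from hsub _)]
    have := card_eE hφ.1.1
    have h1 : (2 * q + 3 : ℝ) ≤ (eE φ).card := by linarith
    exact_mod_cast h1

end Pool.Agent.Lib.MP_802a39_co
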