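import Mathlib

/-! Potentials of Erdos-Selfridge type: nonnegative combinations of monomials. -/

set_option autoImplicit false

namespace Pool.Agent.Lib.MP_802a39_co

open Finset

section Good

variable {E : Type} [DecidableEq E]

/-- The weight of an edge set. -/
def W (y : E → ℝ) (X : Finset E) : ℝ := ∏ e ∈ X, y e

/-- Nonnegative combinations of monomials. -/
inductive Good : ((E → ℝ) → ℝ) → Prop
  | mono (X : Finset E) : Good (fun y => W y X)
  | zero : Good (fun _ => 0)
  | add {F G : (E → ℝ) → ℝ} : Good F → Good G → Good (fun y => F y + G y)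
  | smul {F : (E → ℝ) → ℝ} (c : ℝ) : 0 ≤ c → Good F → Good (fun y => c * F y)

theorem Good.sum {ι : Type} (s : Finset ι) (F : ι → (E → ℝ) → ℝ) (h : ∀ i ∈ s, Good (F i)) :
    Good (fun y => ∑ i ∈ s, F i y) := by
  classical
  induction s using Finset.induction_on with
  | empty => simpa using Good.zero
  | insert a s ha ih =>
    simp only [sum_insert ha]
    exact Good.add (h a (mem_insert_self _ _)) (ih fun i hi => h i (mem_insert_of_mem hi))

omit [DecidableEq E] in
theorem W_nonneg {y : E → ℝ} (hy : ∀ e, 0 ≤ y e) (X : Finset E) : 0 ≤ W y X :=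
  prod_nonneg fun e _ => hy e

omit [DecidableEq E] in
theorem W_le_one {y : E → ℝ} (hy : ∀ e, 0 ≤ y e) (hy1 : ∀ e, y e ≤ 1) (X : Finset E) :
    W y X ≤ 1 :=
  prod_le_one (fun e _ => hy e) fun e _ => hy1 e

theorem W_union {y : E → ℝ} {X Y : Finset E} (h : Disjoint X Y) :
    W y (X ∪ Y) = W y X * W y Y := prod_union h

theorem W_union_sdiff (y : E → ℝ) (X Y : Finset E) : W y (X ∪ Y) = W y X * W y (Y \ X) := by
  rw [← W_union disjoint_sdiff, union_sdiff_self_eq_union]

theorem W_anti {y : E → ℝ} (hy : ∀ e, 0 ≤ y e) (hy1 : ∀ e, y e ≤ 1) {X Y : Finset E}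
    (h : X ⊆ Y) : W y Y ≤ W y X := by
  have h1 : Y = X ∪ Y := (union_eq_right.2 h).symm
  rw [h1, W_union_sdiff]
  exact mul_le_of_le_one_right (W_nonneg hy _) (W_le_one hy hy1 _)

theorem W_union_ge {y : E → ℝ} (hy : ∀ e, 0 ≤ y e) (hy1 : ∀ e, y e ≤ 1) (X Y : Finset E) :
    W y X * W y Y ≤ W y (X ∪ Y) := by
  rw [W_union_sdiff]
  exact mul_le_mul_of_nonneg_left (W_anti hy hy1 sdiff_subset) (W_nonneg hy _)

omit [DecidableEq E] in
theorem W_half (X : Finset E) : W (fun _ => (1 / 2 : ℝ)) X = (1 / 2) ^ X.card := by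
  simp [W]

theorem W_update_notMem (y : E → ℝ) {X : Finset E} {e : E} (h : e ∉ X) (r : ℝ) :
    W (Function.update y e r) X = W y X := prod_update_of_notMem h y r

theorem W_update_mem (y : E → ℝ) {X : Finset E} {e : E} (h : e ∈ X) (r : ℝ) :
    W (Function.update y e r) X = r * W y (X.erase e) := by
  unfold W
  rw [prod_update_of_mem h, sdiff_singleton_eq_erase]

theorem W_eq_mem (y : E → ℝ) {X : Finset E} {e : E} (h : e ∈ X) :
    W y X = y e * W y (X.erase e) := (mul_prod_erase X y h).symm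

theorem update_nonneg' {y : E → ℝ} (hy : ∀ e, 0 ≤ y e) (e : E) {r : ℝ} (hr : 0 ≤ r) :
    ∀ e', 0 ≤ Function.update y e r e' := by
  intro e'
  by_cases h : e' = e
  · subst h; simpa using hr
  · simpa [h] using hy e'

theorem Good.nonneg {F : (E → ℝ) → ℝ} (h : Good F) {y : E → ℝ} (hy : ∀ e, 0 ≤ y e) : 0 ≤ F y := by
  induction h with
  | mono X => exact W_nonneg hy X
  | zero => exact le_rfl
  | add _ _ h1 h2 => exact add_nonneg h1 h2
  | smul c hc _ h1 => exact mul_nonneg hc h1

theorem Good.kill_le {F : (E → ℝ) → ℝ} (h : Good F) {y : E → ℝ} (hy : ∀ e, 0 ≤ y e) (e : E) :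
    F (Function.update y e 0) ≤ F y := by
  induction h with
  | mono X =>
    by_cases hX : e ∈ X
    · simp only [W_update_mem y hX, zero_mul]
      exact W_nonneg hy X
    · simp only [W_update_notMem y hX, le_refl]
  | zero => exact le_rfl
  | add _ _ h1 h2 => exact add_le_add h1 h2
  | smul c hc _ h1 => exact mul_le_mul_of_nonneg_left h1 hc

theorem Good.take_le {F : (E → ℝ) → ℝ} (h : Good F) {y : E → ℝ} (hy : ∀ e, 0 ≤ y e) (e : E)
    (he : y e = 1 / 2) : F (Function.update y e 1) ≤ 2 * F y := by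
  induction h with
  | mono X =>
    by_cases hX : e ∈ X
    · simp only [W_update_mem y hX, W_eq_mem y hX, he]
      linarith
    · simp only [W_update_notMem y hX]
      linarith [W_nonneg hy X]
  | zero => simp
  | add _ _ h1 h2 => linarith
  | smul c hc _ h1 => nlinarith

theorem Good.es {F : (E → ℝ) → ℝ} (h : Good F) {y : E → ℝ} (hy : ∀ e, 0 ≤ y e) {e e' : E}
    (hne : e' ≠ e) (he' : y e' = 1 / 2) :
    F (Function.update (Function.update y e 0) e' 1) ≤
      F (Function.update y e 0) + (F y - F (Function.update y e' 0)) := by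
  induction h with
  | mono X =>
    by_cases hX : e ∈ X
    · have h0 : W (Function.update (Function.update y e 0) e' 1) X = 0 := by
        rw [Function.update_comm hne.symm, W_update_mem _ hX, zero_mul]
      have h1 := (Good.mono X).kill_le hy e'
      simp only [h0, W_update_mem y hX, zero_mul] at h1 ⊢
      linarith
    · by_cases hX' : e' ∈ X
      · have hX'' : e ∉ X.erase e' := fun h => hX (mem_of_mem_erase h)
        simp only [W_update_mem _ hX', W_update_notMem y hX, W_update_notMem y hX'',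
          W_eq_mem y hX', he']
        linarith
      · simp only [W_update_notMem _ hX', W_update_notMem y hX]
        linarith
  | zero => simp
  | add _ _ h1 h2 => linarith
  | smul c hc _ h1 => nlinarith

/-- The Erdos-Selfridge move. -/
theorem Good.exists_move {F : (E → ℝ) → ℝ} (h : Good F) {y : E → ℝ} (hy : ∀ e, 0 ≤ y e)
    {U : Finset E} (hU : U.Nonempty) (hhalf : ∀ e ∈ U, y e = 1 / 2) :
    ∃ e ∈ U, ∀ e' ∈ U, e' ≠ e →
      F (Function.update (Function.update y e 0) e' 1) ≤ F y := by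
  obtain ⟨e, he, hmax⟩ := exists_max_image U (fun e => F y - F (Function.update y e 0)) hU
  refine ⟨e, he, fun e' he' hne => ?_⟩
  have h1 := h.es hy hne (hhalf e' he')
  have h2 := hmax e' he'
  linarith

/-- Sum over ordered tuples of items with disjoint edge sets. -/
noncomputable def tup {ι : Type} (I : Finset ι) (Ed : ι → Finset E) (c : ι → ℝ) :
    ℕ → Finset E → (E → ℝ) → ℝ
  | 0, B, y => W y B
  | t + 1, B, y => ∑ i ∈ I.filter (fun i => Disjoint B (Ed i)), c i * tup I Ed c t (B ∪ Ed i) y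

theorem tup_good {ι : Type} (I : Finset ι) (Ed : ι → Finset E) {c : ι → ℝ} (hc : ∀ i, 0 ≤ c i)
    (t : ℕ) (B : Finset E) : Good (tup I Ed c t B) := by
  induction t generalizing B with
  | zero => exact Good.mono B
  | succ t ih =>
    exact Good.sum _ (fun i y => c i * tup I Ed c t (B ∪ Ed i) y) fun i _ =>
      Good.smul _ (hc i) (ih _)

theorem tup_half {ι : Type} (I : Finset ι) (Ed : ι → Finset E) {c : ι → ℝ} (hc : ∀ i, 0 ≤ c i)
    {m : ℝ} (hm : ∑ i ∈ I, c i * (1 / 2) ^ (Ed i).card ≤ m) (t : ℕ) (B : Finset E) :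
    tup I Ed c t B (fun _ => 1 / 2) ≤ (1 / 2) ^ B.card * m ^ t := by
  have hnn : ∀ i, 0 ≤ c i * (1 / 2 : ℝ) ^ (Ed i).card := fun i => mul_nonneg (hc i) (by positivity)
  have hm0 : 0 ≤ m := (sum_nonneg fun i _ => hnn i).trans hm
  induction t generalizing B with
  | zero => simp only [tup, W_half, pow_zero, mul_one, le_refl]
  | succ t ih =>
    simp only [tup]
    calc _ ≤ ∑ i ∈ I.filter (fun i => Disjoint B (Ed i)),
          ((1 / 2) ^ B.card * m ^ t) * (c i * (1 / 2 : ℝ) ^ (Ed i).card) := by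
          refine sum_le_sum fun i hi => ?_
          have h1 := ih (B ∪ Ed i)
          rw [card_union_of_disjoint (mem_filter.1 hi).2, pow_add] at h1
          calc _ ≤ c i * ((1 / 2) ^ B.card * (1 / 2) ^ (Ed i).card * m ^ t) :=
                mul_le_mul_of_nonneg_left h1 (hc i)
            _ = _ := by ring
      _ ≤ ((1 / 2) ^ B.card * m ^ t) * m := by
          rw [← mul_sum]
          refine mul_le_mul_of_nonneg_left ?_ (by positivity)
          exact (sum_le_sum_of_subset_of_nonneg (filter_subset _ _) fun i _ _ => hnn i).trans hm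
      _ = _ := by ring

theorem tup_lower {ι : Type} [DecidableEq ι] (I : Finset ι) (Ed : ι → Finset E) {c : ι → ℝ}
    (hc : ∀ i, 0 ≤ c i) {y : E → ℝ} (hy : ∀ e, 0 ≤ y e) {S : Finset ι} (hS : S ⊆ I) {conf z : ℝ}
    (hconf0 : 0 ≤ conf) (hz : 0 ≤ z)
    (hconf : ∀ i ∈ S, ∑ j ∈ S.filter (fun j => ¬ Disjoint (Ed i) (Ed j)), c j * W y (Ed j) ≤ conf)
    (t : ℕ) (B : Finset E)
    (h : z + ∑ j ∈ S.filter (fun j => ¬ Disjoint B (Ed j)), c j * W y (Ed j) + t * conf ≤
      ∑ j ∈ S, c j * W y (Ed j)) :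
    W y B * z ^ t ≤ tup I Ed c t B y := by
  have hnn : ∀ j, 0 ≤ c j * W y (Ed j) := fun j => mul_nonneg (hc j) (W_nonneg hy _)
  induction t generalizing B with
  | zero => simp [tup]
  | succ t ih =>
    simp only [tup]
    have hsplit := sum_filter_add_sum_filter_not S (fun j => Disjoint B (Ed j))
      (fun j => c j * W y (Ed j))
    have hz1 : z ≤ ∑ j ∈ S.filter (fun j => Disjoint B (Ed j)), c j * W y (Ed j) := by
      have : 0 ≤ ((t + 1 : ℕ) : ℝ) * conf := by positivity
      linarith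
    calc W y B * z ^ (t + 1) = (W y B * z ^ t) * z := by ring
      _ ≤ (W y B * z ^ t) * ∑ j ∈ S.filter (fun j => Disjoint B (Ed j)), c j * W y (Ed j) :=
          mul_le_mul_of_nonneg_left hz1 (mul_nonneg (W_nonneg hy _) (by positivity))
      _ = ∑ j ∈ S.filter (fun j => Disjoint B (Ed j)), c j * (W y (B ∪ Ed j) * z ^ t) := by
          rw [mul_sum]
          refine sum_congr rfl fun j hj => ?_
          rw [W_union (mem_filter.1 hj).2]
          ring
      _ ≤ ∑ j ∈ S.filter (fun j => Disjoint B (Ed j)), c j * tup I Ed c t (B ∪ Ed j) y := by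
          refine sum_le_sum fun j hj => mul_le_mul_of_nonneg_left (ih _ ?_) (hc j)
          have h1 := hconf j (mem_filter.1 hj).1
          have h2 : ∑ l ∈ S.filter (fun l => ¬ Disjoint (B ∪ Ed j) (Ed l)), c l * W y (Ed l) ≤
              ∑ l ∈ S.filter (fun l => ¬ Disjoint B (Ed l)), c l * W y (Ed l) +
              ∑ l ∈ S.filter (fun l => ¬ Disjoint (Ed j) (Ed l)), c l * W y (Ed l) := by
            simp only [sum_filter, ← sum_add_distrib]
            refine sum_le_sum fun l _ => ?_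
            have := hnn l
            by_cases h3 : Disjoint B (Ed l) <;> by_cases h4 : Disjoint (Ed j) (Ed l) <;>
              simp [disjoint_union_left, h3, h4, this]
          push_cast at h
          linarith
      _ ≤ _ := by
          refine sum_le_sum_of_subset_of_nonneg (filter_subset_filter _ hS) fun j _ _ => ?_
          exact mul_nonneg (hc j) ((tup_good I Ed hc t _).nonneg hy)

/-- A potential that controls, for each index `g`, every well spread subfamily of items. -/
theorem exists_spread {γ ι : Type} [DecidableEq ι] (idx : Finset γ) (I : γ → Finset ι)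
    (Ed : γ → ι → Finset E) (c : γ → ι → ℝ) (hc : ∀ g i, 0 ≤ c g i) (t : ℕ) {Λ : ℝ} (hΛ : 0 ≤ Λ)
    (hcard : 16 * (idx.card : ℝ) ≤ Λ ^ t) :
    ∃ F : (E → ℝ) → ℝ, Good F ∧ F (fun _ => 1 / 2) ≤ 1 / 16 ∧
      ∀ y : E → ℝ, (∀ e, 0 ≤ y e) → F y ≤ 1 → ∀ g ∈ idx, ∀ S ⊆ I g, ∀ m conf s : ℝ,
        0 ≤ conf → 0 ≤ s → s ≤ 1 → ∑ i ∈ I g, c g i * (1 / 2) ^ (Ed g i).card ≤ m →
        (∀ i ∈ S, ∑ j ∈ S.filter (fun j => ¬ Disjoint (Ed g i) (Ed g j)),
          s * (c g j * W y (Ed g j)) ≤ conf) →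
        ∑ j ∈ S, s * (c g j * W y (Ed g j)) ≤ Λ * m + t * conf := by
  classical
  set m0 : γ → ℝ := fun g => ∑ i ∈ I g, c g i * (1 / 2) ^ (Ed g i).card with hm0
  have hnn : ∀ g i, 0 ≤ c g i * (1 / 2 : ℝ) ^ (Ed g i).card :=
    fun g i => mul_nonneg (hc g i) (by positivity)
  have hm0nn : ∀ g, 0 ≤ m0 g := fun g => sum_nonneg fun i _ => hnn g i
  have hgood : ∀ g, Good (fun y => (16 * (idx.card : ℝ) * m0 g ^ t)⁻¹ *
      tup (I g) (Ed g) (c g) t ∅ y) := fun g =>
    Good.smul _ (inv_nonneg.2 (mul_nonneg (by positivity) (pow_nonneg (hm0nn g) t)))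
      (tup_good _ _ (hc g) _ _)
  refine ⟨fun y => ∑ g ∈ idx, (16 * (idx.card : ℝ) * m0 g ^ t)⁻¹ *
      tup (I g) (Ed g) (c g) t ∅ y, Good.sum _ _ fun g _ => hgood g, ?_, ?_⟩
  · rcases idx.eq_empty_or_nonempty with h | h
    · simp [h]
    have hpos : (0 : ℝ) < idx.card := by exact_mod_cast h.card_pos
    calc _ ≤ ∑ _g ∈ idx, (16 * (idx.card : ℝ))⁻¹ := by
          refine sum_le_sum fun g _ => ?_
          have h1 := tup_half (I g) (Ed g) (hc g) (m := m0 g) le_rfl t ∅
          simp only [card_empty, pow_zero, one_mul] at h1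
          rcases (pow_nonneg (hm0nn g) t).eq_or_lt with h2 | h2
          · rw [← h2]
            simp only [mul_zero, inv_zero, zero_mul]
            positivity
          · calc _ ≤ (16 * (idx.card : ℝ) * m0 g ^ t)⁻¹ * m0 g ^ t :=
                  mul_le_mul_of_nonneg_left h1 (by positivity)
              _ = _ := by field_simp
      _ = 1 / 16 := by
          rw [sum_const, nsmul_eq_mul]
          field_simp
  · intro y hy hF g hg S hS m conf s hconf0 hs0 hs1 hm hconf
    have hmm : m0 g ≤ m := hm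
    have hpos : (0 : ℝ) < idx.card := by exact_mod_cast card_pos.2 ⟨g, hg⟩
    have hm00 : 0 ≤ Λ * m := mul_nonneg hΛ ((hm0nn g).trans hmm)
    rcases hs0.eq_or_lt with hs | hs
    · rw [← hs]
      simp only [zero_mul, sum_const_zero]
      positivity
    rcases (hm0nn g).eq_or_lt with h0 | h0
    · have h1 : ∀ i ∈ I g, c g i = 0 := by
        intro i hi
        have := (sum_eq_zero_iff_of_nonneg fun i _ => hnn g i).1 h0.symm i hi
        rcases mul_eq_zero.1 this with h | h
        · exact h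
        · exact absurd h (by positivity)
      rw [sum_eq_zero fun j hj => by rw [h1 j (hS hj)]; simp]
      positivity
    by_contra hcon
    push Not at hcon
    rw [← mul_sum] at hcon
    set Z := ∑ j ∈ S, c g j * W y (Ed g j) with hZ
    have h2 : Λ * m0 g < Z - t * (conf / s) := by
      have h3 : Λ * m0 g * s ≤ Λ * m := by
        calc Λ * m0 g * s ≤ Λ * m0 g * 1 :=
              mul_le_mul_of_nonneg_left hs1 (mul_nonneg hΛ (hm0nn g))
          _ ≤ Λ * m := by rw [mul_one]; exact mul_le_mul_of_nonneg_left hmm hΛ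
      have h4 : (Z - t * (conf / s)) * s = s * Z - t * conf := by field_simp
      by_contra h5
      push Not at h5
      have := mul_le_mul_of_nonneg_right h5 hs.le
      linarith
    have hz0 : 0 ≤ Λ * m0 g := mul_nonneg hΛ (hm0nn g)
    have h3 := tup_lower (I g) (Ed g) (hc g) hy hS (conf := conf / s) (z := Z - t * (conf / s))
      (by positivity) (hz0.trans h2.le) (fun i hi => by
        have := hconf i hi
        rw [← mul_sum] at this
        rw [le_div_iff₀ hs]
        linarith) t ∅ (by simp [hZ])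
    have h4 : (16 * (idx.card : ℝ) * m0 g ^ t)⁻¹ * tup (I g) (Ed g) (c g) t ∅ y ≤ 1 :=
      (single_le_sum (f := fun g => (16 * (idx.card : ℝ) * m0 g ^ t)⁻¹ *
        tup (I g) (Ed g) (c g) t ∅ y) (fun g _ => (hgood g).nonneg hy) hg).trans hF
    rw [inv_mul_le_iff₀ (by positivity), mul_one] at h4
    have h5 : W y (∅ : Finset E) = 1 := by simp [W]
    rw [h5, one_mul] at h3
    rcases Nat.eq_zero_or_pos t with ht | ht
    · subst ht
      have : (1 : ℝ) ≤ idx.card := by exact_mod_cast card_pos.2 ⟨g, hg⟩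
      simp only [pow_zero] at hcard
      linarith
    have h6 : (Λ * m0 g) ^ t < (Z - t * (conf / s)) ^ t := pow_lt_pow_left₀ h2 hz0 ht.ne'
    have h7 : 16 * (idx.card : ℝ) * m0 g ^ t ≤ (Λ * m0 g) ^ t := by
      rw [mul_pow]
      exact mul_le_mul_of_nonneg_right hcard (by positivity)
    linarith

end Good

section Sums

theorem sum_le_sum_cover {α β : Type} [DecidableEq α] (s : Finset α) (T : Finset β) (g : β → α)
    (f : α → ℝ) (hf : ∀ a, 0 ≤ f a) (h : ∀ a ∈ s, ∃ t ∈ T, g t = a) :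
    ∑ a ∈ s, f a ≤ ∑ t ∈ T, f (g t) := by
  calc ∑ a ∈ s, f a ≤ ∑ a ∈ T.image g, f a :=
        sum_le_sum_of_subset_of_nonneg (fun a ha => mem_image.2 (h a ha)) fun a _ _ => hf a
    _ ≤ _ := sum_image_le_of_nonneg fun a _ => hf a

theorem sum_le_sum_cover' {α β : Type} [DecidableEq α] (s : Finset α) (T : Finset β)
    (G : β → Finset α) (f : α → ℝ) (hf : ∀ a, 0 ≤ f a) (h : ∀ a ∈ s, ∃ t ∈ T, a ∈ G t) :
    ∑ a ∈ s, f a ≤ ∑ t ∈ T, ∑ a ∈ G t, f a := by
  rw [sum_sigma']
  refine sum_le_sum_cover s (T.sigma G) (fun p => p.2) f hf fun a ha => ?_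
  obtain ⟨t, ht, hat⟩ := h a ha
  exact ⟨⟨t, a⟩, mem_sigma.2 ⟨ht, hat⟩, rfl⟩

theorem sum_le_card_mul_cover {α β : Type} [DecidableEq α] (s : Finset α) (T : Finset β)
    (G : β → Finset α) (f : α → ℝ) (hf : ∀ a, 0 ≤ f a) (h : ∀ a ∈ s, ∃ t ∈ T, a ∈ G t) {b : ℝ}
    (hb : ∀ t ∈ T, ∑ a ∈ G t, f a ≤ b) : ∑ a ∈ s, f a ≤ T.card * b := by
  refine (sum_le_sum_cover' s T G f hf h).trans ?_
  rw [← nsmul_eq_mul]
  exact sum_le_card_nsmul _ _ _ hb

/-- Parents pay for their new children. -/
theorem forest {α ι : Type} [DecidableEq α] (Old New : Finset α) (hd : Disjoint Old New)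
    (ch : α → Finset ι) (mk : α → ι → α) (full T pay : α → ℝ) (hfull : ∀ u, 0 ≤ full u)
    (h0 : ∀ u ∈ New, ∃ w ∈ Old ∪ New, ∃ x ∈ ch w, mk w x = u)
    (h1 : ∀ w ∈ Old ∪ New, ∑ x ∈ ch w, full (mk w x) ≤ pay w)
    (h2 : ∀ u ∈ New, T u + pay u ≤ full u) :
    ∑ u ∈ New, T u ≤ ∑ w ∈ Old, pay w := by
  have h3 : ∑ u ∈ New, full u ≤ ∑ w ∈ Old ∪ New, ∑ x ∈ ch w, full (mk w x) := by
    rw [sum_sigma']
    refine sum_le_sum_cover New ((Old ∪ New).sigma ch) (fun p => mk p.1 p.2) full hfull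
      fun u hu => ?_
    obtain ⟨w, hw, x, hx, rfl⟩ := h0 u hu
    exact ⟨⟨w, x⟩, mem_sigma.2 ⟨hw, hx⟩, rfl⟩
  have h4 := h3.trans (sum_le_sum h1)
  rw [sum_union hd] at h4
  have h5 := sum_le_sum h2
  rw [sum_add_distrib] at h5
  linarith

theorem sum_choose_le (m b : ℕ) : ∑ i ∈ range (b + 1), m.choose i ≤ (m + 1) ^ b := by
  induction b with
  | zero => simp
  | succ b ih =>
    rw [sum_range_succ, pow_succ]
    have h1 : m.choose (b + 1) ≤ m ^ (b + 1) := Nat.choose_le_pow m (b + 1)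
    have h2 : m ^ b ≤ (m + 1) ^ b := Nat.pow_le_pow_left (Nat.le_succ m) b
    have h3 : m ^ (b + 1) ≤ (m + 1) ^ b * m := by
      rw [pow_succ]
      exact Nat.mul_le_mul_right m h2
    nlinarith

theorem card_small_subsets {α : Type} [DecidableEq α] (s : Finset α) (b : ℕ) :
    (s.powerset.filter (fun I => I.card ≤ b)).card ≤ (s.card + 1) ^ b := by
  refine le_trans ?_ (sum_choose_le s.card b)
  calc _ ≤ ((range (b + 1)).biUnion fun i => s.powersetCard i).card := by
        refine card_le_card fun I hI => ?_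
        obtain ⟨h1, h2⟩ := mem_filter.1 hI
        exact mem_biUnion.2 ⟨I.card, mem_range.2 (Nat.lt_succ_of_le h2),
          mem_powersetCard.2 ⟨mem_powerset.1 h1, rfl⟩⟩
    _ ≤ _ := by
        refine card_biUnion_le.trans (sum_le_sum fun i _ => ?_)
        rw [card_powersetCard]

end Sums

end Pool.Agent.Lib.MP_802a39_co
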