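import Mathlib
import Pool.Agent.Lib.MP_802a39_co.Defs
import Pool.Agent.Lib.MP_802a39_co.Count
import Pool.Agent.Lib.MP_802a39_co.Asymp

/-! The lower bound: Maker wins. -/

namespace Pool.Agent.Lib.MP_802a39_co

open Finset Filter

theorem exists_orient {V : Type} (R : V → V → Prop) (hR : ∀ u w, R u w → ¬ R w u) :
    ∃ o : Sym2 V → V × V, (∀ e, s((o e).1, (o e).2) = e) ∧ ∀ u w, R u w → o s(u, w) = (u, w) := by
  have h : ∀ e : Sym2 V, ∃ p : V × V, s(p.1, p.2) = e ∧ ∀ u w, R u w → e = s(u, w) → p = (u, w) := by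
    intro e
    induction e using Sym2.ind with
    | _ a b =>
    by_cases hab : R a b
    · refine ⟨(a, b), rfl, fun u w h he => ?_⟩
      rcases Sym2.eq_iff.1 he with ⟨rfl, rfl⟩ | ⟨rfl, rfl⟩
      · rfl
      · exact absurd h (hR _ _ hab)
    · refine ⟨(b, a), Sym2.eq_swap, fun u w h he => ?_⟩
      rcases Sym2.eq_iff.1 he with ⟨rfl, rfl⟩ | ⟨rfl, rfl⟩
      · exact absurd h hab
      · rfl
  choose o h1 h2 using h
  exact ⟨o, h1, fun u w h => h2 _ u w h rfl⟩

theorem wins_of {k k' m n : ℕ} (hk : k ≤ k') (hmn : k' * m ≤ n) {y : ℝ} (hk0 : 0 < k')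
    (hm0 : 0 < m) (hy : 0 ≤ y) (hy8 : y ^ 8 = 2 ^ k')
    (hA : k' * (n : ℝ) ^ 2 * (k' * y / m) ^ 3 ≤ 1) (hB : 2 * k' ^ 2 * m ≤ y ^ 5)
    (hC : 2 ^ k'.choose 2 * (n : ℝ) ^ 2 ≤ (m : ℝ) ^ k') : MakerWinsGame k n := by
  intro T hT
  set v : Fin k' × Fin m → Fin n := fun p => Fin.castLE hmn (finProdFinEquiv p) with hvdef
  have hv : Function.Injective v := (Fin.castLE_injective hmn).comp finProdFinEquiv.injective
  have hne : ∀ i j, T i j → i ≠ j := fun i j h hij => hT.1 j (hij ▸ h)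
  obtain ⟨o, ho1, ho2⟩ := exists_orient
    (fun u w => ∃ i j a b, T i j ∧ u = v (Fin.castLE hk i, a) ∧ w = v (Fin.castLE hk j, b)) (by
      rintro u w ⟨i, j, a, b, h, rfl, rfl⟩ ⟨i', j', a', b', h', h1, h2⟩
      have h3 := Fin.castLE_injective hk (Prod.mk.inj (hv h1)).1
      have h4 := Fin.castLE_injective hk (Prod.mk.inj (hv h2)).1
      subst h3 h4
      exact (hT.2 _ _ (hne _ _ h)).1 h h')
  have hn : 1 ≤ n := le_trans (Nat.mul_pos hk0 hm0) hmn
  have hn' : (1 : ℝ) ≤ n := by exact_mod_cast hn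
  have key := win_multipartite v hv (U := (⊤ : SimpleGraph (Fin n)).edgeFinset) ?_
    (fun M U b => MakerWins T (M.image o) U b) ?_ ?_ ?_ (N := (n : ℝ) ^ 2) ?_ hk0 hm0
    (one_le_pow₀ hn') hy hy8 hA hB hC
  · simpa using key
  · intro φ e he
    obtain ⟨p, hp, rfl⟩ := mem_image.1 he
    rw [SimpleGraph.mem_edgeFinset, edge, SimpleGraph.mem_edgeSet, SimpleGraph.top_adj]
    exact fun h => (mem_filter.1 hp).2.ne (Prod.mk.inj (hv h)).1
  · rintro M b ⟨φ, hφ⟩
    refine MakerWins.over _ _ ⟨fun i => v (Fin.castLE hk i, φ (Fin.castLE hk i)),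
      fun i j h => Fin.castLE_injective hk (Prod.mk.inj (hv h)).1, fun i j h => ?_⟩
    refine mem_image.2 ⟨_, hφ ?_, ho2 _ _ ⟨i, j, _, _, h, rfl, rfl⟩⟩
    have hij : Fin.castLE hk i ≠ Fin.castLE hk j := fun h' => hne i j h (Fin.castLE_injective hk h')
    rcases lt_or_gt_of_ne hij with h1 | h1
    · exact mem_image.2 ⟨(Fin.castLE hk i, Fin.castLE hk j), by simpa [incr] using h1, rfl⟩
    · exact mem_image.2 ⟨(Fin.castLE hk j, Fin.castLE hk i), by simpa [incr] using h1,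
        Sym2.eq_swap⟩
  · intro M U x hx h
    refine MakerWins.maker _ _ (o x).1 (o x).2 (by rwa [ho1]) ?_
    rw [ho1]
    simpa [image_insert] using h
  · exact fun M U hU h => MakerWins.breaker _ _ hU h
  · rw [SimpleGraph.card_edgeFinset_top_eq_card_choose_two, Fintype.card_fin]
    exact_mod_cast Nat.choose_le_pow n 2

theorem lower_bound : ∀ ε : ℝ, 0 < ε → ∃ n₀ : ℕ, ∀ n : ℕ, n₀ ≤ n → ∀ k : ℕ,
    (k : ℝ) ≤ 2 * Real.logb 2 n - 2 * Real.logb 2 (Real.logb 2 n) - 3 - ε →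
    MakerWinsGame k n := by
  intro ε hε
  have h1 := ((Real.tendsto_logb_atTop (b := 2) (by norm_num)).comp
    tendsto_natCast_atTop_atTop).eventually (numeric (lt_min hε one_pos) (min_le_right ε 1))
  obtain ⟨n₀, hn₀⟩ := eventually_atTop.1 (h1.and (eventually_gt_atTop 0))
  refine ⟨n₀, fun n hn k hk => ?_⟩
  obtain ⟨h2, hn0⟩ := hn₀ n hn
  have hn0' : (0 : ℝ) < n := by exact_mod_cast hn0
  have hL : (2 : ℝ) ^ Real.logb 2 n = n := Real.rpow_logb (by norm_num) (by norm_num) hn0'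
  simp only [Function.comp, hL] at h2
  set B := 2 * Real.logb 2 n - 2 * Real.logb 2 (Real.logb 2 n) - 3 - min ε 1 with hB
  have h3 := min_le_left ε 1
  have h4 := min_le_right ε 1
  have hkB : (k : ℝ) ≤ B := by linarith
  have hB0 : 0 ≤ B := (Nat.cast_nonneg k).trans hkB
  have h5 := Nat.lt_floor_add_one B
  rcases Nat.eq_zero_or_pos ⌊B⌋₊ with h0 | hpos
  · have hk0 : k = 0 := by
      have := Nat.le_floor hkB
      omega
    subst hk0
    intro T hT
    have h6 : ∀ (N : ℕ) (M : Finset (Fin n × Fin n)) (U : Finset (Sym2 (Fin n))) (b : Bool),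
        U.card = N → MakerWins T M U b := by
      intro N
      induction N with
      | zero =>
        intro M U b h
        rw [card_eq_zero.1 h]
        exact MakerWins.over _ _ ⟨Fin.elim0, fun i => i.elim0, fun i => i.elim0⟩
      | succ N ih =>
        intro M U b h
        have hU : U.Nonempty := card_pos.1 (by omega)
        cases b
        · exact MakerWins.breaker _ _ hU fun e he => ih _ _ _ (by rw [card_erase_of_mem he]; omega)
        · obtain ⟨e, he⟩ := hU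
          induction e using Sym2.ind with
          | _ a b => exact MakerWins.maker _ _ a b he (ih _ _ _ (by rw [card_erase_of_mem he]; omega))
    exact h6 _ _ _ _ rfl
  obtain ⟨hk0, hm0, y, hy, hy8, hA, hB', hC⟩ := h2 ⌊B⌋₊ (n / ⌊B⌋₊) (by linarith)
    (Nat.floor_le hB0) (by exact_mod_cast Nat.mul_div_le n _)
    (by exact_mod_cast Nat.lt_mul_div_succ n hpos)
  exact wins_of (Nat.le_floor hkB) (Nat.mul_div_le n _) hk0 hm0 hy hy8 hA hB' hC

end Pool.Agent.Lib.MP_802a39_co
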