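import Pool.Agent.Lib.MP_802a39_co.Birth

/-! The node potential. -/

set_option autoImplicit false

namespace Pool.Agent.Lib.MP_802a39_co

open Finset

variable {k n w p : ℕ}

/-- A root set of vertices together with a family of embeddings. -/
abbrev Node (k n : ℕ) := Finset (Fin n) × Finset (Fin k → Fin n)

/-- The shape of the nodes that are counted. -/
structure valid (w : ℕ) (x : Node k n) : Prop where
  cA : x.1.card ≤ k
  cU : x.2.card ≤ w ^ 16
  inj : ∀ φ ∈ x.2, Function.Injective φ
  two : ∀ φ ∈ x.2, 2 ≤ (im φ ∩ x.1).card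
  far : ∀ φ ∈ x.2, (im φ ∩ x.1).card + w ^ 18 ≤ k
  pw : ∀ φ ∈ x.2, ∀ φ' ∈ x.2, φ ≠ φ' → (im φ ∩ im φ').card < 8 * w

/-- The embedding is compatible and almost complete. -/
def born (T : Fin k → Fin k → Prop) (w : ℕ) (D : Finset (Fin n × Fin n)) (φ : Fin k → Fin n) :
    Prop := compat T D φ ∧ (eE φ \ und D).card ≤ 2 * w ^ 43

/-- All shallow members are born. -/
def active (T : Fin k → Fin k → Prop) (w : ℕ) (D : Finset (Fin n × Fin n)) (x : Node k n) : Prop :=
  ∀ φ ∈ x.2, (im φ ∩ x.1).card < 8 * w → born T w D φ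

/-- The edges of a node. -/
def nX (x : Node k n) : Finset (Sym2 (Fin n)) := ed x.1 ∪ x.2.biUnion eE

/-- The vertices of a node. -/
def nV (x : Node k n) : Finset (Fin n) := x.1 ∪ x.2.biUnion im

/-- The exponent of the weight of a member. -/
noncomputable def gam (w p : ℕ) (A : Finset (Fin n)) (φ : Fin k → Fin n) : ℝ :=
  if (im φ ∩ A).card < 8 * w then k / p else 4 * k

/-- The exponent of the weight of a root. -/
noncomputable def cA (k p : ℕ) (A : Finset (Fin n)) : ℝ :=
  A.card * (A.card - 1) / 2 - A.card * (bb p + (k - 1) / 2) - 2 * k - 5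

/-- The value of a node. -/
noncomputable def nval (w p : ℕ) (y : Sym2 (Fin n) → ℝ) (x : Node k n) : ℝ :=
  ex (cA k p x.1 + ∑ φ ∈ x.2, gam w p x.1 φ) * W y (nX x)

/-- The factor of a vertex in the budget. -/
noncomputable def rv (k w p : ℕ) (VU : Finset (Fin n)) (v : Fin n) : ℝ :=
  if v ∈ VU then 1 else ex (-lam k w p)

/-- The budget of an arc. -/
noncomputable def rho (k w p : ℕ) (VU : Finset (Fin n)) (a : Fin n × Fin n) : ℝ :=
  2 * ex (k / p) * (ex (-(k / p) - 1 - 4 * w) * (rv k w p VU a.1 * rv k w p VU a.2))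

open Classical in
/-- The node potential. -/
noncomputable def Hnode (T : Fin k → Fin k → Prop) (w p : ℕ) (D : Finset (Fin n × Fin n))
    (y : Sym2 (Fin n) → ℝ) : ℝ :=
  ∑ x ∈ univ.filter (fun x : Node k n => valid w x ∧ active T w D x),
    (1 + ∑ a ∈ Dᶜ, rho k w p (nV x) a) * nval w p y x

theorem rv_nonneg (VU : Finset (Fin n)) (v : Fin n) : 0 ≤ rv k w p VU v := by
  unfold rv
  split_ifs
  · exact zero_le_one
  · exact ex_nonneg _

theorem rho_nonneg (VU : Finset (Fin n)) (a : Fin n × Fin n) : 0 ≤ rho k w p VU a :=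
  mul_nonneg (mul_nonneg zero_le_two (ex_nonneg _))
    (mul_nonneg (ex_nonneg _) (mul_nonneg (rv_nonneg _ _) (rv_nonneg _ _)))

theorem nval_nonneg {y : Sym2 (Fin n) → ℝ} (hy : ∀ e, 0 ≤ y e) (x : Node k n) :
    0 ≤ nval w p y x := mul_nonneg (ex_nonneg _) (W_nonneg hy _)

theorem Hnode_good (T : Fin k → Fin k → Prop) (D : Finset (Fin n × Fin n)) :
    Good (Hnode T w p D) := by
  refine Good.sum _ (fun x y => (1 + ∑ a ∈ Dᶜ, rho k w p (nV x) a) * nval w p y x) fun x _ => ?_
  refine Good.smul _ (add_nonneg zero_le_one (sum_nonneg fun a _ => rho_nonneg _ a)) ?_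
  exact Good.smul _ (ex_nonneg _) (Good.mono _)

theorem nval_le_Hnode {T : Fin k → Fin k → Prop} {D : Finset (Fin n × Fin n)}
    {y : Sym2 (Fin n) → ℝ} (hy : ∀ e, 0 ≤ y e) {x : Node k n} (h1 : valid w x)
    (h2 : active T w D x) : nval w p y x ≤ Hnode T w p D y := by
  classical
  refine le_trans ?_ (single_le_sum
    (f := fun x => (1 + ∑ a ∈ Dᶜ, rho k w p (nV x) a) * nval w p y x)
    (fun x _ => mul_nonneg (add_nonneg zero_le_one (sum_nonneg fun a _ => rho_nonneg _ a))
      (nval_nonneg hy x)) (mem_filter.2 ⟨mem_univ x, h1, h2⟩))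
  exact le_mul_of_one_le_left (nval_nonneg hy x)
    (le_add_of_nonneg_right (sum_nonneg fun a _ => rho_nonneg _ a))

theorem valid.card_nV (h : Num k n w p) {x : Node k n} (hx : valid w x) : (nV x).card ≤ k * k := by
  have h1 : (x.2.biUnion im).card ≤ x.2.card * k :=
    card_biUnion_le_card_mul _ _ _ fun φ _ => card_im_le φ
  have h2 := card_union_le x.1 (x.2.biUnion im)
  have h3 : w ^ 16 + 1 ≤ k := by
    have h4 := h.chk (i := 16) (by norm_num)
    have h5 := h.wpw (i := 16) (by norm_num)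
    have : (w : ℝ) ^ 16 + 1 ≤ k := by linarith [h.w2]
    exact_mod_cast this
  have h4 := hx.cA
  have h5 := Nat.mul_le_mul_right k hx.cU
  have h6 := Nat.mul_le_mul_right k h3
  unfold nV
  rw [add_mul] at h6
  omega

theorem rho_total (h : Num k n w p) {VU : Finset (Fin n)} (hVU : VU.card ≤ k * k)
    (s : Finset (Fin n × Fin n)) : ∑ a ∈ s, rho k w p VU a ≤ 1 := by
  refine (sum_le_sum_of_subset_of_nonneg (subset_univ s) fun a _ _ => rho_nonneg _ a).trans ?_
  unfold rho
  rw [← mul_sum, ← mul_sum, ← univ_product_univ, sum_product, ← sum_mul_sum]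
  have h1 : ∑ v, rv k w p VU v ≤ ex (2 * w) := by
    have h2 : ∑ v, rv k w p VU v ≤ ∑ v : Fin n, ((if v ∈ VU then 1 else 0) + ex (-lam k w p)) := by
      refine sum_le_sum fun v _ => ?_
      unfold rv
      split_ifs <;> linarith [ex_nonneg (-lam k w p)]
    rw [sum_add_distrib, sum_boole, sum_const, card_fin, nsmul_eq_mul] at h2
    have h3 : (n : ℝ) * ex (-lam k w p) ≤ 1 := by
      refine (mul_le_ex h.nlam le_rfl (ex_nonneg _)).trans (ex_le_one ?_)
      linarith
    have h4 : ((univ.filter fun v => v ∈ VU).card : ℝ) ≤ k * k := by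
      rw [filter_mem_eq_inter, univ_inter]
      exact_mod_cast hVU
    linarith [h.kk]
  have h2 := mul_le_ex h1 h1 (sum_nonneg fun v _ => rv_nonneg _ v)
  rw [two_mul_ex]
  refine (mul_le_ex le_rfl (mul_le_ex le_rfl h2 (mul_nonneg (sum_nonneg fun v _ => rv_nonneg _ v)
    (sum_nonneg fun v _ => rv_nonneg _ v))) (mul_nonneg (ex_nonneg _)
    (mul_nonneg (sum_nonneg fun v _ => rv_nonneg _ v)
    (sum_nonneg fun v _ => rv_nonneg _ v)))).trans (ex_le_one (le_of_eq ?_))
  ring

theorem nval_insert (y : Sym2 (Fin n) → ℝ) (x : Node k n) {φ : Fin k → Fin n} (hφ : φ ∉ x.2) :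
    nval w p y (x.1, insert φ x.2) = nval w p y x * (ex (gam w p x.1 φ) * W y (eE φ \ nX x)) := by
  have h1 : nX (x.1, insert φ x.2) = nX x ∪ eE φ := by
    simp only [nX, biUnion_insert]
    rw [union_comm (eE φ), union_assoc]
  unfold nval
  rw [h1, W_union_sdiff, sum_insert hφ]
  simp only [ex_add]
  ring

theorem valid.erase {x : Node k n} (hx : valid w x) (φ : Fin k → Fin n) :
    valid w (x.1, x.2.erase φ) :=
  ⟨hx.cA, (card_le_card (erase_subset _ _)).trans hx.cU, fun ψ h => hx.inj ψ (mem_of_mem_erase h),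
    fun ψ h => hx.two ψ (mem_of_mem_erase h), fun ψ h => hx.far ψ (mem_of_mem_erase h),
    fun ψ h ψ' h' => hx.pw ψ (mem_of_mem_erase h) ψ' (mem_of_mem_erase h')⟩

theorem valid.overlap {x : Node k n} {φ : Fin k → Fin n} (hφ : φ ∉ x.2)
    (hx : valid w (x.1, insert φ x.2)) :
    (im φ ∩ nV x).card ≤ (im φ ∩ x.1).card + 8 * w ^ 17 := by
  have h1 : im φ ∩ nV x = (im φ ∩ x.1) ∪ x.2.biUnion fun ψ => im φ ∩ im ψ := by
    rw [nV, inter_union_distrib_left, inter_biUnion]
  have h2 : (x.2.biUnion fun ψ => im φ ∩ im ψ).card ≤ x.2.card * (8 * w) :=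
    card_biUnion_le_card_mul _ _ _ fun ψ hψ => (hx.pw φ (mem_insert_self _ _) ψ
      (mem_insert_of_mem hψ) (ne_of_mem_of_not_mem hψ hφ).symm).le
  have h3 : x.2.card ≤ w ^ 16 := (card_le_card (subset_insert φ _)).trans hx.cU
  have h4 := Nat.mul_le_mul_right (8 * w) h3
  have h5 : w ^ 16 * (8 * w) = 8 * w ^ 17 := by ring
  have h6 := card_union_le (im φ ∩ x.1) (x.2.biUnion fun ψ => im φ ∩ im ψ)
  rw [h1]
  omega

theorem W_child_le {y : Sym2 (Fin n) → ℝ} (hy0 : ∀ e, 0 ≤ y e) (hy1 : ∀ e, y e ≤ 1) (x : Node k n)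
    (φ : Fin k → Fin n) {V' : Finset (Fin n)} (hV : nV x ⊆ V') :
    W y (eE φ \ nX x) ≤ W y (eE φ \ ed (im φ ∩ V')) := by
  refine W_anti hy0 hy1 fun e he => mem_sdiff.2 ⟨(mem_sdiff.1 he).1, fun h1 => ?_⟩
  refine (mem_sdiff.1 he).2 ?_
  rw [ed_inter]
  refine mem_inter.2 ⟨(mem_sdiff.1 he).1, ed_mono hV ?_⟩
  rcases mem_union.1 h1 with h2 | h2
  · exact ed_mono subset_union_left h2
  · obtain ⟨ψ, h3, h4⟩ := mem_biUnion.1 h2
    exact ed_mono ((subset_biUnion_of_mem im h3).trans subset_union_right) h4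

theorem root_sum (h : Num k n w p) :
    ∑ A : Finset (Fin n), ex (cA k p A) * (1 / 2) ^ (ed A).card ≤ 1 / 32 := by
  have h1 : ∀ A : Finset (Fin n), ex (cA k p A) * (1 / 2) ^ (ed A).card =
      ex (-(2 * k) - 5) * (ex (-(bb p + (k - 1) / 2)) ^ A.card * 1 ^ (n - A.card)) := by
    intro A
    rw [half_pow, card_ed, one_pow, mul_one, ex_pow, ex_mul, ex_mul]
    congr 1
    unfold cA
    ring
  rw [sum_congr rfl fun A _ => h1 A, ← mul_sum, Fin.sum_pow_mul_eq_add_pow]
  set x := ex (-(bb p + (k - 1) / 2)) with hx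
  have hx0 : 0 ≤ x := ex_nonneg _
  have h2 : (x + 1) ^ n ≤ ex (2 * k) := by
    refine (pow_le_pow_left₀ (by positivity) (Real.add_one_le_exp x) n).trans ?_
    rw [← Real.exp_nat_mul]
    refine le_trans (Real.exp_le_exp.2 ?_) (exp_le_ex (by positivity))
    refine (mul_le_mul_of_nonneg_right h.nk hx0).trans (le_of_eq ?_)
    rw [hx, mul_assoc, ex_mul, add_neg_cancel, ex_zero, mul_one]
  refine (mul_le_ex le_rfl h2 (by positivity)).trans (le_of_eq ?_)
  rw [show -(2 * (k : ℝ)) - 5 + 2 * k = -(5 : ℕ) by push_cast; ring, ← half_pow]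
  norm_num

theorem deep_sum (h : Num k n w p) {VU : Finset (Fin n)} (hVU : VU.card ≤ k * k)
    (C : Finset (Fin k → Fin n)) (hC : ∀ φ ∈ C, Function.Injective φ ∧
      8 * w ≤ (im φ ∩ VU).card ∧ 2 * (im φ ∩ VU).card + w ^ 18 ≤ 2 * k) :
    ∑ φ ∈ C, W (fun _ => 1 / 2) (eE φ \ ed (im φ ∩ VU)) ≤ ex (-(4 * k) - 2) := by
  rcases C.eq_empty_or_nonempty with rfl | ⟨φ0, hφ0⟩
  · simpa using ex_nonneg _
  have hw := h.w2
  have hk := h.wk
  obtain ⟨u, -⟩ : (im φ0 ∩ VU).Nonempty := by
    have h1 := (hC φ0 hφ0).2.1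
    have h2 := h.wp
    have h3 := h.p2
    exact card_pos.1 (by omega)
  refine (sum_le_cover C (univ.filter fun J : Finset (Fin k) =>
      8 * w ≤ J.card ∧ 2 * J.card + w ^ 18 ≤ 2 * k)
    (fun J => Fintype.piFinset fun i => if i ∈ J then VU else if i ∈ univ then univ else {u}) _
    (fun J _ => ex (-((k - J.card) * (k + J.card - 1) / 2))) (fun _ _ => ex_nonneg _)
    fun φ hφ => ?_).trans ?_
  · obtain ⟨hinj, h1, h2⟩ := hC φ hφ
    have hcard : (univ.filter fun i => φ i ∈ VU).card = (im φ ∩ VU).card := by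
      rw [← image_filter_mem, card_image_of_injective _ hinj]
    refine ⟨univ.filter fun i => φ i ∈ VU, mem_filter.2 ⟨mem_univ _, hcard ▸ h1, hcard ▸ h2⟩,
      Fintype.mem_piFinset.2 fun i => ?_, ?_⟩
    · split_ifs with h3 h4
      · exact (mem_filter.1 h3).2
      · exact mem_univ _
      · exact absurd (mem_univ _) h4
    · rw [W_half, half_pow, hcard]
      refine ex_le (neg_le_neg ?_)
      have h4 : ((eE φ).card : ℝ) ≤ (eE φ \ ed (im φ ∩ VU)).card + (ed (im φ ∩ VU)).card := by
        exact_mod_cast card_le_card_sdiff_add_card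
      rw [card_eE hinj, card_ed] at h4
      linarith
  · refine (sum_le_card_nsmul _ _ (ex (-(6 * k))) fun J hJ => ?_).trans ?_
    · obtain ⟨h1, h2⟩ := (mem_filter.1 hJ).2
      rw [sum_const, card_pi3, nsmul_eq_mul, ← compl_eq_univ_sdiff]
      push_cast
      have h3 : (VU.card : ℝ) ≤ ex (2 * w) := by
        have : (VU.card : ℝ) ≤ k * k := by exact_mod_cast hVU
        linarith [h.kk]
      refine (mul_le_ex (mul_le_ex (pow_le_ex (by positivity) h3 _)
        (pow_le_ex (by positivity) h.nlam _) (by positivity)) le_rfl (ex_nonneg _)).trans (ex_le ?_)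
      rw [card_compl_real]
      have e1 : 8 * (w : ℝ) ≤ J.card := by exact_mod_cast h1
      have e2 : 2 * (J.card : ℝ) + (w : ℝ) ^ 18 ≤ 2 * k := by exact_mod_cast h2
      have h18 := h.wpw (i := 18) (by norm_num)
      set j : ℝ := (J.card : ℝ)
      have f1 : (k - j) * lam k w p + -((k - j) * (k + j - 1) / 2) =
          (k - j) * (w + bb p - j / 2) := by
        unfold lam
        ring
      have f2 : (k - j) * (w + bb p - j / 2) ≤ (k - j) * (-(j / 4)) :=
        mul_le_mul_of_nonneg_left (by linarith [h.b1]) (by linarith)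
      have f3 : j * (2 * w - (k - j) / 4) ≤ -(6 * k) := by
        by_cases h4 : 2 * j ≤ k
        · have f4 : j * (2 * w - (k - j) / 4) ≤ j * (-(k / 16)) :=
            mul_le_mul_of_nonneg_left (by linarith) (by linarith)
          have f5 : 96 * (k / 16 : ℝ) ≤ j * (k / 16) :=
            mul_le_mul_of_nonneg_right (by linarith) (by linarith)
          linarith
        · have f4 : j * (2 * w - (k - j) / 4) ≤ j * (-12) :=
            mul_le_mul_of_nonneg_left (by linarith) (by linarith)
          linarith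
      linarith
    · rw [nsmul_eq_mul]
      have h1 : (((univ.filter fun J : Finset (Fin k) =>
          8 * w ≤ J.card ∧ 2 * J.card + w ^ 18 ≤ 2 * k).card : ℕ) : ℝ) ≤ ex k := by
        have h2 := card_le_univ (univ.filter fun J : Finset (Fin k) =>
          8 * w ≤ J.card ∧ 2 * J.card + w ^ 18 ≤ 2 * k)
        rw [Fintype.card_finset, Fintype.card_fin] at h2
        rw [ex_nat]
        exact_mod_cast h2
      exact (mul_le_ex h1 le_rfl (ex_nonneg _)).trans (ex_le (by linarith))

theorem Hnode_init (h : Num k n w p) (T : Fin k → Fin k → Prop) :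
    Hnode T w p (∅ : Finset (Fin n × Fin n)) (fun _ => 1 / 2) ≤ 3 / 32 := by
  classical
  have hy0 : ∀ e : Sym2 (Fin n), (0 : ℝ) ≤ (fun _ => 1 / 2) e := fun _ => by norm_num
  have hy1 : ∀ e : Sym2 (Fin n), (fun _ => (1 / 2 : ℝ)) e ≤ 1 := fun _ => by norm_num
  set Act := univ.filter (fun x : Node k n => valid w x ∧ active T w ∅ x) with hAct
  have h1 : Hnode T w p (∅ : Finset (Fin n × Fin n)) (fun _ => 1 / 2) ≤
      ∑ x ∈ Act, 2 * nval w p (fun _ => 1 / 2) x := by
    refine sum_le_sum fun x hx => mul_le_mul_of_nonneg_right ?_ (nval_nonneg hy0 x)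
    linarith [rho_total h ((mem_filter.1 hx).2.1.card_nV h) (∅ : Finset (Fin n × Fin n))ᶜ]
  have h2 := forest (Act.filter fun x => x.2 = ∅) (Act.filter fun x => ¬ x.2 = ∅)
    (disjoint_filter_filter_not _ _ _)
    (fun x => univ.filter fun φ => φ ∉ x.2 ∧ valid w (x.1, insert φ x.2) ∧
      8 * w ≤ (im φ ∩ x.1).card) (fun x φ => (x.1, insert φ x.2))
    (fun x => 3 * nval w p (fun _ => 1 / 2) x) (fun x => 2 * nval w p (fun _ => 1 / 2) x)
    (fun x => nval w p (fun _ => 1 / 2) x) (fun x => by linarith [nval_nonneg (w := w) (p := p) hy0 x])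
    (fun x hx => by
      obtain ⟨hx1, hx2⟩ := mem_filter.1 hx
      obtain ⟨hv, ha⟩ := (mem_filter.1 hx1).2
      obtain ⟨φ, hφ⟩ := nonempty_iff_ne_empty.2 hx2
      refine ⟨(x.1, x.2.erase φ), ?_, φ, mem_filter.2 ⟨mem_univ _, notMem_erase _ _, ?_, ?_⟩, ?_⟩
      · rw [filter_union_filter_not_eq]
        exact mem_filter.2 ⟨mem_univ _, hv.erase φ, fun ψ hψ => ha ψ (mem_of_mem_erase hψ)⟩
      · simp only [insert_erase hφ]
        exact hv
      · by_contra h3
        have h4 := (ha φ hφ (not_le.1 h3)).2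
        rw [show und (∅ : Finset (Fin n × Fin n)) = ∅ from rfl, sdiff_empty] at h4
        have h5 : ((eE φ).card : ℝ) ≤ 2 * (w : ℝ) ^ 43 := by exact_mod_cast h4
        rw [card_eE (hv.inj φ hφ)] at h5
        have h6 := h.kl'
        have h7 := h.ch (i := 43) (j := 48) (by norm_num)
        have h8 := h.wpw (i := 24) (by norm_num)
        have h9 := h.wpw (i := 43) (by norm_num)
        have h10 := h.w2
        have h11 : (w : ℝ) ^ 24 * (w ^ 24 / 2) ≤ k * (k - 1) :=
          mul_le_mul h6 (by linarith) (by positivity) (by positivity)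
        nlinarith
      · simp only [insert_erase hφ])
    (fun x hx => by
      rw [filter_union_filter_not_eq] at hx
      have hv := (mem_filter.1 hx).2.1
      have h3 := deep_sum h (hv.card_nV h) (univ.filter fun φ => φ ∉ x.2 ∧
        valid w (x.1, insert φ x.2) ∧ 8 * w ≤ (im φ ∩ x.1).card) fun φ hφ => by
          obtain ⟨h3, h4, h5⟩ := (mem_filter.1 hφ).2
          refine ⟨h4.inj φ (mem_insert_self _ _),
            h5.trans (card_le_card (inter_subset_inter Subset.rfl subset_union_left)), ?_⟩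
          have h6 := h4.overlap h3
          have h7 : (im φ ∩ x.1).card + w ^ 18 ≤ k := h4.far φ (mem_insert_self _ _)
          have h8 : 16 * w ^ 17 ≤ w ^ 18 := by
            have h9 := h.ch (i := 17) (j := 18) (by norm_num)
            have h10 : (0 : ℝ) ≤ (w : ℝ) ^ 17 := by positivity
            have : 16 * (w : ℝ) ^ 17 ≤ (w : ℝ) ^ 18 := by linarith
            exact_mod_cast this
          omega
      calc _ ≤ ∑ φ ∈ univ.filter fun φ => φ ∉ x.2 ∧ valid w (x.1, insert φ x.2) ∧
            8 * w ≤ (im φ ∩ x.1).card, nval w p (fun _ => 1 / 2) x * (4 * ex (4 * k)) *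
              W (fun _ => 1 / 2) (eE φ \ ed (im φ ∩ nV x)) := by
            refine sum_le_sum fun φ hφ => ?_
            obtain ⟨h3, _, h5⟩ := (mem_filter.1 hφ).2
            rw [nval_insert _ x h3, gam, if_neg (not_lt.2 h5)]
            have h6 := W_child_le hy0 hy1 x φ Subset.rfl
            have h7 := W_nonneg hy0 (eE φ \ nX x)
            have h8 := mul_nonneg (nval_nonneg (w := w) (p := p) hy0 x) (ex_nonneg (4 * k))
            nlinarith
        _ ≤ nval w p (fun _ => 1 / 2) x * (4 * ex (4 * k)) * ex (-(4 * k) - 2) := by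
            rw [← mul_sum]
            exact mul_le_mul_of_nonneg_left h3 (mul_nonneg (nval_nonneg hy0 x)
              (mul_nonneg (by norm_num) (ex_nonneg _)))
        _ = _ := by
            rw [mul_assoc, four_mul_ex, ex_mul,
              show (2 : ℝ) + 4 * k + (-(4 * k) - 2) = 0 by ring, ex_zero, mul_one])
    (fun x _ => by linarith)
  have h3 : ∑ x ∈ Act.filter fun x => x.2 = ∅, nval w p (fun _ => 1 / 2) x ≤ 1 / 32 := by
    refine (sum_le_sum_cover _ (univ : Finset (Finset (Fin n))) (fun A => (A, ∅)) _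
      (nval_nonneg hy0) fun x hx => ⟨x.1, mem_univ _, ?_⟩).trans (le_trans (le_of_eq ?_) (root_sum h))
    · exact Prod.ext rfl (mem_filter.1 hx).2.symm
    · refine sum_congr rfl fun A _ => ?_
      simp only [nval, nX, sum_empty, add_zero, biUnion_empty, union_empty, W_half]
  rw [← sum_filter_add_sum_filter_not Act (fun x => x.2 = ∅), ← mul_sum] at h1
  linarith

theorem ex_card_sdiff (VU : Finset (Fin n)) {u v : Fin n} (huv : u ≠ v) (X : ℝ) :
    ex (X - (({u, v} : Finset (Fin n)) \ VU).card * lam k w p) =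
      ex X * (rv k w p VU u * rv k w p VU v) := by
  unfold rv
  by_cases hu : u ∈ VU <;> by_cases hv : v ∈ VU
  · simp [insert_sdiff_of_mem, hu, hv, sdiff_eq_empty_iff_subset.2 (singleton_subset_iff.2 hv)]
  · simp [insert_sdiff_of_mem, hu, hv, sdiff_eq_self_of_disjoint (disjoint_singleton_left.2 hv),
      sub_eq_add_neg, ex_add]
  · simp [insert_sdiff_of_notMem, hu, hv, sdiff_eq_empty_iff_subset.2 (singleton_subset_iff.2 hv),
      sub_eq_add_neg, ex_add]
  · rw [sdiff_eq_self_of_disjoint (by simp [hu, hv]), card_pair huv, if_neg hu, if_neg hv,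
      ex_mul, ex_mul]
    congr 1
    push_cast
    ring

theorem Hnode_step (h : Num k n w p) {T : Fin k → Fin k → Prop} {blk : Fin k → ℕ}
    {I0 : Finset (Fin k)} (hT : Tour w T blk I0) (D : Finset (Fin n × Fin n))
    (Q : Finset (Sym2 (Fin n))) {u v : Fin n} (huv : u ≠ v) (hD : s(u, v) ∉ und D)
    (hst : Stat k n w p (yOf (insert (u, v) D) Q)) :
    Hnode T w p (insert (u, v) D) (yOf (insert (u, v) D) Q) ≤
      Hnode T w p D (yOf (insert (u, v) D) Q) := by
  classical
  set y := yOf (insert (u, v) D) Q with hy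
  have hy0 : ∀ e, 0 ≤ y e := yOf_nonneg _ Q
  have hy1 : ∀ e, y e ≤ 1 := yOf_le_one _ Q
  have hD' : (u, v) ∉ D := fun h1 => hD (mk_mem_und.2 (Or.inl h1))
  have hsum : ∀ x : Node k n, (1 + ∑ a ∈ (insert (u, v) D)ᶜ, rho k w p (nV x) a) * nval w p y x +
      rho k w p (nV x) (u, v) * nval w p y x =
      (1 + ∑ a ∈ Dᶜ, rho k w p (nV x) a) * nval w p y x := by
    intro x
    rw [compl_insert, ← add_sum_erase Dᶜ _ (mem_compl.2 hD')]
    ring
  set Act := univ.filter (fun x : Node k n => valid w x ∧ active T w (insert (u, v) D) x) with hAct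
  have h2 := forest (Act.filter fun x => active T w D x) (Act.filter fun x => ¬ active T w D x)
    (disjoint_filter_filter_not _ _ _)
    (fun x => univ.filter fun φ => φ ∉ x.2 ∧ valid w (x.1, insert φ x.2) ∧
      (im φ ∩ x.1).card < 8 * w ∧ born T w (insert (u, v) D) φ ∧ ¬ born T w D φ)
    (fun x φ => (x.1, insert φ x.2)) (fun x => 2 * nval w p y x)
    (fun x => (1 + ∑ a ∈ (insert (u, v) D)ᶜ, rho k w p (nV x) a) * nval w p y x)
    (fun x => rho k w p (nV x) (u, v) * nval w p y x)
    (fun x => by linarith [nval_nonneg (w := w) (p := p) hy0 x])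
    (fun x hx => by
      obtain ⟨hx1, hx2⟩ := mem_filter.1 hx
      obtain ⟨hv, ha⟩ := (mem_filter.1 hx1).2
      unfold active at hx2
      push Not at hx2
      obtain ⟨φ, hφ, h3, h4⟩ := hx2
      refine ⟨(x.1, x.2.erase φ), ?_, φ, mem_filter.2
        ⟨mem_univ _, notMem_erase _ _, ?_, h3, ha φ hφ h3, h4⟩, ?_⟩
      · rw [filter_union_filter_not_eq]
        exact mem_filter.2 ⟨mem_univ _, hv.erase φ, fun ψ hψ => ha ψ (mem_of_mem_erase hψ)⟩
      · simp only [insert_erase hφ]
        exact hv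
      · simp only [insert_erase hφ])
    (fun x hx => by
      rw [filter_union_filter_not_eq] at hx
      have hv := (mem_filter.1 hx).2.1
      have h3 := birth h hT (insert (u, v) D) Q hst (nV x) (hv.card_nV h) (u := u) (v := v)
        (univ.filter fun φ => φ ∉ x.2 ∧ valid w (x.1, insert φ x.2) ∧
          (im φ ∩ x.1).card < 8 * w ∧ born T w (insert (u, v) D) φ ∧ ¬ born T w D φ) fun φ hφ => by
          obtain ⟨h3, h4, h5, h6, h7⟩ := (mem_filter.1 hφ).2
          have h8 : 2 * w ^ 43 < (eE φ \ und D).card := by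
            by_contra h9
            exact h7 ⟨fun i j hij h10 => h6.1 i j hij (mem_insert_of_mem h10), not_lt.1 h9⟩
          have h9 := h6.2
          have h10 : s(u, v) ∈ eE φ := by
            by_contra h11
            rw [und_insert, sdiff_insert_of_notMem h11] at h9
            omega
          have h11 : eE φ \ und D ⊆ insert s(u, v) (eE φ \ und (insert (u, v) D)) := by
            intro e he
            simp only [und_insert, mem_insert, mem_sdiff] at he ⊢
            tauto
          have h12 := (card_le_card h11).trans (card_insert_le _ _)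
          have h13 := h4.overlap h3
          have h14 : 8 * w + 2 ≤ w ^ 17 := by
            have h15 := h.wpw (i := 17) (by norm_num)
            have : 8 * (w : ℝ) + 2 ≤ (w : ℝ) ^ 17 := by linarith [h.w2]
            exact_mod_cast this
          refine ⟨h4.inj φ (mem_insert_self _ _), h6.1, by omega, (mk_mem_ed.1 h10).1,
            (mk_mem_ed.1 h10).2.1, (h4.two φ (mem_insert_self _ _)).trans
              (card_le_card (inter_subset_inter Subset.rfl subset_union_left)), by omega⟩
      rw [ex_card_sdiff _ huv] at h3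
      calc _ ≤ ∑ φ ∈ univ.filter fun φ => φ ∉ x.2 ∧ valid w (x.1, insert φ x.2) ∧
            (im φ ∩ x.1).card < 8 * w ∧ born T w (insert (u, v) D) φ ∧ ¬ born T w D φ,
            nval w p y x * (2 * ex (k / p)) *
              W y (eE φ \ ed (im φ ∩ insert u (insert v (nV x)))) := by
            refine sum_le_sum fun φ hφ => ?_
            obtain ⟨h3, _, h5, _⟩ := (mem_filter.1 hφ).2
            rw [nval_insert _ x h3, gam, if_pos h5]
            have h6 := W_child_le hy0 hy1 x φ
              ((subset_insert v _).trans (subset_insert u (insert v (nV x))))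
            have h8 := mul_nonneg (nval_nonneg (w := w) (p := p) hy0 x) (ex_nonneg (k / p))
            nlinarith
        _ ≤ _ := by
            rw [← mul_sum]
            refine (mul_le_mul_of_nonneg_left h3 (mul_nonneg (nval_nonneg hy0 x)
              (mul_nonneg (by norm_num) (ex_nonneg _)))).trans (le_of_eq ?_)
            unfold rho
            ring)
    (fun x hx => by
      rw [hsum]
      refine mul_le_mul_of_nonneg_right ?_ (nval_nonneg hy0 x)
      linarith [rho_total h ((mem_filter.1 (mem_filter.1 hx).1).2.1.card_nV h) Dᶜ])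
  unfold Hnode
  rw [← sum_filter_add_sum_filter_not Act (fun x => active T w D x)]
  refine (add_le_add le_rfl h2).trans ?_
  rw [← sum_add_distrib, sum_congr rfl fun x _ => hsum x]
  refine sum_le_sum_of_subset_of_nonneg (fun x hx => ?_) fun x _ _ =>
    mul_nonneg (add_nonneg zero_le_one (sum_nonneg fun a _ => rho_nonneg _ a)) (nval_nonneg hy0 x)
  exact mem_filter.2 ⟨mem_univ _, (mem_filter.1 (mem_filter.1 hx).1).2.1, (mem_filter.1 hx).2⟩

end Pool.Agent.Lib.MP_802a39_co
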