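import Pool.Agent.Lib.MP_802a39_co.Theta

/-! The parameters, the static potentials and the closed bound for pinned sums. -/

set_option autoImplicit false

namespace Pool.Agent.Lib.MP_802a39_co

open Finset

/-- Bound on the size of a cluster. -/
def kap : ℕ := 5 ^ 13

/-- Bound on the number of processed neighbours. -/
def qq (p : ℕ) : ℕ := kap * (8 * p + 1)

/-- The exponent of the growth rate. -/
noncomputable def bb (p : ℕ) : ℝ := 1 - 2 / p

/-- The exponent bounding the number of vertices. -/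
noncomputable def lam (k w p : ℕ) : ℝ := w + bb p + (k - 1) / 2

/-- The exponent of the mean number of extensions of `j` pinned roles. -/
noncomputable def mu (k p : ℕ) (j : ℝ) : ℝ := (k - j) * (bb p - j / 2)

/-- The numerical assumptions. -/
structure Num (k n w p : ℕ) : Prop where
  p2 : 2 ≤ p
  kl : w ^ 24 ≤ k
  ku : k ≤ 2 * w ^ 24
  k2 : k + 2 ≤ 2 ^ w
  wp : 1000 * p ≤ w
  wa : (2 * qq p + 2) * (qq p + 1) ≤ w
  wM : (2 * qq p + 2) * kap ≤ w
  nb : (n : ℝ) * (1 + 2 / p) ≤ k * ex (bb p + (k - 1) / 2)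

theorem ex_two : ex 2 = 4 := by
  rw [show (2 : ℝ) = (2 : ℕ) by norm_num, ex_nat]
  norm_num

theorem four_mul_ex (x : ℝ) : 4 * ex x = ex (2 + x) := by rw [ex_add, ex_two]

variable {k n w p : ℕ}

namespace Num

variable (h : Num k n w p)
include h

theorem p2' : (2 : ℝ) ≤ p := by exact_mod_cast h.p2

theorem wp' : 1000 * (p : ℝ) ≤ w := by exact_mod_cast h.wp

theorem w2 : (2000 : ℝ) ≤ w := by linarith [h.p2', h.wp']

theorem kl' : (w : ℝ) ^ 24 ≤ k := by exact_mod_cast h.kl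

theorem ku' : (k : ℝ) ≤ 2 * (w : ℝ) ^ 24 := by exact_mod_cast h.ku

theorem chain (i : ℕ) : 1000 * (w : ℝ) ^ i ≤ (w : ℝ) ^ (i + 1) := by
  rw [pow_succ, mul_comm]
  exact mul_le_mul_of_nonneg_left (by linarith [h.w2]) (by positivity)

theorem pw {i j : ℕ} (hij : i ≤ j) : (w : ℝ) ^ i ≤ (w : ℝ) ^ j :=
  pow_le_pow_right₀ (by linarith [h.w2]) hij

theorem ch {i j : ℕ} (hij : i < j) : 1000 * (w : ℝ) ^ i ≤ (w : ℝ) ^ j :=
  (h.chain i).trans (h.pw hij)

theorem chk {i : ℕ} (hi : i < 24) : 1000 * (w : ℝ) ^ i ≤ k := (h.ch hi).trans h.kl'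

theorem wk : 1000 * (w : ℝ) ≤ k := by simpa using h.chk (i := 1) (by norm_num)

theorem wpw {i : ℕ} (hi : 2 ≤ i) : 1000 * (w : ℝ) ≤ (w : ℝ) ^ i := by
  simpa using h.ch (i := 1) (j := i) hi

theorem b0 : 0 ≤ bb p := by
  have := h.p2'
  unfold bb
  rw [sub_nonneg, div_le_one (by linarith)]
  exact this

theorem b1 : bb p ≤ 1 := by
  have := h.p2'
  unfold bb
  have : (0 : ℝ) ≤ 2 / p := by positivity
  linarith

theorem k2' : (k : ℝ) + 2 ≤ ex w := by
  rw [ex_nat]
  exact_mod_cast h.k2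

theorem kw : (k : ℝ) ≤ ex w := by linarith [h.k2']

theorem nk : (n : ℝ) ≤ k * ex (bb p + (k - 1) / 2) := by
  refine le_trans ?_ h.nb
  have : (0 : ℝ) ≤ n * (2 / p) := by positivity
  linarith

theorem nlam : (n : ℝ) ≤ ex (lam k w p) := by
  refine h.nk.trans ((mul_le_ex h.kw le_rfl (ex_nonneg _)).trans (ex_le (le_of_eq ?_)))
  unfold lam
  ring

theorem lam0 : 0 ≤ lam k w p := by
  unfold lam
  linarith [h.b0, h.wk, h.w2]

theorem lamk : lam k w p + 1 ≤ k := by
  unfold lam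
  linarith [h.b1, h.wk, h.w2]

theorem n2k : n + 1 ≤ 2 ^ k := by
  have h1 : (n : ℝ) + 1 ≤ ex k := by
    refine le_trans ?_ (ex_le h.lamk)
    rw [← two_mul_ex]
    linarith [h.nlam, one_le_ex h.lam0]
  rw [ex_nat] at h1
  exact_mod_cast h1

end Num

/-- What the static potentials give. -/
structure Stat (k n w p : ℕ) (y : Sym2 (Fin n) → ℝ) : Prop where
  s1 : ∀ A : Finset (Fin n), A.card ≤ 18 * w ^ 17 →
    ∑ x ∈ Aᶜ, W y (star x A) ≤ k * ex (bb p + (k - 1) / 2 - A.card)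
  s2 : ∀ (J : Finset (Fin k)) (ρ : Fin k → Fin n) (G : Fin n → Fin k → ℕ),
    (∀ x i, G x i < k + 2) → SpreadAt (pin (embs k n) J ρ) (fun φ => ed (Jᶜ.image φ))
      (fun φ => ∏ i ∈ Jᶜ, cval (G (φ i) i)) 2 ((4 + k + k * k + w * (k * n) : ℕ) : ℝ) y
  s3 : ∀ (J : Finset (Fin k)) (ρ : Fin k → Fin n),
    SpreadAt (pin (embs k n) J ρ) (fun φ => eE φ \ ed (J.image ρ)) (fun _ => 1) 2
      ((4 + k + k * k : ℕ) : ℝ) y

theorem exists_stat1 (h : Num k n w p) :
    ∃ F : (Sym2 (Fin n) → ℝ) → ℝ, Good F ∧ F (fun _ => 1 / 2) ≤ 1 / 16 ∧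
      ∀ y : Sym2 (Fin n) → ℝ, (∀ e, 0 ≤ y e) → (∀ e, y e ≤ 1) → F y ≤ 1 →
        ∀ A : Finset (Fin n), A.card ≤ 18 * w ^ 17 →
          ∑ x ∈ Aᶜ, W y (star x A) ≤ k * ex (bb p + (k - 1) / 2 - A.card) := by
  have hp := h.p2'
  have hp0 : (0 : ℝ) < p := by linarith
  obtain ⟨F, h1, h2, h3⟩ := exists_spread
    ((univ : Finset (Fin n)).powerset.filter fun A => A.card ≤ k) (fun A => Aᶜ)
    (fun A x => star x A) (fun _ _ => 1) (fun _ _ => zero_le_one) (p * (k * k + 4))
    (Λ := 1 + 1 / p) (by positivity) (by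
      have h1 := card_small_subsets (univ : Finset (Fin n)) k
      rw [card_fin] at h1
      have h2 : 16 * ((univ : Finset (Fin n)).powerset.filter fun A => A.card ≤ k).card ≤
          2 ^ (k * k + 4) := by
        have h3 := Nat.pow_le_pow_left h.n2k k
        rw [← pow_mul] at h3
        rw [pow_add]
        omega
      have h3 : (2 : ℝ) ≤ (1 + 1 / p) ^ p := by
        have := one_add_mul_le_pow (a := (1 / p : ℝ)) (by
          have : (0 : ℝ) ≤ 1 / p := by positivity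
          linarith) p
        rwa [mul_one_div_cancel hp0.ne', one_add_one_eq_two] at this
      rw [pow_mul]
      refine le_trans ?_ (pow_le_pow_left₀ zero_le_two h3 _)
      exact_mod_cast h2)
  refine ⟨F, h1, h2, fun y hy0 hy1 hF A hA => ?_⟩
  have hA' : (A.card : ℝ) ≤ 18 * (w : ℝ) ^ 17 := by exact_mod_cast hA
  have h17 := h.chk (i := 17) (by norm_num)
  have hAk : A.card ≤ k := by
    have : (A.card : ℝ) ≤ k := by
      have : (0 : ℝ) ≤ (w : ℝ) ^ 17 := by positivity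
      linarith
    exact_mod_cast this
  have h4 := h3 y hy0 hF A (mem_filter.2 ⟨mem_powerset.2 (subset_univ _), hAk⟩) Aᶜ Subset.rfl
    (n * ex (-A.card)) 1 1 zero_le_one zero_le_one le_rfl (by
      simp only [card_star, one_mul, sum_const, nsmul_eq_mul, half_pow]
      refine mul_le_mul_of_nonneg_right ?_ (ex_nonneg _)
      have := card_le_univ Aᶜ
      rw [Fintype.card_fin] at this
      exact_mod_cast this) (fun x hx => by
      have h5 : (Aᶜ.filter fun x' => ¬ Disjoint (star x A) (star x' A)) ⊆ {x} := by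
        intro x' hx'
        by_contra h6
        exact (mem_filter.1 hx').2
          (star_disjoint (fun h7 => h6 (mem_singleton.2 h7.symm)) (mem_compl.1 hx))
      refine (sum_le_sum_of_subset_of_nonneg h5 fun i _ _ => ?_).trans ?_
      · simpa using W_nonneg hy0 _
      · simpa using W_le_one hy0 hy1 _)
  simp only [one_mul, mul_one] at h4
  refine h4.trans ?_
  have h5 : (p : ℝ) * (k * k + 4) * (p + 2) ≤ k * ex (bb p + (k - 1) / 2 - A.card) := by
    have hk1 : (1 : ℝ) ≤ k := by linarith [h.wk, h.w2]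
    have h6 : (p : ℝ) ≤ ex w := by linarith [h.kw, h.wk, h.wp', h.w2]
    have h7 : (p : ℝ) + 2 ≤ ex w := by linarith [h.kw, h.wk, h.wp', h.w2]
    have h8 : (k : ℝ) * k + 4 ≤ ex (w + w) := by
      refine le_trans ?_ (mul_le_ex h.k2' h.k2' (by positivity))
      nlinarith
    refine (mul_le_ex (mul_le_ex h6 h8 (by positivity)) h7 (by positivity)).trans ?_
    refine le_trans (ex_le ?_) (le_mul_of_one_le_left (ex_nonneg _) hk1)
    linarith [h.b0, h.wk, h.w2]
  have h6 : (n : ℝ) * (1 + 2 / p) * ex (-A.card) ≤ k * ex (bb p + (k - 1) / 2 - A.card) := by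
    rw [sub_eq_add_neg (bb p + _), ex_add (bb p + _), ← mul_assoc]
    exact mul_le_mul_of_nonneg_right h.nb (ex_nonneg _)
  push_cast
  set Z := k * ex (bb p + (k - 1) / 2 - A.card)
  set X := (n : ℝ) * ex (-A.card) with hX
  have h7 : X * (p + 2) ≤ Z * p := by
    have h8 : X * (p + 2) = n * (1 + 2 / p) * ex (-A.card) * p := by
      rw [hX]
      field_simp
    rw [h8]
    exact mul_le_mul_of_nonneg_right h6 hp0.le
  have h8 : ((1 + 1 / p) * X + p * (k * k + 4)) * (p + 2) ≤ Z * (p + 2) := by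
    have h9 : (1 + 1 / p) * X * (p + 2) ≤ (1 + 1 / p) * (Z * p) := by
      rw [mul_assoc]
      exact mul_le_mul_of_nonneg_left h7 (by positivity)
    have h10 : (1 + 1 / p) * (Z * p) = Z * (p + 1) := by field_simp
    nlinarith
  exact le_of_mul_le_mul_right h8 (by positivity)

theorem exists_stat (h : Num k n w p) :
    ∃ F : (Sym2 (Fin n) → ℝ) → ℝ, Good F ∧ F (fun _ => 1 / 2) ≤ 3 / 16 ∧
      ∀ y : Sym2 (Fin n) → ℝ, (∀ e, 0 ≤ y e) → (∀ e, y e ≤ 1) → F y ≤ 1 → Stat k n w p y := by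
  obtain ⟨F1, g1, i1, h1⟩ := exists_stat1 h
  have hn : n ^ k ≤ 2 ^ (k * k) := by
    rw [pow_mul]
    exact Nat.pow_le_pow_left (by linarith [h.n2k]) k
  obtain ⟨F2, g2, i2, h2⟩ := exists_spread
    ((univ : Finset (Finset (Fin k) × (Fin k → Fin n))) ×ˢ
      Fintype.piFinset fun _ : Fin n => Fintype.piFinset fun _ : Fin k => range (k + 2))
    (fun g => pin (embs k n) g.1.1 g.1.2) (fun g φ => ed (g.1.1ᶜ.image φ))
    (fun g φ => ∏ i ∈ g.1.1ᶜ, cval (g.2 (φ i) i)) (fun _ _ => prod_nonneg fun _ _ => cval_nonneg _)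
    (4 + k + k * k + w * (k * n)) (Λ := 2) zero_le_two (by
      have h2 : (k + 2) ^ (k * n) ≤ 2 ^ (w * (k * n)) := by
        rw [pow_mul 2]
        exact Nat.pow_le_pow_left h.k2 _
      simp only [card_product, card_univ, Fintype.card_prod, Fintype.card_finset, Fintype.card_fin,
        Fintype.card_pi, Fintype.card_piFinset, card_range, prod_const, ← pow_mul]
      have h3 : 16 * (2 ^ k * n ^ k * (k + 2) ^ (k * n)) ≤ 2 ^ (4 + k + k * k + w * (k * n)) := by
        rw [pow_add, pow_add, pow_add, mul_assoc, mul_assoc, mul_assoc]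
        exact Nat.mul_le_mul le_rfl (Nat.mul_le_mul le_rfl (Nat.mul_le_mul hn h2))
      exact_mod_cast h3)
  obtain ⟨F3, g3, i3, h3⟩ := exists_spread
    (univ : Finset (Finset (Fin k) × (Fin k → Fin n)))
    (fun g => pin (embs k n) g.1 g.2) (fun g φ => eE φ \ ed (g.1.image g.2))
    (fun _ _ => 1) (fun _ _ => zero_le_one) (4 + k + k * k) (Λ := 2) zero_le_two (by
      simp only [card_univ, Fintype.card_prod, Fintype.card_finset, Fintype.card_fin,
        Fintype.card_pi, prod_const]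
      have h3 : 16 * (2 ^ k * n ^ k) ≤ 2 ^ (4 + k + k * k) := by
        rw [pow_add, pow_add, mul_assoc]
        exact Nat.mul_le_mul le_rfl (Nat.mul_le_mul le_rfl hn)
      exact_mod_cast h3)
  refine ⟨fun y => F1 y + F2 y + F3 y, (g1.add g2).add g3, by linarith, fun y hy0 hy1 hF => ?_⟩
  have n1 := g1.nonneg hy0
  have n2 := g2.nonneg hy0
  have n3 := g3.nonneg hy0
  refine ⟨h1 y hy0 hy1 (by linarith), fun J ρ G hG => h2 y hy0 (by linarith) ((J, ρ), G) ?_,
    fun J ρ => h3 y hy0 (by linarith) (J, ρ) (mem_univ _)⟩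
  exact mem_product.2 ⟨mem_univ _, Fintype.mem_piFinset.2 fun x =>
    Fintype.mem_piFinset.2 fun i => mem_range.2 (hG x i)⟩

variable {S : Finset (Fin k → Fin n)} {y : Sym2 (Fin n) → ℝ} {R : Finset (Fin n)}

theorem th3 (h : Num k n w p) (hy0 : ∀ e, 0 ≤ y e) (hy1 : ∀ e, y e ≤ 1) (hst : Stat k n w p y)
    (hS : S ⊆ embs k n) (hθ : ∀ φ ∈ S, W y (eE φ \ ed R) ≤ ex (-(2 * (k * w ^ 18)))) (m : ℕ) :
    ∀ j : ℕ, j + m + w ^ 18 = k → ThB S y R j (4 * ex (mu k p j + w * (k - j)) +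
      ex ((4 * w + 3) * (k - j) - k * w ^ 18 / 16)) := by
  have hw := h.w2
  have hk := h.wk
  have h18 := h.wpw (i := 18) (by norm_num)
  induction m with
  | zero =>
    intro j hj
    have hj' : (k : ℝ) - j = (w : ℝ) ^ 18 := by
      rw [← hj]
      push_cast
      ring
    refine (th_base h.nlam hθ j).mono (le_add_of_nonneg_of_le
      (mul_nonneg (by norm_num) (ex_nonneg _)) (ex_le ?_))
    rw [hj']
    have := h.lamk
    nlinarith
  | succ m ih =>
    intro j hj
    have hj' : (j : ℝ) + m + 1 + (w : ℝ) ^ 18 = k := by exact_mod_cast hj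
    have hm : (0 : ℝ) ≤ m := by positivity
    have hj0 : (0 : ℝ) ≤ j := by positivity
    have e1 := ex_nonneg (mu k p (j + 1 : ℕ) + w * (k - (j + 1 : ℕ)))
    have e2 := ex_nonneg ((4 * w + 3) * (k - (j + 1 : ℕ)) - k * w ^ 18 / 16)
    refine (th_step3 hy0 hy1 h.nlam hS hst.s3 (by positivity) (ih (j + 1) (by omega))).mono ?_
    have h1 : ((k : ℝ) - j) * (lam k w p - (k + j - 1) / 2) = mu k p j + w * (k - j) := by
      unfold lam mu
      ring
    have h2 : ((4 + k + k * k : ℕ) : ℝ) * (k : ℝ) ^ 2 ≤ ex (4 * w + 2) := by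
      have h3 : ((4 + k + k * k : ℕ) : ℝ) ≤ 4 * (k : ℝ) ^ 2 := by
        push_cast
        nlinarith
      have h4 := pow_le_ex (by positivity) h.kw 2
      have h5 : (4 : ℝ) * (k : ℝ) ^ 2 ≤ ex (2 + (2 : ℕ) * w) :=
        mul_le_ex ex_two.ge h4 (by positivity)
      refine (mul_le_ex (h3.trans h5) h4 (by positivity)).trans (ex_le (le_of_eq ?_))
      push_cast
      ring
    rw [h1, ← mul_assoc]
    refine (add_le_add le_rfl (mul_le_mul_of_nonneg_right h2 (by positivity))).trans ?_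
    rw [mul_add, ex_mul, ← mul_assoc, mul_comm _ (4 : ℝ), mul_assoc, ex_mul]
    push_cast
    by_cases h3 : 4 * (j : ℝ) ≤ k
    · have h5 : 4 * ex (4 * w + 2 + (mu k p (j + 1) + w * (k - (j + 1)))) ≤
          2 * ex (mu k p j + w * (k - j)) := by
        rw [four_mul_ex, two_mul_ex]
        refine ex_le ?_
        have h6 : mu k p (j + 1) = mu k p j - k / 2 + j - bb p + 1 / 2 := by
          unfold mu
          ring
        rw [h6]
        linarith [h.b0]
      have h6 : ex (4 * w + 2 + ((4 * w + 3) * (k - (j + 1)) - k * w ^ 18 / 16)) ≤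
          ex ((4 * w + 3) * (k - j) - k * w ^ 18 / 16) := ex_le (by linarith)
      linarith
    · have h5 : 4 * ex (4 * w + 2 + (mu k p (j + 1) + w * (k - (j + 1)))) +
          ex (4 * w + 2 + ((4 * w + 3) * (k - (j + 1)) - k * w ^ 18 / 16)) ≤
          ex ((4 * w + 3) * (k - j) - k * w ^ 18 / 16) := by
        rw [four_mul_ex]
        refine ex_add_le ?_ (by linarith)
        have h6 : mu k p (j + 1) + w * (k - (j + 1)) =
            (k - (j + 1)) * (w + bb p - (j + 1) / 2) := by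
          unfold mu
          ring
        have h7 : (w : ℝ) + bb p - (j + 1) / 2 ≤ -(k / 16) := by linarith [h.b1]
        have h8 : ((k : ℝ) - (j + 1)) * (w + bb p - (j + 1) / 2) ≤ w ^ 18 * -(k / 16) :=
          (mul_le_mul_of_nonneg_left h7 (by linarith)).trans
            (mul_le_mul_of_nonpos_right (by linarith) (by linarith))
        have h9 : (4 * (w : ℝ) + 3) * 2 ≤ (4 * w + 3) * (k - j) :=
          mul_le_mul_of_nonneg_left (by linarith) (by linarith)
        rw [h6]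
        linarith
      linarith [ex_nonneg (mu k p j + w * (k - j))]

theorem th3' (h : Num k n w p) (hy0 : ∀ e, 0 ≤ y e) (hy1 : ∀ e, y e ≤ 1) (hst : Stat k n w p y)
    (hS : S ⊆ embs k n) (hθ : ∀ φ ∈ S, W y (eE φ \ ed R) ≤ ex (-(2 * (k * w ^ 18)))) {j : ℕ}
    (hj : j ≤ 18 * w ^ 17) : ThB S y R j (ex (mu k p j + (w * k + 3))) := by
  have hw := h.w2
  have hk := h.wk
  have hj' : (j : ℝ) ≤ 18 * (w : ℝ) ^ 17 := by exact_mod_cast hj
  have hj0 : (0 : ℝ) ≤ j := by positivity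
  have h17 := h.wpw (i := 17) (by norm_num)
  have h18 := h.ch (i := 17) (j := 18) (by norm_num)
  have h19 := h.chk (i := 18) (by norm_num)
  have hjk : j + w ^ 18 ≤ k := by
    have : (j : ℝ) + (w : ℝ) ^ 18 ≤ k := by linarith
    exact_mod_cast this
  refine (th3 h hy0 hy1 hst hS hθ (k - (j + w ^ 18)) j (by omega)).mono ?_
  rw [four_mul_ex]
  have h6 : (0 : ℝ) ≤ w * j := by positivity
  refine ex_add_le (by linarith) ?_
  have h7 : -(k * (j : ℝ) / 2) ≤ mu k p j := by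
    unfold mu
    have := mul_nonneg (show (0 : ℝ) ≤ k - j by linarith) h.b0
    nlinarith
  have h8 := mul_le_mul_of_nonneg_left hj' (show (0 : ℝ) ≤ k by positivity)
  have h9 := mul_le_mul_of_nonneg_left h18 (show (0 : ℝ) ≤ k by positivity)
  have h10 := mul_le_mul_of_nonneg_left h17 (show (0 : ℝ) ≤ k by positivity)
  have h11 := mul_le_mul_of_nonneg_left hw (show (0 : ℝ) ≤ k by positivity)
  nlinarith

theorem th2 (h : Num k n w p) (hy0 : ∀ e, 0 ≤ y e) (hy1 : ∀ e, y e ≤ 1)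
    (hcode : ∀ X : Finset (Sym2 (Fin n)), ∃ a, a ≤ X.card + 1 ∧ cval a = W y X)
    (hst : Stat k n w p y) (hS : S ⊆ embs k n)
    (hθ : ∀ φ ∈ S, W y (eE φ \ ed R) ≤ ex (-(2 * (k * w ^ 18))))
    (ok : Fin n → Fin k → Prop) (Is : Finset (Fin k))
    (huniq : ∀ x i i', i ∉ Is → i' ∉ Is → ok x i → ok x i' → i = i')
    (hok : ∀ φ ∈ S, ∀ i, i ∉ Is → ok (φ i) i) (hIs : Is.card ≤ 3 * w ^ 22) (d : ℕ) :
    ∀ (j : ℕ) (Y : ℝ), j + 2 * d ≤ 18 * w ^ 17 → 8 * (w : ℝ) ^ 23 ≤ Y →
      w * k + 3 ≤ Y + d * (k / 4) → ThB S y R j (ex (mu k p j + Y)) := by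
  have hw := h.w2
  have hk := h.wk
  induction d with
  | zero =>
    intro j Y hj _ hY
    exact (th3' h hy0 hy1 hst hS hθ (by omega)).mono (ex_le (by simpa using hY))
  | succ d ih =>
    intro j Y hj hY0 hY
    have hj1 : j ≤ 18 * w ^ 17 := by omega
    have hj' : (j : ℝ) ≤ 18 * (w : ℝ) ^ 17 := by exact_mod_cast hj1
    have hIs' : (Is.card : ℝ) ≤ 3 * (w : ℝ) ^ 22 := by exact_mod_cast hIs
    refine (th_step2 hy0 hy1 hcode (by positivity) h.kw hS ok Is huniq hok
      (fun A hA => hA ▸ hst.s1 A (by omega)) hst.s2 (by positivity) (ex_nonneg _)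
      (ih (j + 2) (Y + k / 4) (by omega) (by linarith) (by push_cast at hY; linarith))).mono ?_
    have h2 : ((4 + k + k * k + w * (k * n) : ℕ) : ℝ) ≤ ex (2 + (2 : ℕ) * w + lam k w p) := by
      have h4 := pow_le_ex (by positivity) h.kw 2
      have h5 : (4 : ℝ) * (k : ℝ) ^ 2 ≤ ex (2 + (2 : ℕ) * w) :=
        mul_le_ex ex_two.ge h4 (by positivity)
      refine le_trans ?_ (mul_le_ex h5 le_rfl (ex_nonneg _))
      have h6 := one_le_ex h.lam0
      have h7 : (w : ℝ) * (k * n) ≤ k * (k * ex (lam k w p)) :=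
        mul_le_mul (by linarith) (mul_le_mul_of_nonneg_left h.nlam (by positivity))
          (by positivity) (by positivity)
      have h8 : (k : ℝ) ^ 2 * 1 ≤ k ^ 2 * ex (lam k w p) :=
        mul_le_mul_of_nonneg_left h6 (by positivity)
      push_cast
      nlinarith
    have h3 := mul_le_ex h2 (mul_le_ex (pow_le_ex (by positivity) h.kw 4)
      (le_refl (ex (mu k p (j + 2 : ℕ) + (Y + k / 4)))) (ex_nonneg _))
      (mul_nonneg (by positivity) (ex_nonneg _))
    rw [two_mul_ex]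
    refine (add_le_add le_rfl h3).trans (ex_add_le ?_ ?_)
    · have h4 := mul_le_mul_of_nonneg_left hIs' (show (0 : ℝ) ≤ w + 1 by positivity)
      have h5 := h.ch (i := 22) (j := 23) (by norm_num)
      have h6 := h.ch (i := 17) (j := 23) (by norm_num)
      have h7 := h.wpw (i := 23) (by norm_num)
      have h8 : (w : ℝ) * w ^ 22 = w ^ 23 := by ring
      unfold mu
      nlinarith
    · have h4 : mu k p (j + 2 : ℕ) = mu k p j - k - 2 * bb p + 2 * j + 2 := by
        unfold mu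
        push_cast
        ring
      have h5 := h.chk (i := 17) (by norm_num)
      rw [h4]
      unfold lam
      push_cast
      linarith [h.b0]

theorem theta_bound (h : Num k n w p) (hy0 : ∀ e, 0 ≤ y e) (hy1 : ∀ e, y e ≤ 1)
    (hcode : ∀ X : Finset (Sym2 (Fin n)), ∃ a, a ≤ X.card + 1 ∧ cval a = W y X)
    (hst : Stat k n w p y) (hS : S ⊆ embs k n)
    (hθ : ∀ φ ∈ S, W y (eE φ \ ed R) ≤ ex (-(2 * (k * w ^ 18))))
    (ok : Fin n → Fin k → Prop) (Is : Finset (Fin k))
    (huniq : ∀ x i i', i ∉ Is → i' ∉ Is → ok x i → ok x i' → i = i')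
    (hok : ∀ φ ∈ S, ∀ i, i ∉ Is → ok (φ i) i) (hIs : Is.card ≤ 3 * w ^ 22) {j : ℕ}
    (hj : j ≤ 17 * w ^ 17 + w) : ThB S y R j (ex (mu k p j + 8 * (w : ℝ) ^ 23)) := by
  have h17 := h.wpw (i := 17) (by norm_num)
  have hw := h.w2
  refine th2 h hy0 hy1 hcode hst hS hθ ok Is huniq hok hIs (4 * w + 1) j _ ?_ le_rfl ?_
  · have h1 : ((9 * w + 2 : ℕ) : ℝ) ≤ ((w ^ 17 : ℕ) : ℝ) := by
      push_cast
      linarith
    have h2 : 9 * w + 2 ≤ w ^ 17 := by exact_mod_cast h1
    omega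
  · have : (0 : ℝ) ≤ (w : ℝ) ^ 23 := by positivity
    push_cast
    linarith [h.wk]

end Pool.Agent.Lib.MP_802a39_co
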