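import Pool.Agent.Lib.MP_802a39_co.Edges

/-! Weighted counts of embeddings with some roles pinned. -/

set_option autoImplicit false

namespace Pool.Agent.Lib.MP_802a39_co

open Finset

/-- The conclusion of `exists_spread` for one index. -/
def SpreadAt {E ι : Type} [DecidableEq E] (I : Finset ι) (Ed : ι → Finset E) (c : ι → ℝ)
    (Λ t : ℝ) (y : E → ℝ) : Prop :=
  ∀ S ⊆ I, ∀ m conf s : ℝ, 0 ≤ conf → 0 ≤ s → s ≤ 1 →
    ∑ i ∈ I, c i * (1 / 2) ^ (Ed i).card ≤ m →
    (∀ i ∈ S, ∑ j ∈ S.filter (fun j => ¬ Disjoint (Ed i) (Ed j)),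
      s * (c j * W y (Ed j)) ≤ conf) →
    ∑ j ∈ S, s * (c j * W y (Ed j)) ≤ Λ * m + t * conf

variable {k n : ℕ}

/-- The members of `S` that agree with `ρ` on `J`. -/
def pin (S : Finset (Fin k → Fin n)) (J : Finset (Fin k)) (ρ : Fin k → Fin n) :
    Finset (Fin k → Fin n) := S.filter fun φ => ∀ i ∈ J, φ i = ρ i

/-- All injective maps. -/
def embs (k n : ℕ) : Finset (Fin k → Fin n) := univ.filter fun φ => Function.Injective φ

theorem mem_embs {φ : Fin k → Fin n} : φ ∈ embs k n ↔ Function.Injective φ := by simp [embs]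

theorem mem_pin {S : Finset (Fin k → Fin n)} {J : Finset (Fin k)} {ρ φ : Fin k → Fin n} :
    φ ∈ pin S J ρ ↔ φ ∈ S ∧ ∀ i ∈ J, φ i = ρ i := mem_filter

theorem pin_image {S : Finset (Fin k → Fin n)} {J : Finset (Fin k)} {ρ φ : Fin k → Fin n}
    (h : φ ∈ pin S J ρ) : J.image ρ = J.image φ :=
  image_congr fun i hi => ((mem_pin.1 h).2 i hi).symm

theorem pin_insert {S : Finset (Fin k → Fin n)} {J : Finset (Fin k)} {ρ φ : Fin k → Fin n}
    (h : φ ∈ pin S J ρ) {i : Fin k} (hi : i ∉ J) :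
    φ ∈ pin S (insert i J) (Function.update ρ i (φ i)) := by
  refine mem_pin.2 ⟨(mem_pin.1 h).1, fun l hl => ?_⟩
  rcases mem_insert.1 hl with h1 | h1
  · subst h1
    simp
  · rw [Function.update_of_ne (ne_of_mem_of_not_mem h1 hi)]
    exact (mem_pin.1 h).2 l h1

theorem image_subset_update {J : Finset (Fin k)} (ρ : Fin k → Fin n) {i : Fin k} (hi : i ∉ J)
    (x : Fin n) : J.image ρ ⊆ (insert i J).image (Function.update ρ i x) := by
  intro v hv
  obtain ⟨l, hl, rfl⟩ := mem_image.1 hv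
  exact mem_image.2 ⟨l, mem_insert_of_mem hl, Function.update_of_ne (ne_of_mem_of_not_mem hl hi) _ _⟩

theorem pin_subset_pi (S : Finset (Fin k → Fin n)) (J : Finset (Fin k)) (ρ : Fin k → Fin n) :
    pin S J ρ ⊆ Fintype.piFinset fun i => if i ∈ J then {ρ i} else univ := by
  intro φ hφ
  refine Fintype.mem_piFinset.2 fun i => ?_
  split_ifs with h
  · exact mem_singleton.2 ((mem_pin.1 hφ).2 i h)
  · exact mem_univ _

theorem card_compl_real (J : Finset (Fin k)) : ((Jᶜ).card : ℝ) = k - J.card := by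
  have h := card_add_card_compl J
  rw [Fintype.card_fin] at h
  have h1 : (J.card : ℝ) + (Jᶜ).card = k := by exact_mod_cast h
  linarith

theorem card_pin_le (S : Finset (Fin k → Fin n)) (J : Finset (Fin k)) (ρ : Fin k → Fin n)
    {lam : ℝ} (hn : (n : ℝ) ≤ ex lam) : ((pin S J ρ).card : ℝ) ≤ ex ((k - J.card) * lam) := by
  have h1 := card_le_card (pin_subset_pi S J ρ)
  rw [Fintype.card_piFinset] at h1
  have h2 : ∏ i : Fin k, (if i ∈ J then ({ρ i} : Finset (Fin n)) else univ).card =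
      n ^ (Jᶜ).card := by
    rw [← prod_mul_prod_compl J, prod_eq_one fun i hi => by simp [hi], one_mul,
      prod_congr rfl fun i hi => by rw [if_neg (mem_compl.1 hi), card_fin], prod_const]
  rw [h2] at h1
  have h3 : ((pin S J ρ).card : ℝ) ≤ (n : ℝ) ^ (Jᶜ).card := by exact_mod_cast h1
  rw [← card_compl_real]
  exact h3.trans (pow_le_ex (Nat.cast_nonneg _) hn _)

/-- Every pinned sum at level `j` is at most `B`. -/
def ThB (S : Finset (Fin k → Fin n)) (y : Sym2 (Fin n) → ℝ) (R : Finset (Fin n)) (j : ℕ)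
    (B : ℝ) : Prop :=
  ∀ (J : Finset (Fin k)) (ρ : Fin k → Fin n), J.card = j → R ⊆ J.image ρ →
    ∑ φ ∈ pin S J ρ, W y (eE φ \ ed R) ≤ B

variable {S : Finset (Fin k → Fin n)} {y : Sym2 (Fin n) → ℝ} {R : Finset (Fin n)}

theorem ThB.mono {j : ℕ} {B B' : ℝ} (h : ThB S y R j B) (hB : B ≤ B') : ThB S y R j B' :=
  fun J ρ h1 h2 => (h J ρ h1 h2).trans hB

theorem th_base {lam θ : ℝ} (hn : (n : ℝ) ≤ ex lam) (hθ : ∀ φ ∈ S, W y (eE φ \ ed R) ≤ ex θ)
    (j : ℕ) : ThB S y R j (ex ((k - j) * lam + θ)) := by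
  intro J ρ hJ _
  refine (sum_le_card_nsmul _ _ _ fun φ hφ => hθ φ (mem_pin.1 hφ).1).trans ?_
  rw [nsmul_eq_mul, ← hJ]
  exact mul_le_ex (card_pin_le S J ρ hn) le_rfl (ex_nonneg _)

theorem th_step3 (hy0 : ∀ e, 0 ≤ y e) (hy1 : ∀ e, y e ≤ 1) {lam t B : ℝ}
    (hn : (n : ℝ) ≤ ex lam) (hS : S ⊆ embs k n)
    (h3 : ∀ (J : Finset (Fin k)) (ρ : Fin k → Fin n),
      SpreadAt (pin (embs k n) J ρ) (fun φ => eE φ \ ed (J.image ρ)) (fun _ => 1) 2 t y)
    {j : ℕ} (hB0 : 0 ≤ B) (hB : ThB S y R (j + 1) B) :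
    ThB S y R j (2 * ex ((k - j) * (lam - (k + j - 1) / 2)) + t * (k ^ 2 * B)) := by
  intro J ρ hJ hR
  have hom : ∀ φ ∈ pin S J ρ, W y (eE φ \ ed R) =
      W y (ed (J.image ρ) \ ed R) * (1 * W y (eE φ \ ed (J.image ρ))) := by
    intro φ hφ
    rw [one_mul]
    refine W_sdiff_split y (ed_mono hR) (ed_mono ?_)
    rw [pin_image hφ]
    exact image_subset_im _ _
  rw [sum_congr rfl hom]
  refine h3 J ρ (pin S J ρ) (filter_subset_filter _ hS) _ _ _ (by positivity) (W_nonneg hy0 _)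
    (W_le_one hy0 hy1 _) ?_ fun ψ hψ => ?_
  · have h1 : ∀ φ ∈ pin (embs k n) J ρ, 1 * (1 / 2 : ℝ) ^ (eE φ \ ed (J.image ρ)).card ≤
        ex (-((k - j) * (k + j - 1) / 2)) := by
      intro φ hφ
      have hinj := mem_embs.1 (mem_pin.1 hφ).1
      rw [one_mul, half_pow, pin_image hφ]
      refine ex_le (neg_le_neg ?_)
      have h2 : (eE φ).card ≤ (eE φ \ ed (J.image φ)).card + (ed (J.image φ)).card :=
        card_le_card_sdiff_add_card
      have h4 : ((eE φ).card : ℝ) ≤ (eE φ \ ed (J.image φ)).card + (ed (J.image φ)).card := by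
        exact_mod_cast h2
      rw [card_eE hinj, card_ed, card_image_of_injective _ hinj, hJ] at h4
      linarith
    refine (sum_le_card_nsmul _ _ _ h1).trans ?_
    rw [nsmul_eq_mul]
    refine (mul_le_ex (card_pin_le _ J ρ hn) le_rfl (ex_nonneg _)).trans (ex_le (le_of_eq ?_))
    rw [hJ]
    ring
  · refine le_trans (le_of_eq (sum_congr rfl fun φ hφ => (hom φ (mem_filter.1 hφ).1).symm)) ?_
    refine (sum_le_card_mul_cover _ (Jᶜ ×ˢ (univ : Finset (Fin k)))
      (fun p => pin S (insert p.1 J) (Function.update ρ p.1 (ψ p.2))) _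
      (fun φ => W_nonneg hy0 _) (fun φ hφ => ?_) (b := B) fun p hp => ?_).trans ?_
    · obtain ⟨hφ1, hφ2⟩ := mem_filter.1 hφ
      obtain ⟨e, he1, he2⟩ := not_disjoint_iff.1 hφ2
      obtain ⟨i1, i2, hne, rfl⟩ := mem_eE (mem_sdiff.1 he2).1
      have h4 := mk_mem_ed.1 (mem_sdiff.1 he1).1
      have h5 := (mem_sdiff.1 he2).2
      rw [pin_image hφ1, mk_mem_ed] at h5
      by_cases h6 : i1 ∈ J
      · have h7 : i2 ∉ J := fun h7 => h5 ⟨mem_image_of_mem _ h6, mem_image_of_mem _ h7, h4.2.2⟩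
        obtain ⟨i', hi'⟩ := mem_im.1 h4.2.1
        refine ⟨(i2, i'), mem_product.2 ⟨mem_compl.2 h7, mem_univ _⟩, ?_⟩
        simp only [hi']
        exact pin_insert hφ1 h7
      · obtain ⟨i', hi'⟩ := mem_im.1 h4.1
        refine ⟨(i1, i'), mem_product.2 ⟨mem_compl.2 h6, mem_univ _⟩, ?_⟩
        simp only [hi']
        exact pin_insert hφ1 h6
    · have h4 : p.1 ∉ J := mem_compl.1 (mem_product.1 hp).1
      exact hB _ _ (by rw [card_insert_of_notMem h4, hJ]) (hR.trans (image_subset_update ρ h4 _))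
    · refine mul_le_mul_of_nonneg_right ?_ hB0
      have h4 : (Jᶜ ×ˢ (univ : Finset (Fin k))).card ≤ k ^ 2 := by
        refine (card_le_univ _).trans ?_
        simp [sq]
      exact_mod_cast h4

theorem sum_prod_pin_le (J : Finset (Fin k)) (ρ : Fin k → Fin n) (f : Fin k → Fin n → ℝ)
    (hf : ∀ i x, 0 ≤ f i x) :
    ∑ φ ∈ pin S J ρ, ∏ i ∈ Jᶜ, f i (φ i) ≤ ∏ i ∈ Jᶜ, ∑ x, f i x := by
  have h1 : ∀ φ : Fin k → Fin n, ∏ i ∈ Jᶜ, f i (φ i) =
      ∏ i, (fun i x => if i ∈ J then 1 else f i x) i (φ i) := by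
    intro φ
    rw [← prod_mul_prod_compl J, prod_eq_one (s := J) fun i hi => by simp [hi], one_mul]
    exact prod_congr rfl fun i hi => by simp [mem_compl.1 hi]
  calc _ ≤ ∑ φ ∈ Fintype.piFinset fun i => if i ∈ J then {ρ i} else univ, ∏ i ∈ Jᶜ, f i (φ i) :=
        sum_le_sum_of_subset_of_nonneg (pin_subset_pi S J ρ) fun φ _ _ =>
          prod_nonneg fun i _ => hf _ _
    _ = ∏ i, ∑ x ∈ (if i ∈ J then {ρ i} else univ), (if i ∈ J then 1 else f i x) := by
        rw [prod_univ_sum]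
        exact sum_congr rfl fun φ _ => h1 φ
    _ = _ := by
        rw [← prod_mul_prod_compl J, prod_eq_one (s := J) fun i hi => by simp [hi], one_mul]
        exact prod_congr rfl fun i hi => by simp [mem_compl.1 hi]

theorem amgm_roles (J Is : Finset (Fin k)) (a : Fin k → ℝ) (ha0 : ∀ i, 0 ≤ a i) {c w : ℝ}
    (hc : 0 < c) (hw0 : 0 ≤ w) (hw : (k : ℝ) ≤ ex w) (h1 : ∀ i, a i ≤ k * c)
    (h2 : ∑ i ∈ Jᶜ \ Is, a i ≤ k * c) :
    ∏ i ∈ Jᶜ, a i ≤ c ^ (Jᶜ).card * ex (2 * ((w + 1) * Is.card + J.card)) := by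
  have h3 : ∀ i ∈ Jᶜ, a i ≤ c * Real.exp (if i ∈ Is then w else a i / c - 1) := by
    intro i _
    split_ifs
    · refine (h1 i).trans ?_
      rw [mul_comm]
      exact mul_le_mul_of_nonneg_left (hw.trans (ex_le_exp hw0)) hc.le
    · have h4 := Real.add_one_le_exp (a i / c - 1)
      rw [sub_add_cancel, div_le_iff₀ hc] at h4
      linarith
  refine (prod_le_prod (fun i _ => ha0 i) h3).trans ?_
  rw [prod_mul_distrib, prod_const, ← Real.exp_sum]
  refine mul_le_mul_of_nonneg_left (le_trans (Real.exp_le_exp.2 ?_) (exp_le_ex (by positivity)))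
    (by positivity)
  rw [sum_ite, sum_const, nsmul_eq_mul, sum_sub_distrib, ← sum_div, sum_const, nsmul_eq_mul,
    mul_one]
  have h4 : (Jᶜ.filter fun i => i ∉ Is) = Jᶜ \ Is := by
    ext i
    simp
  rw [h4]
  have h5 : ((Jᶜ.filter fun i => i ∈ Is).card : ℝ) ≤ Is.card := by
    exact_mod_cast card_le_card fun i hi => (mem_filter.1 hi).2
  have h6 : ((Jᶜ).card : ℝ) ≤ (Jᶜ \ Is).card + Is.card := by
    exact_mod_cast (card_le_card_sdiff_add_card (s := Jᶜ) (t := Is))
  rw [card_compl_real] at h6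
  have h7 : (∑ i ∈ Jᶜ \ Is, a i) / c ≤ k := by rwa [div_le_iff₀ hc]
  nlinarith

open Classical in
theorem th_step2 (hy0 : ∀ e, 0 ≤ y e) (hy1 : ∀ e, y e ≤ 1)
    (hcode : ∀ X : Finset (Sym2 (Fin n)), ∃ a, a ≤ X.card + 1 ∧ cval a = W y X)
    {b w t B : ℝ} (hw0 : 0 ≤ w) (hw : (k : ℝ) ≤ ex w) (hS : S ⊆ embs k n)
    (ok : Fin n → Fin k → Prop) (Is : Finset (Fin k))
    (huniq : ∀ x i i', i ∉ Is → i' ∉ Is → ok x i → ok x i' → i = i')
    (hok : ∀ φ ∈ S, ∀ i, i ∉ Is → ok (φ i) i) {j : ℕ}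
    (h1 : ∀ A : Finset (Fin n), A.card = j →
      ∑ x ∈ Aᶜ, W y (star x A) ≤ k * ex (b + (k - 1) / 2 - j))
    (h2 : ∀ (J : Finset (Fin k)) (ρ : Fin k → Fin n) (G : Fin n → Fin k → ℕ),
      (∀ x i, G x i < k + 2) → SpreadAt (pin (embs k n) J ρ) (fun φ => ed (Jᶜ.image φ))
        (fun φ => ∏ i ∈ Jᶜ, cval (G (φ i) i)) 2 t y)
    (ht : 0 ≤ t) (hB0 : 0 ≤ B) (hB : ThB S y R (j + 2) B) :
    ThB S y R j (2 * ex ((k - j) * (b - j / 2) + 2 * ((w + 1) * Is.card + j)) +
      t * (k ^ 4 * B)) := by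
  intro J ρ hJ hR
  rcases (pin S J ρ).eq_empty_or_nonempty with h0 | ⟨φ0, hφ0⟩
  · rw [h0, sum_empty]
    have := ex_pos ((k - j) * (b - j / 2) + 2 * ((w + 1) * Is.card + j))
    positivity
  set A := J.image ρ with hA
  have hAc : A.card = j := by
    rw [hA, pin_image hφ0, card_image_of_injective _ (mem_embs.1 (hS (mem_pin.1 hφ0).1)), hJ]
  have hjk : j ≤ k := by
    rw [← hJ]
    simpa using card_le_univ J
  choose code hcode1 hcode2 using hcode
  set G : Fin n → Fin k → ℕ := fun x i =>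
    if x ∉ A ∧ (i ∈ Is ∨ ok x i) then code (star x A) else 0 with hG
  have hGv : ∀ x i, cval (G x i) = if x ∉ A ∧ (i ∈ Is ∨ ok x i) then W y (star x A) else 0 := by
    intro x i
    simp only [hG]
    split_ifs
    · exact hcode2 _
    · simp [cval]
  have hom : ∀ φ ∈ pin S J ρ, W y (eE φ \ ed R) =
      W y (ed A \ ed R) * ((∏ i ∈ Jᶜ, cval (G (φ i) i)) * W y (ed (Jᶜ.image φ))) := by
    intro φ hφ
    have hinj := mem_embs.1 (hS (mem_pin.1 hφ).1)
    have hAφ : A = J.image φ := pin_image hφ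
    have hd : Disjoint A (Jᶜ.image φ) := by
      rw [hAφ]
      exact (disjoint_image hinj).2 disjoint_compl_right
    have him : im φ = A ∪ Jᶜ.image φ := by rw [hAφ, ← image_union, union_compl, im]
    rw [W_sdiff_split y (ed_mono hR) (show ed A ⊆ eE φ from ed_mono (him ▸ subset_union_left)),
      eE, him, W_ed_union y hd, prod_image fun a _ b _ h => hinj h]
    congr 2
    refine prod_congr rfl fun i hi => ?_
    rw [hGv, if_pos]
    refine ⟨disjoint_right.1 hd (mem_image_of_mem _ hi), ?_⟩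
    by_cases h : i ∈ Is
    · exact Or.inl h
    · exact Or.inr (hok φ (mem_pin.1 hφ).1 i h)
  rw [sum_congr rfl hom]
  refine h2 J ρ G (fun x i => ?_) (pin S J ρ) (filter_subset_filter _ hS) _ _ _ (by positivity)
    (W_nonneg hy0 _) (W_le_one hy0 hy1 _) ?_ fun ψ hψ => ?_
  · simp only [hG]
    split_ifs
    · have := hcode1 (star x A)
      rw [card_star, hAc] at this
      omega
    · omega
  · have h3 : ∀ φ ∈ pin (embs k n) J ρ, (∏ i ∈ Jᶜ, cval (G (φ i) i)) *
        (1 / 2 : ℝ) ^ (ed (Jᶜ.image φ)).card =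
        (∏ i ∈ Jᶜ, cval (G (φ i) i)) * ex (-((k - j) * (k - j - 1) / 2)) := by
      intro φ hφ
      rw [half_pow, card_ed, card_image_of_injective _ (mem_embs.1 (mem_pin.1 hφ).1),
        card_compl_real, hJ]
    rw [sum_congr rfl h3, ← sum_mul]
    have h4 := sum_prod_pin_le (S := embs k n) J ρ (fun i x => cval (G x i))
      fun i x => cval_nonneg _
    have hF := h1 A hAc
    have hF' : ∑ x, (if x ∉ A then W y (star x A) else 0) ≤ k * ex (b + (k - 1) / 2 - j) := by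
      rw [← sum_filter]
      refine le_trans (le_of_eq (sum_congr ?_ fun _ _ => rfl)) hF
      ext x
      simp
    have h5 := amgm_roles J Is (fun i => ∑ x, cval (G x i))
      (fun i => sum_nonneg fun x _ => cval_nonneg _) (ex_pos (b + (k - 1) / 2 - j)) hw0 hw
      (fun i => le_trans (sum_le_sum fun x _ => by
        rw [hGv]
        have := W_nonneg hy0 (star x A)
        by_cases h6 : x ∉ A <;> by_cases h7 : (i ∈ Is ∨ ok x i) <;> simp [h6, h7, this]) hF')
      (by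
        rw [sum_comm]
        refine le_trans (sum_le_sum fun x _ => ?_) hF'
        simp only [hGv]
        have h8 := W_nonneg hy0 (star x A)
        by_cases h6 : x ∉ A
        · rw [if_pos h6, ← sum_filter, sum_const, nsmul_eq_mul]
          refine mul_le_of_le_one_left h8 ?_
          have h7 : ((Jᶜ \ Is).filter fun i => x ∉ A ∧ (i ∈ Is ∨ ok x i)).card ≤ 1 := by
            refine card_le_one.2 fun i hi i' hi' => ?_
            have h9 := (mem_sdiff.1 (mem_filter.1 hi).1).2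
            have h10 := (mem_sdiff.1 (mem_filter.1 hi').1).2
            exact huniq x i i' h9 h10 ((mem_filter.1 hi).2.2.resolve_left h9)
              ((mem_filter.1 hi').2.2.resolve_left h10)
          exact_mod_cast h7
        · simp [h6])
    refine (mul_le_mul_of_nonneg_right (h4.trans h5) (ex_nonneg _)).trans (le_of_eq ?_)
    rw [ex_pow, ex_mul, ex_mul, card_compl_real, hJ]
    congr 1
    ring
  · refine le_trans (le_of_eq (sum_congr rfl fun φ hφ => (hom φ (mem_filter.1 hφ).1).symm)) ?_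
    refine (sum_le_card_mul_cover _ (univ.filter fun p : (Fin k × Fin k) × (Fin k × Fin k) =>
        p.1.1 ∉ J ∧ p.1.2 ∉ insert p.1.1 J)
      (fun p => pin S (insert p.1.2 (insert p.1.1 J))
        (Function.update (Function.update ρ p.1.1 (ψ p.2.1)) p.1.2 (ψ p.2.2))) _
      (fun φ => W_nonneg hy0 _) (fun φ hφ => ?_) (b := B) fun p hp => ?_).trans ?_
    · obtain ⟨hφ1, hφ2⟩ := mem_filter.1 hφ
      obtain ⟨u, v, huv, hu, hv, hu', hv'⟩ := two_le_card_of_not_disjoint hφ2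
      obtain ⟨i1', _, h3⟩ := mem_image.1 hu
      obtain ⟨i2', _, h4⟩ := mem_image.1 hv
      obtain ⟨i1, hi1, rfl⟩ := mem_image.1 hu'
      obtain ⟨i2, hi2, rfl⟩ := mem_image.1 hv'
      have h5 : i2 ∉ insert i1 J := by
        rw [mem_insert, not_or]
        exact ⟨fun h => huv (h ▸ rfl), mem_compl.1 hi2⟩
      refine ⟨((i1, i2), (i1', i2')), mem_filter.2 ⟨mem_univ _, mem_compl.1 hi1, h5⟩, ?_⟩
      simp only [h3, h4]
      exact pin_insert (pin_insert hφ1 (mem_compl.1 hi1)) h5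
    · obtain ⟨h3, h4⟩ := (mem_filter.1 hp).2
      exact hB _ _ (by rw [card_insert_of_notMem h4, card_insert_of_notMem h3, hJ])
        (hR.trans ((image_subset_update ρ h3 _).trans (image_subset_update _ h4 _)))
    · refine mul_le_mul_of_nonneg_right ?_ hB0
      have h4 : (univ.filter fun p : (Fin k × Fin k) × (Fin k × Fin k) =>
          p.1.1 ∉ J ∧ p.1.2 ∉ insert p.1.1 J).card ≤ k ^ 4 := by
        refine (card_le_univ _).trans (le_of_eq ?_)
        simp only [Fintype.card_prod, Fintype.card_fin]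
        ring
      exact_mod_cast h4

end Pool.Agent.Lib.MP_802a39_co
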