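import Pool.Agent.Lib.MP_802a39_co.Viol

/-! The upper bound: Breaker wins for a suitable tournament. -/

set_option autoImplicit false

namespace Pool.Agent.Lib.MP_802a39_co

open Finset Filter

variable {k n w p : ℕ}

/-- The tournament chosen by Breaker. -/
def tourn (k w : ℕ) (i j : Fin k) : Prop :=
  if i.val < w ^ 22 then (if j.val < w ^ 22 then i < j else ¬ j.val.testBit (i.val % w) = true)
  else (if j.val < w ^ 22 then i.val.testBit (j.val % w) = true else i < j)

theorem tourn_tour (h : Num k n w p) :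
    Tour w (tourn k w) (fun j => j.val / w) (univ.filter fun j : Fin k => j.val < w ^ 22) := by
  have hw0 : 0 < w := by
    have := h.wp
    have := h.p2
    omega
  refine ⟨⟨fun i => ?_, fun i j hij => ?_⟩, ?_, fun c => ?_, fun c hc i i' hi hi' h1 => ?_⟩
  · unfold tourn
    split_ifs <;> exact lt_irrefl _
  · unfold tourn
    have h1 : i < j ↔ ¬ j < i := ⟨fun h => not_lt.2 h.le, fun h => lt_of_le_of_ne (not_lt.1 h) hij⟩
    split_ifs
    · exact h1
    · exact Iff.rfl
    · exact not_not.symm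
    · exact h1
  · refine le_trans (card_le_card_of_injOn (t := range (w ^ 22)) (fun i => i.val)
      (fun i hi => mem_coe.2 (mem_range.2 (mem_filter.1 (mem_coe.1 hi)).2))
      fun i _ j _ hij => Fin.ext hij) (card_range _).le
  · exact (card_le_card (filter_subset_filter _ (subset_univ _))).trans (card_div_fiber hw0 c)
  · simp only [mem_filter, mem_univ, true_and] at hi hi' h1
    refine Fin.ext (Nat.eq_of_testBit_eq fun s => ?_)
    by_cases hs : s < w
    · have h2 : c * w + s < w ^ 22 := by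
        have h3 := Nat.mul_le_mul_right w (Nat.succ_le_of_lt hc)
        rw [Nat.succ_mul, ← pow_succ] at h3
        exact lt_of_lt_of_le (Nat.add_lt_add_left hs _) h3
      have h3 : w ^ 22 ≤ k := (Nat.pow_le_pow_right hw0 (by norm_num)).trans h.kl
      have h4 : (c * w + s) / w = c := by
        rw [mul_comm, Nat.mul_add_div hw0, Nat.div_eq_of_lt hs, add_zero]
      have h5 : (c * w + s) % w = s := by
        rw [mul_comm, Nat.mul_add_mod, Nat.mod_eq_of_lt hs]
      have h6 := h1 ⟨c * w + s, h2.trans_le h3⟩ ⟨h2, h4⟩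
      simp only [tourn, if_neg hi, if_neg hi', if_pos h2, h5] at h6
      exact Bool.eq_iff_iff.2 h6
    · have h2 : 2 ^ w ≤ 2 ^ s := Nat.pow_le_pow_right (by norm_num) (not_lt.1 hs)
      have h3 := h.k2
      have h4 := i.2
      have h5 := i'.2
      rw [Nat.testBit_eq_false_of_lt (by omega), Nat.testBit_eq_false_of_lt (by omega)]

theorem not_wins_of_num (h : Num k n w p) : ¬ MakerWinsGame k n := by
  intro hw
  have hT := tourn_tour h
  obtain ⟨F1, g1, i1, h1⟩ := exists_stat h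
  obtain ⟨F2, g2, i2, h2⟩ := exists_star h
  refine not_makerWins (q := qq p) (H := fun D y => F1 y + F2 y + Hnode (tourn k w) w p D y)
    hT.tour ⟨fun D => (g1.add g2).add (Hnode_good _ D), ?_, fun D Q u v huv hD hH => ?_,
      fun D Q R hH hR φ hφ hQ hm => ?_⟩ ?_ (hw _ hT.tour)
  · linarith [Hnode_init h (tourn k w)]
  · have n2 := g2.nonneg (yOf_nonneg (insert (u, v) D) Q)
    have n3 := (Hnode_good (w := w) (p := p) (tourn k w) D).nonneg (yOf_nonneg (insert (u, v) D) Q)
    have := Hnode_step h hT D Q huv hD (h1 _ (yOf_nonneg _ Q) (yOf_le_one _ Q) (by linarith))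
    linarith
  · have n1 := g1.nonneg (yOf_nonneg D Q)
    have n2 := g2.nonneg (yOf_nonneg D Q)
    have n3 := (Hnode_good (w := w) (p := p) (tourn k w) D).nonneg (yOf_nonneg D Q)
    refine violation h (h2 D Q (by linarith)) (fun x hx ha => ?_) hR hφ hQ hm
    linarith [nval_le_Hnode (p := p) (yOf_nonneg D Q) hx ha]
  · have h3 : 2 * qq p + 2 ≤ w := le_trans (Nat.le_mul_of_pos_right _ (by omega)) h.wa
    have h4 : 2 * (qq p : ℝ) + 2 ≤ w := by exact_mod_cast h3
    have h5 := h.wk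
    have h6 := h.w2
    nlinarith

theorem succ_pow_le {w : ℕ} (hw : 48 ≤ w) : (w + 1) ^ 24 ≤ 2 * w ^ 24 := by
  have hw' : (48 : ℝ) ≤ w := by exact_mod_cast hw
  have hw0 : (0 : ℝ) < w := by linarith
  have h1 : (w : ℝ) + 1 ≤ ex (1 / 24) * w := by
    have h2 : (1 : ℝ) + 1 / 48 ≤ ex (1 / 24) := by
      have h3 := exp_le_ex (x := 1 / 48) (by norm_num)
      have h4 := Real.add_one_le_exp (1 / 48)
      norm_num at h3 h4 ⊢
      linarith
    nlinarith
  have h2 := pow_le_pow_left₀ (by positivity) h1 24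
  rw [mul_pow, ex_pow] at h2
  norm_num [ex_one] at h2
  exact_mod_cast h2

theorem exists_w (W : ℕ) : ∃ k0 : ℕ, ∀ k, k0 ≤ k → ∃ w, W ≤ w ∧ w ^ 24 ≤ k ∧ k ≤ 2 * w ^ 24 ∧
    k + 2 ≤ 2 ^ w := by
  have h1 := (tendsto_pow_const_div_const_pow_of_one_lt 24 (r := 2) one_lt_two).eventually
    (eventually_le_nhds (show (0 : ℝ) < 1 / 4 by norm_num))
  obtain ⟨W1, hW1⟩ := eventually_atTop.1 h1
  refine ⟨(W + W1 + 48) ^ 24, fun k hk => ?_⟩
  have hex : ∃ w, k < (w + 1) ^ 24 :=
    ⟨k, lt_of_lt_of_le (Nat.lt_succ_self k) (Nat.le_self_pow (by norm_num) _)⟩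
  set w := Nat.find hex with hw
  have h2 : k < (w + 1) ^ 24 := Nat.find_spec hex
  have h3 : W + W1 + 48 ≤ w :=
    Nat.le_of_lt_succ (lt_of_pow_lt_pow_left₀ 24 (Nat.zero_le _) (hk.trans_lt h2))
  have h4 : w ^ 24 ≤ k := by
    have h5 := Nat.find_min hex (m := w - 1) (by omega)
    rwa [Nat.sub_add_cancel (by omega), not_lt] at h5
  have h5 := succ_pow_le (w := w) (by omega)
  refine ⟨w, by omega, h4, by omega, ?_⟩
  have h6 := hW1 w (by omega)
  rw [div_le_iff₀ (by positivity)] at h6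
  have h7 : 4 * w ^ 24 ≤ 2 ^ w := by
    have : 4 * (w : ℝ) ^ 24 ≤ 2 ^ w := by linarith
    exact_mod_cast this
  have h8 : 1 ≤ w ^ 24 := Nat.one_le_pow _ _ (by omega)
  omega

theorem not_wins_large (p : ℕ) (hp : 2 ≤ p) : ∃ k0 : ℕ, ∀ k, k0 ≤ k → ∀ n : ℕ,
    (n : ℝ) * (1 + 2 / p) ≤ k * ex (bb p + (k - 1) / 2) → ¬ MakerWinsGame k n := by
  obtain ⟨k0, h⟩ := exists_w (1000 * p + (2 * qq p + 2) * (qq p + 1) + (2 * qq p + 2) * kap)
  refine ⟨k0, fun k hk n hn => ?_⟩
  obtain ⟨w, h1, h2, h3, h4⟩ := h k hk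
  exact not_wins_of_num (w := w) (p := p) ⟨hp, h2, h3, h4, by omega, by omega, by omega, hn⟩

theorem upper_bound : ∀ ε : ℝ, 0 < ε → ∀ᶠ n : ℕ in atTop, ∀ k : ℕ,
    2 * Real.logb 2 n - 2 * Real.logb 2 (Real.logb 2 n) - 3 + ε ≤ k → ¬ MakerWinsGame k n := by
  intro ε hε
  obtain ⟨p, hp⟩ := exists_nat_ge (24 / ε + 2)
  have hε' : 0 < 24 / ε := by positivity
  have hp2 : (2 : ℝ) ≤ p := by linarith
  have hp0 : (0 : ℝ) < p := by linarith
  have hpε : 24 / (p : ℝ) ≤ ε := by
    rw [div_le_iff₀ hp0]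
    have : 24 / ε ≤ p := by linarith
    rw [div_le_iff₀ hε] at this
    linarith
  obtain ⟨k0, hk0⟩ := not_wins_large p (by exact_mod_cast hp2)
  have hc : ex (-(ε / 4)) < 1 := by
    rw [← ex_zero]
    exact ex_lt (by linarith)
  set c := ex (-(ε / 4)) with hcdef
  have hc0 : 0 < c := ex_pos _
  have e2 := (Real.isLittleO_logb_id_atTop (b := 2)).bound (c := (1 - c) / 2) (by linarith)
  have e1 := ((Real.tendsto_logb_atTop (b := 2) (by norm_num)).comp
    tendsto_natCast_atTop_atTop).eventually ((e2.and (eventually_ge_atTop (3 / (1 - c)))).and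
      ((eventually_ge_atTop 1).and (eventually_ge_atTop (k0 / c))))
  filter_upwards [e1, eventually_gt_atTop 0] with n hn hn0 k hk
  obtain ⟨⟨h1, h2⟩, h3, h4⟩ := hn
  simp only [Function.comp] at h1 h2 h3 h4
  have hn0' : (0 : ℝ) < n := by exact_mod_cast hn0
  set L := Real.logb 2 n with hL
  have hL0 : 0 < L := by linarith
  have hl0 : 0 ≤ Real.logb 2 L := Real.logb_nonneg (by norm_num) h3
  rw [id, Real.norm_of_nonneg hl0, Real.norm_of_nonneg hL0.le] at h1
  rw [div_le_iff₀ (by linarith)] at h2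
  rw [div_le_iff₀ hc0] at h4
  have h5 : 2 * L * c ≤ k := by nlinarith
  refine hk0 k ?_ n ?_
  · have : (k0 : ℝ) ≤ k := by nlinarith
    exact_mod_cast this
  · have h6 : ex L = n := Real.rpow_logb (by norm_num) (by norm_num) hn0'
    have h7 : ex (Real.logb 2 L) = L := Real.rpow_logb (by norm_num) (by norm_num) hL0
    have h8 : 1 + 2 / (p : ℝ) ≤ ex (2 * (2 / p)) := by
      refine le_trans ?_ (exp_le_ex (by positivity))
      linarith [Real.add_one_le_exp (2 / (p : ℝ))]
    have h9 : 2 * L * c = ex (Real.logb 2 L + 1 + -(ε / 4)) := by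
      rw [ex_add, ← two_mul_ex, h7]
    refine le_trans ?_ (mul_le_mul_of_nonneg_right h5 (ex_nonneg _))
    rw [h9, ex_mul]
    refine (mul_le_ex h6.ge h8 (by positivity)).trans (ex_le ?_)
    have h10 : 24 / (p : ℝ) = 12 * (2 / p) := by ring
    unfold bb
    linarith

end Pool.Agent.Lib.MP_802a39_co
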