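import Pool.Agent.Lib.MP_802a39_co.Nodes
import Pool.Agent.Lib.MP_802a39_co.Game

/-! While the potential is small, few processed embeddings meet a live one. -/

set_option autoImplicit false

namespace Pool.Agent.Lib.MP_802a39_co

open Finset

theorem skew_card {ι V : Type} [DecidableEq ι] [DecidableEq V] (τ : ι → ℕ) (P : ι → Finset V)
    (c : ℕ) : ∀ (s : Finset ι) (T : ι → Finset V), (∀ i ∈ s, ∀ j ∈ s, i ≠ j → τ i ≠ τ j) →
      (∀ i ∈ s, (P i).card ≤ 4) → (∀ i ∈ s, (T i).card ≤ c) → (∀ i ∈ s, Disjoint (P i) (T i)) →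
      (∀ i ∈ s, ∀ j ∈ s, τ i < τ j → ¬ Disjoint (P i) (T j)) → s.card ≤ 5 ^ c := by
  induction c with
  | zero =>
    intro s T h1 _ h3 _ h5
    refine card_le_one.2 fun i hi j hj => ?_
    by_contra h
    rcases lt_or_gt_of_ne (h1 i hi j hj h) with h6 | h6
    · refine h5 i hi j hj h6 ?_
      rw [card_eq_zero.1 (Nat.le_zero.1 (h3 j hj))]
      exact disjoint_empty_right _
    · refine h5 j hj i hi h6 ?_
      rw [card_eq_zero.1 (Nat.le_zero.1 (h3 i hi))]
      exact disjoint_empty_right _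
  | succ c ih =>
    intro s T h1 h2 h3 h4 h5
    rcases s.eq_empty_or_nonempty with rfl | hs
    · simp
    obtain ⟨i0, hi0, hmin⟩ := exists_min_image s τ hs
    have h6 : s.erase i0 ⊆ (P i0).biUnion fun x => s.filter fun j => x ∈ T j := by
      intro j hj
      obtain ⟨hj1, hj2⟩ := mem_erase.1 hj
      obtain ⟨x, hx1, hx2⟩ := not_disjoint_iff.1 (h5 i0 hi0 j hj2
        (lt_of_le_of_ne (hmin j hj2) (h1 i0 hi0 j hj2 hj1.symm)))
      exact mem_biUnion.2 ⟨x, hx1, mem_filter.2 ⟨hj2, hx2⟩⟩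
    have h7 : ((P i0).biUnion fun x => s.filter fun j => x ∈ T j).card ≤ (P i0).card * 5 ^ c := by
      refine card_biUnion_le_card_mul _ _ _ fun x _ => ih _ (fun j => (T j).erase x)
        (fun i hi j hj => h1 i (mem_filter.1 hi).1 j (mem_filter.1 hj).1)
        (fun i hi => h2 i (mem_filter.1 hi).1) (fun i hi => ?_)
        (fun i hi => (h4 i (mem_filter.1 hi).1).mono_right (erase_subset _ _))
        fun i hi j hj hij => ?_
      · have := h3 i (mem_filter.1 hi).1
        rw [card_erase_of_mem (mem_filter.1 hi).2]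
        omega
      · obtain ⟨z, hz1, hz2⟩ := not_disjoint_iff.1
          (h5 i (mem_filter.1 hi).1 j (mem_filter.1 hj).1 hij)
        refine not_disjoint_iff.2 ⟨z, hz1, mem_erase.2 ⟨?_, hz2⟩⟩
        rintro rfl
        exact disjoint_left.1 (h4 i (mem_filter.1 hi).1) hz1 (mem_filter.1 hi).2
    have h8 := card_le_card h6
    rw [card_erase_of_mem hi0] at h8
    have h9 := Nat.mul_le_mul_right (5 ^ c) (h2 i0 hi0)
    have h10 : 0 < 5 ^ c := by positivity
    rw [pow_succ]
    omega

theorem greedy {ι : Type} [DecidableEq ι] (rel : ι → ι → Prop) [DecidableRel rel]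
    (hsymm : ∀ i j, rel i j → rel j i) (κ : ℕ) (s : Finset ι) : (∀ i ∈ s, rel i i) →
    (∀ i ∈ s, (s.filter (rel i)).card ≤ κ) →
      ∃ G ⊆ s, (∀ i ∈ G, ∀ j ∈ G, i ≠ j → ¬ rel i j) ∧ s.card ≤ κ * G.card := by
  induction s using Finset.strongInduction with
  | H s ih =>
    intro hrefl hκ
    rcases s.eq_empty_or_nonempty with rfl | ⟨i, hi⟩
    · exact ⟨∅, Subset.rfl, by simp, by simp⟩
    obtain ⟨G, h1, h2, h3⟩ := ih (s.filter fun j => ¬ rel i j)
      ⟨filter_subset _ _, fun h => (mem_filter.1 (h hi)).2 (hrefl i hi)⟩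
      (fun j hj => hrefl j (mem_filter.1 hj).1) fun j hj =>
        (card_le_card (filter_subset_filter _ (filter_subset _ _))).trans
          (hκ j (mem_filter.1 hj).1)
    have hiG : i ∉ G := fun h => (mem_filter.1 (h1 h)).2 (hrefl i hi)
    refine ⟨insert i G, insert_subset hi (h1.trans (filter_subset _ _)), fun a ha b hb hab => ?_, ?_⟩
    · rcases mem_insert.1 ha with h4 | h4 <;> rcases mem_insert.1 hb with h5 | h5
      · exact absurd (h4.trans h5.symm) hab
      · exact h4 ▸ (mem_filter.1 (h1 h5)).2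
      · exact fun h => (mem_filter.1 (h1 h4)).2 (hsymm _ _ (h5 ▸ h))
      · exact h2 a h4 b h5 hab
    · have h4 := card_filter_add_card_filter_not (s := s) (rel i)
      have h5 := hκ i hi
      rw [card_insert_of_notMem hiG, mul_add]
      omega

variable {k n w p : ℕ}

theorem card_div_fiber {r : ℕ} (hr : 0 < r) (c : ℕ) :
    (univ.filter fun i : Fin k => i.val / r = c).card ≤ r := by
  refine le_trans (card_le_card_of_injOn (t := range r) (fun i => i.val % r)
    (fun i _ => mem_coe.2 (mem_range.2 (Nat.mod_lt _ hr))) fun i hi j hj hij => ?_)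
    (card_range r).le
  have h1 := (mem_filter.1 (mem_coe.1 hi)).2
  have h2 := (mem_filter.1 (mem_coe.1 hj)).2
  refine Fin.ext ?_
  rw [← Nat.div_add_mod i.val r, ← Nat.div_add_mod j.val r, h1, h2]
  exact congrArg _ hij

theorem cA_ge (h : Num k n w p) {A : Finset (Fin n)} (hA : A.card = k) :
    -(3 * (k : ℝ)) - 5 ≤ cA k p A := by
  unfold cA
  rw [hA]
  have := mul_le_mul_of_nonneg_left h.b1 (show (0 : ℝ) ≤ k by positivity)
  linarith

/-- Few outside vertices are joined to almost all of an almost complete set. -/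
def StarOK (k w : ℕ) (D : Finset (Fin n × Fin n)) (Q : Finset (Sym2 (Fin n))) : Prop :=
  ∀ A : Finset (Fin n), A.card = k → Disjoint (ed A) Q → (ed A \ und D).card ≤ w →
    (Aᶜ.filter fun x => (A.filter fun v => s(x, v) ∉ und D).card ≤ 2 * w ^ 18).card ≤ 13

theorem exists_star (h : Num k n w p) :
    ∃ F : (Sym2 (Fin n) → ℝ) → ℝ, Good F ∧ F (fun _ => 1 / 2) ≤ 1 / 32 ∧
      ∀ D Q, F (yOf D Q) ≤ 1 → StarOK k w D Q := by
  have hw := h.w2
  have hk := h.wk
  set I : Finset (Fin n) → Finset (Fin n × Finset (Fin n)) := fun A =>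
    Aᶜ ×ˢ A.powerset.filter fun B => B.card ≤ 2 * w ^ 18 with hI
  set Ed : Finset (Fin n) → Fin n × Finset (Fin n) → Finset (Sym2 (Fin n)) := fun A x =>
    star x.1 (A \ x.2) with hEd
  have hgood : ∀ A, Good fun y => ex (cA k p A + (3 * k + 6 + w)) *
      tup (I A) (Ed A) (fun _ => 1) 13 (ed A) y := fun A =>
    Good.smul _ (ex_nonneg _) (tup_good _ _ (fun _ => zero_le_one) _ _)
  refine ⟨fun y => ∑ A ∈ univ.filter fun A : Finset (Fin n) => A.card = k,
    ex (cA k p A + (3 * k + 6 + w)) * tup (I A) (Ed A) (fun _ => 1) 13 (ed A) y,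
    Good.sum _ _ fun A _ => hgood A, ?_, fun D Q hF A hA hQ hm => ?_⟩
  · refine le_trans ?_ (root_sum h)
    refine le_trans (sum_le_sum fun A hA => ?_) (sum_le_sum_of_subset_of_nonneg (subset_univ _)
      fun A _ _ => mul_nonneg (ex_nonneg _) (by positivity))
    have hA' := (mem_filter.1 hA).2
    have h1 := tup_half (I A) (Ed A) (c := fun _ => 1) (fun _ => zero_le_one) (m := ex (-(k / 4)))
      (by
        refine (sum_le_card_nsmul _ _ (ex (-(k - 2 * (w : ℝ) ^ 18))) fun x hx => ?_).trans ?_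
        · rw [one_mul, half_pow]
          refine ex_le (neg_le_neg ?_)
          have h1 : x.2.card ≤ 2 * w ^ 18 := (mem_filter.1 (mem_product.1 hx).2).2
          have h2 : k ≤ (A \ x.2).card + 2 * w ^ 18 := by
            have := card_le_card_sdiff_add_card (s := A) (t := x.2)
            omega
          have h3 : (k : ℝ) ≤ (A \ x.2).card + 2 * (w : ℝ) ^ 18 := by exact_mod_cast h2
          simp only [hEd, card_star]
          linarith
        · rw [nsmul_eq_mul]
          have h1 : ((I A).card : ℝ) ≤ ex (lam k w p + (2 * w ^ 18 : ℕ) * w) := by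
            simp only [hI, card_product]
            rw [Nat.cast_mul]
            refine mul_le_ex (le_trans ?_ h.nlam) (le_trans ?_ (pow_le_ex (a := (k : ℝ) + 1)
              (by positivity) (by linarith [h.k2']) _)) (by positivity)
            · have := card_le_univ Aᶜ
              rw [Fintype.card_fin] at this
              exact_mod_cast this
            · have := card_small_subsets A (2 * w ^ 18)
              rw [hA'] at this
              exact_mod_cast this
          refine (mul_le_ex h1 le_rfl (ex_nonneg _)).trans (ex_le ?_)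
          have h2 := h.chk (i := 18) (by norm_num)
          have h3 := h.chk (i := 19) (by norm_num)
          unfold lam
          push_cast
          nlinarith [h.b1]) 13 (ed A)
    refine (mul_le_mul_of_nonneg_left h1 (ex_nonneg _)).trans ?_
    rw [ex_pow, mul_comm ((1 / 2 : ℝ) ^ _), ← mul_assoc, ex_mul]
    refine mul_le_mul_of_nonneg_right (ex_le ?_) (by positivity)
    push_cast
    linarith
  · by_contra hc
    set Z := Aᶜ.filter fun x => (A.filter fun v => s(x, v) ∉ und D).card ≤ 2 * w ^ 18 with hZ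
    set S := Z.image fun x => (x, A.filter fun v => s(x, v) ∉ und D) with hS
    have hy0 := yOf_nonneg D Q
    have hSI : S ⊆ I A := by
      intro a ha
      obtain ⟨x, hx, rfl⟩ := mem_image.1 ha
      exact mem_product.2 ⟨(mem_filter.1 hx).1, mem_filter.2
        ⟨mem_powerset.2 (filter_subset _ _), (mem_filter.1 hx).2⟩⟩
    have hW : ∀ a ∈ S, 1 * W (yOf D Q) (Ed A a) = 1 := by
      intro a ha
      obtain ⟨x, hx, rfl⟩ := mem_image.1 ha
      rw [one_mul]
      refine prod_eq_one fun e he => ?_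
      obtain ⟨v, hv, rfl⟩ := mem_star.1 he
      have h1 : s(x, v) ∈ und D := by
        by_contra h2
        exact (mem_sdiff.1 hv).2 (mem_filter.2 ⟨(mem_sdiff.1 hv).1, h2⟩)
      simp [yOf, h1]
    have hSc : S.card = Z.card := card_image_of_injective _ fun a b hab => (Prod.ext_iff.1 hab).1
    have h1 := tup_lower (I A) (Ed A) (c := fun _ => 1) (fun _ => zero_le_one) hy0 hSI
      (conf := 1) (z := 1) zero_le_one zero_le_one (fun a ha => by
        rw [sum_congr rfl fun b hb => hW b (mem_filter.1 hb).1, sum_const, nsmul_eq_mul, mul_one]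
        have h1 : (S.filter fun b => ¬ Disjoint (Ed A a) (Ed A b)) ⊆ {a} := by
          intro b hb
          obtain ⟨x, hx, rfl⟩ := mem_image.1 ha
          obtain ⟨x', _, rfl⟩ := mem_image.1 (mem_filter.1 hb).1
          by_cases h2 : x = x'
          · exact h2 ▸ mem_singleton_self _
          · exact absurd (star_disjoint h2 fun h3 =>
              mem_compl.1 (mem_filter.1 hx).1 (mem_sdiff.1 h3).1) (mem_filter.1 hb).2
        exact_mod_cast (card_le_card h1).trans (card_singleton a).le) 13 (ed A) (by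
        rw [sum_congr rfl hW, sum_const, nsmul_eq_mul, mul_one, filter_eq_empty_iff.2, sum_empty]
        · have h1 : 14 ≤ S.card := by omega
          have h2 : (14 : ℝ) ≤ S.card := by exact_mod_cast h1
          push_cast
          linarith
        · intro a ha
          exact not_not.2 (star_disjoint_ed (mem_compl.1 (mem_product.1 (hSI ha)).1)))
    have h2 := (single_le_sum (f := fun A => ex (cA k p A + (3 * k + 6 + w)) *
      tup (I A) (Ed A) (fun _ => 1) 13 (ed A) (yOf D Q)) (fun A _ => (hgood A).nonneg hy0)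
      (mem_filter.2 ⟨mem_univ A, hA⟩)).trans hF
    rw [one_pow, mul_one, W_yOf_eq D hQ] at h1
    have h3 := (mul_le_mul_of_nonneg_left h1 (ex_nonneg _)).trans h2
    rw [ex_mul] at h3
    have h4 := nonpos_of_ex_le_one h3
    have h5 : ((ed A \ und D).card : ℝ) ≤ w := by exact_mod_cast hm
    linarith [cA_ge h hA]

variable {T : Fin k → Fin k → Prop} {D : Finset (Fin n × Fin n)} {Q : Finset (Sym2 (Fin n))}

/-- An almost complete embedding without an edge of Breaker. -/
def gd (T : Fin k → Fin k → Prop) (w : ℕ) (D : Finset (Fin n × Fin n))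
    (Q : Finset (Sym2 (Fin n))) (φ : Fin k → Fin n) : Prop :=
  Function.Injective φ ∧ compat T D φ ∧ Disjoint (eE φ) Q ∧ (eE φ \ und D).card ≤ w

/-- Every active node has value at most one. -/
def NodeOK (T : Fin k → Fin k → Prop) (w p : ℕ) (D : Finset (Fin n × Fin n))
    (Q : Finset (Sym2 (Fin n))) : Prop :=
  ∀ x : Node k n, valid w x → active T w D x → nval w p (yOf D Q) x ≤ 1

theorem node_bound (h : Num k n w p) (hN : NodeOK T w p D Q) {x : Node k n} (hx : valid w x)
    (hg : ∀ φ ∈ x.2, gd T w D Q φ) (hQ : Disjoint (ed x.1) Q) :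
    cA k p x.1 + ∑ φ ∈ x.2, gam w p x.1 φ ≤ (ed x.1 \ und D).card + x.2.card * w := by
  have h43 : w ≤ 2 * w ^ 43 := by
    have h1 := h.wpw (i := 43) (by norm_num)
    have : (w : ℝ) ≤ 2 * (w : ℝ) ^ 43 := by linarith [h.w2]
    exact_mod_cast this
  have h1 := hN x hx fun φ hφ _ => ⟨(hg φ hφ).2.1, (hg φ hφ).2.2.2.trans h43⟩
  have h2 : Disjoint (nX x) Q :=
    disjoint_union_left.2 ⟨hQ, (disjoint_biUnion_left _ _ _).2 fun φ hφ => (hg φ hφ).2.2.1⟩
  rw [nval, W_yOf_eq D h2, ex_mul] at h1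
  have h3 := nonpos_of_ex_le_one h1
  have h4 : nX x \ und D ⊆ (ed x.1 \ und D) ∪ x.2.biUnion fun φ => eE φ \ und D := by
    intro e he
    obtain ⟨h5, h6⟩ := mem_sdiff.1 he
    rcases mem_union.1 h5 with h7 | h7
    · exact mem_union_left _ (mem_sdiff.2 ⟨h7, h6⟩)
    · obtain ⟨φ, h8, h9⟩ := mem_biUnion.1 h7
      exact mem_union_right _ (mem_biUnion.2 ⟨φ, h8, mem_sdiff.2 ⟨h9, h6⟩⟩)
  have h5 := ((card_le_card h4).trans (card_union_le _ _)).trans (Nat.add_le_add_left
    (card_biUnion_le_card_mul _ _ w fun φ hφ => (hg φ hφ).2.2.2) _)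
  have h6 : ((nX x \ und D).card : ℝ) ≤ (ed x.1 \ und D).card + x.2.card * w := by
    exact_mod_cast h5
  linarith

theorem node_bound' (h : Num k n w p) (hN : NodeOK T w p D Q) {x : Node k n} (hx : valid w x)
    (hg : ∀ φ ∈ x.2, gd T w D Q φ) (hQ : Disjoint (ed x.1) Q) :
    cA k p x.1 + x.2.card * (k / p) ≤ (ed x.1 \ und D).card + x.2.card * w := by
  refine le_trans (add_le_add le_rfl ?_) (node_bound h hN hx hg hQ)
  rw [← nsmul_eq_mul]
  refine card_nsmul_le_sum _ _ _ fun φ _ => ?_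
  unfold gam
  split_ifs
  · exact le_rfl
  · have h1 : (k : ℝ) / p ≤ k := div_le_self (by positivity) (by linarith [h.p2'])
    have h2 : (0 : ℝ) ≤ k := by positivity
    linarith

theorem dichotomy (h : Num k n w p) (hN : NodeOK T w p D Q) {φ ψ : Fin k → Fin n}
    (hφ : gd T w D Q φ) (hψ : gd T w D Q ψ) (hf : (im ψ ∩ im φ).card + w ^ 18 ≤ k) :
    (im ψ ∩ im φ).card < 8 * w := by
  by_contra hc
  have hw : 2 ≤ w := by
    have := h.wp
    have := h.p2
    omega
  have h1 := node_bound h hN (x := (im φ, {ψ})) ⟨card_im_le φ, by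
      simpa using Nat.one_le_pow _ _ (by omega), by simpa using hψ.1, by
      simp only [mem_singleton, forall_eq]
      omega, by simpa using hf, by simp⟩ (by simpa using hψ) hφ.2.2.1
  simp only [sum_singleton, gam, if_neg hc, card_singleton] at h1
  have h2 : ((ed (im φ) \ und D).card : ℝ) ≤ w := by exact_mod_cast hφ.2.2.2
  have h3 := cA_ge h (card_im hφ.1)
  push_cast at h1
  linarith [h.wk, h.w2]

theorem cluster (h : Num k n w p) (hS : StarOK k w D Q) {a : ℕ} (ha : a ≤ w) {R : Finset (Rec k n)}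
    (hR : Proc T a D Q R) {r : Rec k n} (hr : r ∈ R) :
    (R.filter fun r' => k < (im r.1 ∩ im r'.1).card + w ^ 18).card ≤ kap := by
  set S := im r.1 with hSdef
  set Z := Sᶜ.filter fun x => (S.filter fun v => s(x, v) ∉ und D).card ≤ 2 * w ^ 18 with hZ
  have hSc : S.card = k := card_im (hR.inj r hr)
  have hZc : Z.card ≤ 13 := hS S hSc (hR.noQ r hr) ((hR.miss r hr).trans ha)
  have hw18 : w ≤ w ^ 18 := by
    have h1 := h.wpw (i := 18) (by norm_num)
    have : (w : ℝ) ≤ (w : ℝ) ^ 18 := by linarith [h.w2]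
    exact_mod_cast this
  have hsub : ∀ r' ∈ R.filter fun r' => k < (S ∩ im r'.1).card + w ^ 18, im r'.1 ⊆ S ∪ Z := by
    intro r' hr' x hx
    obtain ⟨h1, h2⟩ := mem_filter.1 hr'
    by_cases h3 : x ∈ S
    · exact mem_union_left _ h3
    refine mem_union_right _ (mem_filter.2 ⟨mem_compl.2 h3, ?_⟩)
    have h4 : (S.filter fun v => s(x, v) ∉ und D) ⊆
        (S \ im r'.1) ∪ (S ∩ im r'.1).filter fun v => s(x, v) ∉ und D := by
      intro v hv
      simp only [mem_filter, mem_union, mem_sdiff, mem_inter] at hv ⊢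
      tauto
    have h5 := (card_le_card h4).trans (card_union_le _ _)
    have h6 := card_sdiff_add_card_inter S (im r'.1)
    have h7 : ((S ∩ im r'.1).filter fun v => s(x, v) ∉ und D).card ≤ (eE r'.1 \ und D).card := by
      refine card_le_card_of_injOn (fun v => s(x, v)) (fun v hv => ?_)
        fun a _ b _ hab => Sym2.congr_right.1 hab
      obtain ⟨h8, h9⟩ := mem_filter.1 (mem_coe.1 hv)
      exact mem_coe.2 (mem_sdiff.2 ⟨mk_mem_ed.2 ⟨hx, (mem_inter.1 h8).2,
        (ne_of_mem_of_not_mem (mem_inter.1 h8).1 h3).symm⟩, h9⟩)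
    have h8 := hR.miss r' h1
    omega
  have hed : ∀ (e : Sym2 (Fin n)) (A : Finset (Fin n)), e ∈ ed A → e.toFinset ⊆ A := by
    intro e A he
    induction e using Sym2.ind with
    | h u v =>
      rw [Sym2.toFinset_mk_eq]
      exact insert_subset (mk_mem_ed.1 he).1 (singleton_subset_iff.2 (mk_mem_ed.1 he).2.1)
  have hed' : ∀ (e : Sym2 (Fin n)) (A B : Finset (Fin n)), e ∈ ed A → e.toFinset ⊆ B →
      e ∈ ed B := by
    intro e A B he hB
    induction e using Sym2.ind with
    | h u v =>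
      rw [Sym2.toFinset_mk_eq] at hB
      exact mk_mem_ed.2 ⟨hB (by simp), hB (by simp), (mk_mem_ed.1 he).2.2⟩
  have hc2 : ∀ e : Sym2 (Fin n), e.toFinset.card ≤ 2 := by
    intro e
    induction e using Sym2.ind with
    | h u v =>
      rw [Sym2.toFinset_mk_eq]
      exact card_le_two
  have hP : ∀ r' ∈ R, r'.2.1.toFinset ∪ r'.2.2.1.toFinset ⊆ im r'.1 := fun r' hr' =>
    union_subset (hed _ _ (hR.mem1 r' hr')) (hed _ _ (hR.mem2 r' hr'))
  refine skew_card (fun r' : Rec k n => r'.2.2.2) (fun r' => r'.2.1.toFinset ∪ r'.2.2.1.toFinset)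
    13 _ (fun r' => (S ∪ Z) \ im r'.1)
    (fun i hi j hj => hR.tinj i (mem_filter.1 hi).1 j (mem_filter.1 hj).1) (fun i _ => ?_)
    (fun i hi => ?_) (fun i hi => disjoint_sdiff.mono_left (hP i (mem_filter.1 hi).1))
    fun i hi j hj hij hd => hR.skew i (mem_filter.1 hi).1 j (mem_filter.1 hj).1 hij ?_
  · have := card_union_le i.2.1.toFinset i.2.2.1.toFinset
    have := hc2 i.2.1
    have := hc2 i.2.2.1
    omega
  · rw [card_sdiff_of_subset (hsub i hi), card_im (hR.inj i (mem_filter.1 hi).1)]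
    have := card_union_le S Z
    omega
  · have h1 : i.2.1.toFinset ∪ i.2.2.1.toFinset ⊆ im j.1 := by
      intro x hx
      by_contra h2
      exact disjoint_left.1 hd hx (mem_sdiff.2 ⟨hsub i hi (hP i (mem_filter.1 hi).1 hx), h2⟩)
    exact ⟨hed' _ _ _ (hR.mem1 i (mem_filter.1 hi).1) (subset_union_left.trans h1),
      hed' _ _ _ (hR.mem2 i (mem_filter.1 hi).1) (subset_union_right.trans h1)⟩

theorem far_family (h : Num k n w p) (hS : StarOK k w D Q) (hN : NodeOK T w p D Q) {a : ℕ}
    (ha : a ≤ w) {R : Finset (Rec k n)} (hR : Proc T a D Q R) (X : Finset (Sym2 (Fin n))) :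
    ∃ U : Finset (Fin k → Fin n), nb R X ≤ kap * U.card ∧
      (∀ φ ∈ U, gd T w D Q φ ∧ ¬ Disjoint X (eE φ)) ∧
      ∀ φ ∈ U, ∀ ψ ∈ U, φ ≠ ψ → (im φ ∩ im ψ).card < 8 * w := by
  have hw : 0 < w ^ 18 := by
    have := h.wp
    have := h.p2
    exact Nat.pow_pos (by omega)
  have hrefl : ∀ r ∈ R, ∀ r' : Rec k n, r.1 = r'.1 → k < (im r.1 ∩ im r'.1).card + w ^ 18 := by
    intro r hr r' h1
    rw [← h1, inter_self, card_im (hR.inj r hr)]
    omega
  obtain ⟨G, h1, h2, h3⟩ := greedy (fun r r' : Rec k n => k < (im r.1 ∩ im r'.1).card + w ^ 18)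
    (fun r r' h => by rwa [inter_comm]) kap (R.filter fun r => ¬ Disjoint X (eE r.1))
    (fun r hr => hrefl r (mem_filter.1 hr).1 r rfl) fun r hr =>
      (card_le_card (filter_subset_filter _ (filter_subset _ _))).trans
        (cluster h hS ha hR (mem_filter.1 hr).1)
  have hg : ∀ r ∈ G, gd T w D Q r.1 := fun r hr =>
    have h4 := (mem_filter.1 (h1 hr)).1
    ⟨hR.inj r h4, hR.comp r h4, hR.noQ r h4, (hR.miss r h4).trans ha⟩
  refine ⟨G.image Prod.fst, ?_, ?_, ?_⟩
  · rw [card_image_of_injOn]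
    · exact h3
    · intro r hr r' hr' h4
      by_contra h5
      exact h2 r hr r' hr' h5 (hrefl r (mem_filter.1 (h1 hr)).1 r' h4)
  · intro φ hφ
    obtain ⟨r, hr, rfl⟩ := mem_image.1 hφ
    exact ⟨hg r hr, (mem_filter.1 (h1 hr)).2⟩
  · intro φ hφ ψ hψ hne
    obtain ⟨r, hr, rfl⟩ := mem_image.1 hφ
    obtain ⟨r', hr', rfl⟩ := mem_image.1 hψ
    exact dichotomy h hN (hg r' hr') (hg r hr)
      (not_lt.1 (h2 r hr r' hr' fun h4 => hne (h4 ▸ rfl)))

theorem caseA (h : Num k n w p) (hN : NodeOK T w p D Q) {φ0 : Fin k → Fin n}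
    (hQ : Disjoint (eE φ0) Q) {U : Finset (Fin k → Fin n)}
    (h1 : ∀ φ ∈ U, gd T w D Q φ ∧ ¬ Disjoint (eE φ0) (eE φ))
    (h2 : ∀ φ ∈ U, ∀ ψ ∈ U, φ ≠ ψ → (im φ ∩ im ψ).card < 8 * w) : U.card ≤ 9 * w ^ 36 := by
  have hw := h.w2
  have hw0 : 0 < w := by
    have := h.wp
    have := h.p2
    omega
  set A : ℕ × ℕ → Finset (Fin n) := fun c => ((univ.filter fun i : Fin k => i.val / w ^ 14 = c.1) ∪
    univ.filter fun i : Fin k => i.val / w ^ 14 = c.2).image φ0 with hA
  have hAc : ∀ c, (A c).card ≤ 2 * w ^ 14 := by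
    intro c
    refine (card_image_le.trans (card_union_le _ _)).trans ?_
    have h3 := card_div_fiber (k := k) (Nat.pow_pos (n := 14) hw0) c.1
    have h4 := card_div_fiber (k := k) (Nat.pow_pos (n := 14) hw0) c.2
    omega
  have hlt : ∀ i : Fin k, i.val / w ^ 14 < 3 * w ^ 10 := by
    intro i
    rw [Nat.div_lt_iff_lt_mul (by positivity)]
    have h3 := h.ku
    have h4 := i.2
    have h5 : 3 * w ^ 10 * w ^ 14 = 3 * w ^ 24 := by ring
    omega
  have h3 : U ⊆ (range (3 * w ^ 10) ×ˢ range (3 * w ^ 10)).biUnion fun c =>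
      U.filter fun φ => 2 ≤ (im φ ∩ A c).card := by
    intro φ hφ
    obtain ⟨u, v, huv, hu, hv, hu', hv'⟩ := two_le_card_of_not_disjoint (h1 φ hφ).2
    obtain ⟨i, rfl⟩ := mem_im.1 hu
    obtain ⟨j, rfl⟩ := mem_im.1 hv
    refine mem_biUnion.2 ⟨(i.val / w ^ 14, j.val / w ^ 14), mem_product.2
      ⟨mem_range.2 (hlt i), mem_range.2 (hlt j)⟩, mem_filter.2 ⟨hφ, one_lt_card.2
        ⟨φ0 i, mem_inter.2 ⟨hu', ?_⟩, φ0 j, mem_inter.2 ⟨hv', ?_⟩, huv⟩⟩⟩
    · exact mem_image_of_mem _ (mem_union_left _ (by simp))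
    · exact mem_image_of_mem _ (mem_union_right _ (by simp))
  refine (card_le_card h3).trans ((card_biUnion_le_card_mul _ _ (w ^ 16) fun c _ => ?_).trans
    (le_of_eq ?_))
  · by_contra h4
    obtain ⟨U', h5, h6⟩ := exists_subset_card_eq (not_le.1 h4).le
    have h7 : 2 * w ^ 14 + w ^ 18 ≤ k := by
      have h8 := h.chk (i := 14) (by norm_num)
      have h9 := h.chk (i := 18) (by norm_num)
      have : 2 * (w : ℝ) ^ 14 + (w : ℝ) ^ 18 ≤ k := by linarith [h.wk]
      exact_mod_cast this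
    have h8 := hAc c
    have h9 := node_bound' h hN (x := (A c, U')) ⟨by simp only; omega, h6.le,
      fun φ hφ => (h1 φ (mem_filter.1 (h5 hφ)).1).1.1, fun φ hφ => (mem_filter.1 (h5 hφ)).2,
      fun φ _ => by
        have : (im φ ∩ A c).card ≤ (A c).card := card_le_card inter_subset_right
        simp only
        omega,
      fun φ hφ ψ hψ => h2 φ (mem_filter.1 (h5 hφ)).1 ψ (mem_filter.1 (h5 hψ)).1⟩
      (fun φ hφ => (h1 φ (mem_filter.1 (h5 hφ)).1).1)
      (hQ.mono_left (ed_mono (image_subset_im _ _)))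
    simp only [h6] at h9
    have h10 : ((ed (A c) \ und D).card : ℝ) ≤ (ed (A c)).card := by
      exact_mod_cast card_le_card sdiff_subset
    rw [card_ed] at h10
    have h11 : ((A c).card : ℝ) ≤ 2 * (w : ℝ) ^ 14 := by exact_mod_cast h8
    have hk0 : (0 : ℝ) ≤ k := by positivity
    have h12 : ((A c).card : ℝ) * (bb p + (k - 1) / 2) ≤ 2 * (w : ℝ) ^ 14 * k :=
      mul_le_mul h11 (by linarith [h.b1, h.wk]) (by linarith [h.b0, h.wk]) (by positivity)
    have h13 : 1000 * (k : ℝ) ≤ w * (k / p) := by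
      have hp := h.p2'
      rw [← mul_div_assoc, le_div_iff₀ (by linarith)]
      nlinarith [h.wp']
    have h14 := mul_le_mul_of_nonneg_left h13 (show (0 : ℝ) ≤ (w : ℝ) ^ 15 by positivity)
    have h15 := mul_le_mul_of_nonneg_right (h.ch (i := 14) (j := 15) (by norm_num)) hk0
    have h16 := mul_le_mul_of_nonneg_right (h.wpw (i := 15) (by norm_num)) hk0
    have h17 := mul_le_mul_of_nonneg_right hw hk0
    have h18 := h.chk (i := 17) (by norm_num)
    have h19 := h.wk
    unfold cA at h9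
    push_cast at h9
    nlinarith
  · rw [card_product, card_range]
    ring

theorem violation (h : Num k n w p) (hS : StarOK k w D Q) (hN : NodeOK T w p D Q)
    {R : Finset (Rec k n)} (hR : Proc T ((2 * qq p + 2) * (qq p + 1)) D Q R) {φ0 : Fin k → Fin n}
    (hinj : Function.Injective φ0) (hQ : Disjoint (eE φ0) Q)
    (hm : (eE φ0 \ und D).card ≤ (2 * qq p + 2) * (nb R (eE φ0) + 1)) : nb R (eE φ0) ≤ qq p := by
  obtain ⟨U, h0, h1, h2⟩ := far_family h hS hN h.wa hR (eE φ0)
  have hA := caseA h hN hQ h1 h2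
  by_contra hc
  set U1 := U.filter fun φ => (im φ ∩ im φ0).card + w ^ 18 ≤ k with hU1
  have h3 : U.card ≤ U1.card + 1 := by
    have h4 := card_filter_add_card_filter_not (s := U)
      fun φ => (im φ ∩ im φ0).card + w ^ 18 ≤ k
    have h5 : (U.filter fun φ => ¬ (im φ ∩ im φ0).card + w ^ 18 ≤ k).card ≤ 1 := by
      refine card_le_one.2 fun φ hφ ψ hψ => ?_
      by_contra h6
      have h7 := h2 φ (mem_filter.1 hφ).1 ψ (mem_filter.1 hψ).1 h6
      have h8 := (mem_filter.1 hφ).2
      have h9 := (mem_filter.1 hψ).2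
      have h10 := card_union_add_card_inter (im φ ∩ im φ0) (im ψ ∩ im φ0)
      have h11 : ((im φ ∩ im φ0) ∪ (im ψ ∩ im φ0)).card ≤ k :=
        (card_le_card (union_subset inter_subset_right inter_subset_right)).trans (card_im_le _)
      have h12 : ((im φ ∩ im φ0) ∩ (im ψ ∩ im φ0)).card ≤ (im φ ∩ im ψ).card :=
        card_le_card (inter_subset_inter inter_subset_left inter_subset_left)
      have h13 : 8 * w + 2 * w ^ 18 ≤ k := by
        have h14 := h.chk (i := 18) (by norm_num)
        have : 8 * (w : ℝ) + 2 * (w : ℝ) ^ 18 ≤ k := by linarith [h.wk, h.w2]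
        exact_mod_cast this
      omega
    rw [← hU1] at h4
    omega
  obtain ⟨U', h5, h6⟩ := exists_subset_card_eq (min_le_right (w ^ 16) U1.card)
  have h7 := node_bound' h hN (x := (im φ0, U')) ⟨card_im_le _, h6 ▸ min_le_left _ _,
    fun φ hφ => (h1 φ (mem_filter.1 (h5 hφ)).1).1.1, fun φ hφ => by
      obtain ⟨u, v, huv, hu, hv, hu', hv'⟩ :=
        two_le_card_of_not_disjoint (h1 φ (mem_filter.1 (h5 hφ)).1).2
      exact one_lt_card.2 ⟨u, mem_inter.2 ⟨hu', hu⟩, v, mem_inter.2 ⟨hv', hv⟩, huv⟩,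
    fun φ hφ => (mem_filter.1 (h5 hφ)).2,
    fun φ hφ ψ hψ => h2 φ (mem_filter.1 (h5 hφ)).1 ψ (mem_filter.1 (h5 hψ)).1⟩
    (fun φ hφ => (h1 φ (mem_filter.1 (h5 hφ)).1).1) hQ
  have h8 := cA_ge h (card_im hinj)
  have h9 : (eE φ0 \ und D).card ≤ w * U.card + w := by
    have h10 := Nat.mul_le_mul_left (2 * qq p + 2) h0
    have h11 := Nat.mul_le_mul_right U.card h.wM
    have h12 : 2 * qq p + 2 ≤ w := le_trans (Nat.le_mul_of_pos_right _ (by omega)) h.wa
    rw [mul_add (2 * qq p + 2), mul_one] at hm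
    rw [← mul_assoc] at h10
    omega
  have h10 : ((ed (im φ0) \ und D).card : ℝ) ≤ w * U.card + w := by exact_mod_cast h9
  have hw := h.w2
  have hg := h.gk
  have hw0 : (0 : ℝ) ≤ w := by positivity
  simp only at h7
  rcases le_total (w ^ 16) U1.card with h11 | h11
  · rw [min_eq_left h11] at h6
    rw [h6] at h7
    have h12 : (U.card : ℝ) ≤ 9 * (w : ℝ) ^ 36 := by exact_mod_cast hA
    have h13 := mul_le_mul_of_nonneg_left h12 hw0
    have h14 := mul_le_mul_of_nonneg_left hg (show (0 : ℝ) ≤ (w : ℝ) ^ 16 by positivity)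
    have h15 := h.ch (i := 37) (j := 39) (by norm_num)
    have h16 := h.ch (i := 24) (j := 39) (by norm_num)
    have h17 := h.ch (i := 17) (j := 39) (by norm_num)
    have h18 := h.wpw (i := 39) (by norm_num)
    have h19 := h.ku'
    push_cast at h7
    nlinarith
  · rw [min_eq_right h11] at h6
    rw [h6] at h7
    have h12 : 8 * p + 1 < U.card := by
      refine Nat.lt_of_mul_lt_mul_left (a := kap) ?_
      unfold qq at hc
      omega
    have h13 : 8 * (p : ℝ) + 1 ≤ U1.card := by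
      have : 8 * p + 1 ≤ U1.card := by omega
      exact_mod_cast this
    have h14 : (U.card : ℝ) ≤ U1.card + 1 := by exact_mod_cast h3
    have h15 := mul_le_mul_of_nonneg_left h14 hw0
    have hp := h.p2'
    have h16 : (8 * (p : ℝ)) * (k / p) ≤ U1.card * (k / p) :=
      mul_le_mul_of_nonneg_right (by linarith) (by positivity)
    have h17 : (8 * (p : ℝ)) * (k / p) = 8 * k := by field_simp
    have h18 := h.wpw (i := 23) (by norm_num)
    have h19 : (U1.card : ℝ) * (1000 * w) ≤ U1.card * (k / p) :=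
      mul_le_mul_of_nonneg_left (by linarith) (by positivity)
    have h20 : (w : ℝ) * 1 ≤ w * U1.card := mul_le_mul_of_nonneg_left (by linarith) hw0
    have h21 := h.wk
    nlinarith

end Pool.Agent.Lib.MP_802a39_co
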